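import Pool.Agent.Lib.MP_131fce_co.Defs

/-! IC-4: real inequalities -/

set_option autoImplicit false

namespace Pool.Agent.ICyc

open Finset
open scoped Classical

theorem Phi_ge {t : ℝ} (ht : 0 ≤ t) : (1 - Real.sqrt t) ^ 2 ≤ Phi t := by
  unfold Phi
  rcases ht.eq_or_lt with h | h
  · rw [← h]; simp
  · have hs : 0 < Real.sqrt t := Real.sqrt_pos.mpr h
    have hss : Real.sqrt t * Real.sqrt t = t := Real.mul_self_sqrt ht
    have h1 : Real.log (1 / Real.sqrt t) ≤ 1 / Real.sqrt t - 1 :=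
      Real.log_le_sub_one_of_pos (by positivity)
    have h2 : Real.log (1 / Real.sqrt t) = -(Real.log t / 2) := by
      rw [one_div, Real.log_inv, Real.log_sqrt ht]
    rw [h2] at h1
    have h3 : t * (1 / Real.sqrt t) = Real.sqrt t := by
      field_simp
      nlinarith
    have h4 : t * (-(Real.log t / 2)) ≤ t * (1 / Real.sqrt t - 1) :=
      mul_le_mul_of_nonneg_left h1 ht
    have h5 : t * (1 / Real.sqrt t - 1) = Real.sqrt t - t := by
      rw [mul_sub, h3, mul_one]
    rw [h5] at h4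
    nlinarith

theorem JJ_ge {t : ℝ} (ht : 0 < t) : (1 - Real.sqrt t) ^ 2 ≤ JJ t := by
  unfold JJ
  have hs : 0 < Real.sqrt t := Real.sqrt_pos.mpr ht
  have hss : Real.sqrt t * Real.sqrt t = t := Real.mul_self_sqrt ht.le
  have h1 : Real.log (Real.sqrt t) ≤ Real.sqrt t - 1 := Real.log_le_sub_one_of_pos hs
  rw [Real.log_sqrt ht.le] at h1
  nlinarith

theorem Phi_half {t : ℝ} (ht : 0 ≤ t) (h : t ≤ 1 / 2) : 1 ≤ 12 * Phi t := by
  have h1 := Phi_ge ht
  have hs : 0 ≤ Real.sqrt t := Real.sqrt_nonneg t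
  have h2 : Real.sqrt t ≤ 7072 / 10000 := by
    rw [Real.sqrt_le_left (by norm_num)]
    linarith [show ((7072 : ℝ) / 10000) ^ 2 ≥ 1 / 2 by norm_num]
  nlinarith

theorem Phi_two {t : ℝ} (h : 2 ≤ t) : t ≤ 12 * Phi t := by
  have h1 := Phi_ge (show 0 ≤ t by linarith)
  have hss : Real.sqrt t * Real.sqrt t = t := Real.mul_self_sqrt (by linarith)
  have h2 : 1414 / 1000 ≤ Real.sqrt t := by
    apply Real.le_sqrt_of_sq_le
    linarith [show ((1414 : ℝ) / 1000) ^ 2 ≤ 2 by norm_num]
  nlinarith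

theorem Phi_nine_eighths {t : ℝ} (h : 9 / 8 ≤ t) : t ≤ 310 * Phi t := by
  have h1 := Phi_ge (show 0 ≤ t by linarith)
  have hss : Real.sqrt t * Real.sqrt t = t := Real.mul_self_sqrt (by linarith)
  have h2 : 10604 / 10000 ≤ Real.sqrt t := by
    apply Real.le_sqrt_of_sq_le
    linarith [show ((10604 : ℝ) / 10000) ^ 2 ≤ 9 / 8 by norm_num]
  nlinarith

theorem JJ_dev {t : ℝ} (ht : 0 < t) (h : 1 / 16 ≤ |t - 1|) : 1 ≤ 1100 * JJ t := by
  have h1 := JJ_ge ht
  have hs : 0 ≤ Real.sqrt t := Real.sqrt_nonneg t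
  have hss : Real.sqrt t * Real.sqrt t = t := Real.mul_self_sqrt ht.le
  rcases le_abs.mp h with h' | h'
  · have h2 : 10307 / 10000 ≤ Real.sqrt t := by
      apply Real.le_sqrt_of_sq_le
      linarith [show ((10307 : ℝ) / 10000) ^ 2 ≤ 17 / 16 by norm_num]
    nlinarith
  · have h2 : Real.sqrt t ≤ 9683 / 10000 := by
      rw [Real.sqrt_le_left (by norm_num)]
      linarith [show ((9683 : ℝ) / 10000) ^ 2 ≥ 15 / 16 by norm_num]
    nlinarith

theorem JJ_two {t : ℝ} (h : 2 < t) : t ≤ 12 * JJ t := by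
  have h1 := JJ_ge (show 0 < t by linarith)
  have hss : Real.sqrt t * Real.sqrt t = t := Real.mul_self_sqrt (by linarith)
  have h2 : 1414 / 1000 ≤ Real.sqrt t := by
    apply Real.le_sqrt_of_sq_le
    linarith [show ((1414 : ℝ) / 1000) ^ 2 ≤ 2 by norm_num]
  nlinarith

theorem JJ_nine {t : ℝ} (h : 9 < t) : 4 ≤ JJ t := by
  have h1 := JJ_ge (show 0 < t by linarith)
  have h2 : 3 ≤ Real.sqrt t := by
    apply Real.le_sqrt_of_sq_le
    linarith [show ((3 : ℝ)) ^ 2 = 9 by norm_num]
  nlinarith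

theorem JJ_nonneg {t : ℝ} (ht : 0 < t) : 0 ≤ JJ t := le_trans (sq_nonneg _) (JJ_ge ht)

theorem Phi_nonneg {t : ℝ} (ht : 0 ≤ t) : 0 ≤ Phi t := le_trans (sq_nonneg _) (Phi_ge ht)

theorem lam_le {d : ℝ} (hd : 0 < d) : Real.log (max 1 (d / 18)) ≤ 1 / 2 * JJ (d / 2) := by
  rcases le_total (d / 18) 1 with h | h
  · rw [max_eq_left h, Real.log_one]
    have := JJ_nonneg (show 0 < d / 2 by linarith)
    linarith
  · rw [max_eq_right h]
    unfold JJ
    have e1 : Real.log (d / 18) = Real.log (d / 2) - Real.log 9 := by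
      rw [← Real.log_div (by positivity) (by norm_num)]
      congr 1
      ring
    have h1 : Real.log (d / 18) ≤ d / 18 - 1 := Real.log_le_sub_one_of_pos (by positivity)
    have h9 : Real.log 9 ≤ 9 - 1 := Real.log_le_sub_one_of_pos (by norm_num)
    linarith

theorem kernel_absorb {a : ℝ} (ha : 0 < a) :
    -Real.log (min 1 (Real.exp 1 * a)) + Real.log a ≤ a - 1 := by
  rcases le_total 1 (Real.exp 1 * a) with h | h
  · rw [min_eq_left h, Real.log_one]
    linarith [Real.log_le_sub_one_of_pos ha]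
  · rw [min_eq_right h, Real.log_mul (Real.exp_pos 1).ne' ha.ne', Real.log_exp]
    linarith

theorem jensen_Phi {ι : Type} (S : Finset ι) (p : ι → ℝ) {κ : ℝ} (hκ : 0 < κ)
    (hp : ∀ y ∈ S, 0 ≤ p y) (hS : ∑ y ∈ S, p y = 1) :
    JJ (κ * (S.card : ℝ)) ≤ ∑ y ∈ S, κ * Phi (p y / κ) := by
  have hne : S.Nonempty := by
    by_contra h
    rw [Finset.not_nonempty_iff_eq_empty] at h
    rw [h] at hS
    simp at hS
  have hc : (0 : ℝ) < S.card := by exact_mod_cast hne.card_pos
  set c : ℝ := (S.card : ℝ) with hcdef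
  have key : ∀ y ∈ S, p y - 1 / c - p y * Real.log (κ * c) - p y + κ ≤ κ * Phi (p y / κ) := by
    intro y hy
    unfold Phi
    have e1 : κ * (p y / κ * Real.log (p y / κ) - p y / κ + 1) =
        p y * Real.log (p y / κ) - p y + κ := by
      field_simp
    rw [e1]
    rcases (hp y hy).eq_or_lt with h0 | hpos
    · rw [← h0]
      simp
      positivity
    · have h1 : Real.log (p y / κ) + Real.log (κ * c) = Real.log (p y * c) := by
        rw [← Real.log_mul (by positivity) (by positivity)]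
        congr 1
        field_simp
      have h2 : Real.log (1 / (p y * c)) ≤ 1 / (p y * c) - 1 :=
        Real.log_le_sub_one_of_pos (by positivity)
      rw [one_div, Real.log_inv] at h2
      have h3 : p y * (-Real.log (p y * c)) ≤ p y * ((p y * c)⁻¹ - 1) :=
        mul_le_mul_of_nonneg_left h2 hpos.le
      have h4 : p y * ((p y * c)⁻¹ - 1) = 1 / c - p y := by
        field_simp
      rw [h4, ← h1] at h3
      nlinarith
  have hsum := Finset.sum_le_sum key
  refine le_trans (le_of_eq ?_) hsum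
  have e : ∀ y, p y - 1 / c - p y * Real.log (κ * c) - p y + κ =
      p y * (-Real.log (κ * c)) + (κ - 1 / c) := by
    intro y; ring
  rw [Finset.sum_congr rfl (fun y _ => e y), Finset.sum_add_distrib, ← Finset.sum_mul, hS,
    Finset.sum_const, nsmul_eq_mul, ← hcdef]
  unfold JJ
  field_simp
  ring

theorem Vf_nonneg (t : ℝ) : 0 ≤ Vf t := by
  unfold Vf
  have : 0 ≤ min (max (9 / 8 - t) 0) (3 / 16) := le_min (le_max_right _ _) (by norm_num)
  linarith

theorem Vf_le (t : ℝ) : Vf t ≤ 3 := by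
  unfold Vf
  have : min (max (9 / 8 - t) 0) (3 / 16) ≤ 3 / 16 := min_le_right _ _
  linarith

theorem Vf_anti {s t : ℝ} (h : s ≤ t) : Vf t ≤ Vf s := by
  unfold Vf
  have : min (max (9 / 8 - t) 0) (3 / 16) ≤ min (max (9 / 8 - s) 0) ((3 : ℝ) / 16) := by
    apply min_le_min _ le_rfl
    apply max_le_max _ le_rfl
    linarith
  linarith

theorem Vf_lip {s t : ℝ} (h : s ≤ t) : Vf s - Vf t ≤ 16 * (t - s) := by
  unfold Vf
  have : min (max (9 / 8 - s) 0) ((3 : ℝ) / 16) ≤ min (max (9 / 8 - t) 0) (3 / 16) + (t - s) := by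
    have h1 : max (9 / 8 - s) 0 ≤ max (9 / 8 - t) 0 + (t - s) := by
      apply max_le
      · linarith [le_max_left (9 / 8 - t) (0 : ℝ)]
      · linarith [le_max_right (9 / 8 - t) (0 : ℝ)]
    rcases le_total (max (9 / 8 - t) 0) ((3 : ℝ) / 16) with h2 | h2
    · rw [min_eq_left h2]
      exact le_trans (min_le_left _ _) h1
    · rw [min_eq_right h2]
      exact le_trans (min_le_right _ _) (by linarith)
  linarith

theorem pot_pointwise {r r' e : ℝ} (hr' : 0 ≤ r') (hrr : r' ≤ r) (he : 0 ≤ e) (he1 : e ≤ 1) :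
    e * (1 - e) ≤ 4 * (if 1 / 16 ≤ |r' - 1| then e else 0) + ((1 - e) * Vf r' - Vf r) +
      4 * (if r - r' < 3 / 4 * e then e else 0) := by
  have hV0 := Vf_nonneg r
  have hV0' := Vf_nonneg r'
  have hV3 := Vf_le r'
  have hVa := Vf_anti hrr
  have hi1 : 0 ≤ (if 1 / 16 ≤ |r' - 1| then e else 0) := by split_ifs <;> linarith
  have hi2 : 0 ≤ (if r - r' < 3 / 4 * e then e else 0) := by split_ifs <;> linarith
  by_cases hA : 1 / 16 ≤ |r' - 1|
  · rw [if_pos hA]
    nlinarith
  · by_cases hB : r - r' < 3 / 4 * e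
    · rw [if_pos hB]
      nlinarith
    · rw [if_neg hA, if_neg hB]
      push Not at hA hB
      have habs := abs_lt.mp hA
      have hVr' : Vf r' = 16 * (9 / 8 - r') := by
        unfold Vf
        rw [max_eq_left (by linarith), min_eq_left (by linarith)]
      rcases le_total r (9 / 8) with hr | hr
      · have hVr : Vf r = 16 * (9 / 8 - r) := by
          unfold Vf
          rw [max_eq_left (by linarith), min_eq_left (by linarith)]
        rw [hVr]
        rw [hVr'] at hV3 ⊢
        nlinarith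
      · have hVr : Vf r = 0 := by
          unfold Vf
          rw [max_eq_right (by linarith), min_eq_left (by norm_num), mul_zero]
        rw [hVr]
        rw [hVr']
        nlinarith

end Pool.Agent.ICyc
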