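import Pool.Agent.Lib.MP_131fce_co.Basic
import Pool.Agent.Lib.MP_131fce_co.Cond
import Pool.Agent.Lib.MP_131fce_co.RealIneq

/-! # IC-5: deficits -/

set_option autoImplicit false

namespace Pool.Agent.ICyc

open Finset
open scoped Classical

variable {V : Type} [Fintype V] {G : SimpleGraph V} {k : ℕ} [NeZero k]

theorem kap_pos_of_fun (x : ZMod k → V) : 0 < kap V k := by
  haveI : Nonempty V := ⟨x 0⟩
  exact kap_pos

theorem term_nonneg (l : ℕ) (x : ZMod k → V) (y : V) :
    0 ≤ kap V k * Phi (pr G k l x y / kap V k) := by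
  have h0 : 0 ≤ kap V k := kap_nonneg
  refine mul_nonneg h0 (le_trans (sq_nonneg _) (Phi_ge (div_nonneg (pr_nonneg l x y) h0)))

theorem cc_nonneg (l : ℕ) : 0 ≤ cc G k l := by
  unfold cc
  exact sum_nonneg fun x _ => sum_nonneg fun y _ => term_nonneg l x y

theorem low_density (hk : 5 ≤ k) {l : ℕ} (hl : l + 3 ≤ k) :
    ∑ x ∈ Cyc G k, mu k ((F G k l x).filter (fun y => pr G k l x y < kap V k / 2)) ≤
      12 * cc G k l := by
  unfold cc
  rw [mul_sum]
  refine sum_le_sum fun x _ => ?_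
  have hκ := kap_pos_of_fun (k := k) x
  rw [mu_eq_sum, mul_sum]
  refine le_trans (sum_le_sum (g := fun y => 12 * (kap V k * Phi (pr G k l x y / kap V k)))
    fun y hy => ?_) ?_
  · have h1 : pr G k l x y / kap V k ≤ 1 / 2 := by
      rw [div_le_iff₀ hκ]
      linarith [(mem_filter.1 hy).2]
    have h2 := Phi_half (div_nonneg (pr_nonneg (G := G) l x y) hκ.le) h1
    nlinarith
  · exact sum_le_sum_of_subset_of_nonneg (filter_subset _ _) fun y _ _ =>
      mul_nonneg (by norm_num) (term_nonneg l x y)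

theorem high_density_aux {a b : ℝ} (hb : 0 ≤ b)
    (h : ∀ t : ℝ, a ≤ t → t ≤ b * Phi t) (l : ℕ) :
    ∑ x ∈ Cyc G k, ∑ y ∈ (F G k l x).filter (fun y => a * kap V k < pr G k l x y),
      pr G k l x y ≤ b * cc G k l := by
  unfold cc
  rw [mul_sum]
  refine sum_le_sum fun x _ => ?_
  have hκ := kap_pos_of_fun (k := k) x
  rw [mul_sum]
  refine le_trans (sum_le_sum (g := fun y => b * (kap V k * Phi (pr G k l x y / kap V k)))
    fun y hy => ?_) ?_
  · have h1 : a ≤ pr G k l x y / kap V k := by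
      rw [le_div_iff₀ hκ]
      exact (mem_filter.1 hy).2.le
    have h2 := h _ h1
    have h3 : pr G k l x y = kap V k * (pr G k l x y / kap V k) := by
      field_simp
    calc pr G k l x y = kap V k * (pr G k l x y / kap V k) := h3
      _ ≤ kap V k * (b * Phi (pr G k l x y / kap V k)) := mul_le_mul_of_nonneg_left h2 hκ.le
      _ = b * (kap V k * Phi (pr G k l x y / kap V k)) := by ring
  · exact sum_le_sum_of_subset_of_nonneg (filter_subset _ _) fun y _ _ =>
      mul_nonneg hb (term_nonneg l x y)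

theorem high_density (hk : 5 ≤ k) {l : ℕ} (hl : l + 3 ≤ k) :
    ∑ x ∈ Cyc G k, ∑ y ∈ (F G k l x).filter (fun y => 2 * kap V k < pr G k l x y),
      pr G k l x y ≤ 12 * cc G k l :=
  high_density_aux (by norm_num) (fun _ h => Phi_two h) l

theorem high_density' (hk : 5 ≤ k) {l : ℕ} (hl : l + 3 ≤ k) :
    ∑ x ∈ Cyc G k, ∑ y ∈ (F G k l x).filter (fun y => 9 / 8 * kap V k < pr G k l x y),
      pr G k l x y ≤ 310 * cc G k l :=
  high_density_aux (by norm_num) (fun _ h => Phi_nine_eighths h) l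

theorem mu_F_pos (hk : 5 ≤ k) {l : ℕ} (hl : l + 3 ≤ k) {x : ZMod k → V} (hx : x ∈ Cyc G k) :
    0 < mu k (F G k l x) := by
  have hκ := kap_pos_of_fun (k := k) x
  unfold mu
  have h1 : 0 < (F G k l x).card := card_pos.2 ⟨_, mem_F_succ hk hx hl⟩
  positivity

theorem cc_ge_JJ_aux (hk : 5 ≤ k) {l : ℕ} (hl : l + 3 ≤ k) {x : ZMod k → V}
    (hx : x ∈ Cyc G k) :
    JJ (mu k (F G k l x)) ≤ ∑ y ∈ F G k l x, kap V k * Phi (pr G k l x y / kap V k) := by
  have hκ := kap_pos_of_fun (k := k) x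
  exact jensen_Phi (F G k l x) (fun y => pr G k l x y) hκ (fun y _ => pr_nonneg l x y)
    (sum_pr_F hk hl hx)

theorem cc_ge_JJ (hk : 5 ≤ k) {l : ℕ} (hl : l + 3 ≤ k) :
    ∑ x ∈ Cyc G k, JJ (mu k (F G k l x)) ≤ cc G k l := by
  unfold cc
  exact sum_le_sum fun x hx => cc_ge_JJ_aux hk hl hx

theorem mass_dev (hk : 5 ≤ k) {l : ℕ} (hl : l + 3 ≤ k) :
    ∑ x ∈ Cyc G k, (if 1 / 16 ≤ |mu k (F G k l x) - 1| then (1 : ℝ) else 0) ≤
      1100 * cc G k l := by
  refine le_trans ?_ (mul_le_mul_of_nonneg_left (cc_ge_JJ hk hl) (by norm_num))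
  rw [mul_sum]
  refine sum_le_sum fun x hx => ?_
  have hpos := mu_F_pos hk hl hx
  split_ifs with h
  · exact JJ_dev hpos h
  · exact mul_nonneg (by norm_num) (le_trans (sq_nonneg _) (JJ_ge hpos))

theorem mass_two (hk : 5 ≤ k) {l : ℕ} (hl : l + 3 ≤ k) :
    ∑ x ∈ Cyc G k, (if 2 < mu k (F G k l x) then mu k (F G k l x) else 0) ≤
      12 * cc G k l := by
  refine le_trans ?_ (mul_le_mul_of_nonneg_left (cc_ge_JJ hk hl) (by norm_num))
  rw [mul_sum]
  refine sum_le_sum fun x hx => ?_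
  have hpos := mu_F_pos hk hl hx
  split_ifs with h
  · exact JJ_two h
  · exact mul_nonneg (by norm_num) (le_trans (sq_nonneg _) (JJ_ge hpos))

theorem cc_eq (hk : 5 ≤ k) {l : ℕ} (hl : l + 3 ≤ k) :
    cc G k l = Fm G k l - NN G k - Hn G k l := by
  have htow := tower (G := G) (k := k) l
    (fun x y => Real.log (pr G k l x y / kap V k))
    (fun x _ x' hx' y => by
      show Real.log (pr G k l x' y / kap V k) = Real.log (pr G k l x y / kap V k)
      rw [pr_congr hx' y])
  have h1 : Hn G k l = -∑ x ∈ Cyc G k, ∑ y : V,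
      pr G k l x y * Real.log (pr G k l x y / kap V k) := by
    rw [← htow]
    unfold Hn
    rw [sum_neg_distrib]
  have h2 : ∀ x ∈ Cyc G k, ∑ y ∈ F G k l x, kap V k * Phi (pr G k l x y / kap V k) =
      ∑ y : V, pr G k l x y * Real.log (pr G k l x y / kap V k) - 1 + mu k (F G k l x) := by
    intro x hx
    have hκ := kap_pos_of_fun (k := k) x
    have h3 : ∑ y : V, pr G k l x y * Real.log (pr G k l x y / kap V k) =
        ∑ y ∈ F G k l x, pr G k l x y * Real.log (pr G k l x y / kap V k) := by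
      symm
      apply sum_subset (subset_univ _)
      intro y _ hy
      rw [pr_eq_zero hk hl hy, zero_mul]
    rw [h3, ← sum_pr_F hk hl hx, mu_eq_sum, ← sum_sub_distrib, ← sum_add_distrib]
    refine sum_congr rfl fun y _ => ?_
    unfold Phi
    have h4 : kap V k * (pr G k l x y / kap V k) = pr G k l x y := by field_simp
    calc kap V k * (pr G k l x y / kap V k * Real.log (pr G k l x y / kap V k) -
          pr G k l x y / kap V k + 1)
        = (kap V k * (pr G k l x y / kap V k)) * Real.log (pr G k l x y / kap V k) -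
          kap V k * (pr G k l x y / kap V k) + kap V k := by ring
      _ = _ := by rw [h4]
  have h5 : cc G k l = ∑ x ∈ Cyc G k,
      (∑ y : V, pr G k l x y * Real.log (pr G k l x y / kap V k) - 1 + mu k (F G k l x)) := by
    unfold cc
    exact sum_congr rfl h2
  rw [h5, h1, sum_add_distrib, sum_sub_distrib]
  unfold Fm NN
  simp only [sum_const, nsmul_eq_mul, mul_one]
  ring

end Pool.Agent.ICyc
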