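import Pool.Agent.Lib.MP_131fce_co.Basic

/-!
# Induced k-cycles in triangle-free graphs (MP_131fce_co): rotation, reflection, swap
-/

set_option autoImplicit false

namespace Pool.Agent.ICyc

open Finset
open scoped Classical

noncomputable section

variable {V : Type} [Fintype V] {G : SimpleGraph V} {k : ℕ} [NeZero k]

theorem rot_mem_Cyc (a : ZMod k) {x : ZMod k → V} (hx : x ∈ Cyc G k) :
    (fun i => x (i + a)) ∈ Cyc G k := by
  rw [bas_mem_Cyc] at hx ⊢
  intro i j
  rw [hx (i + a) (j + a)]
  constructor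
  · rintro (h | h)
    · left; linear_combination h
    · right; linear_combination h
  · rintro (h | h)
    · left; linear_combination h
    · right; linear_combination h

theorem refl_mem_Cyc {x : ZMod k → V} (hx : x ∈ Cyc G k) :
    (fun i => x (-i)) ∈ Cyc G k := by
  rw [bas_mem_Cyc] at hx ⊢
  intro i j
  rw [hx (-i) (-j)]
  constructor
  · rintro (h | h)
    · right; linear_combination h
    · left; linear_combination h
  · rintro (h | h)
    · right; linear_combination h
    · left; linear_combination h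

theorem sum_rot (a : ZMod k) (f : (ZMod k → V) → ℝ) :
    ∑ x ∈ Cyc G k, f (fun i => x (i + a)) = ∑ x ∈ Cyc G k, f x := by
  refine Finset.sum_nbij' (fun x i => x (i + a)) (fun x i => x (i + -a))
    (fun x hx => rot_mem_Cyc a hx) (fun x hx => rot_mem_Cyc (-a) hx) ?_ ?_ (fun x _ => rfl)
  · intro x _
    funext i
    simp
  · intro x _
    funext i
    simp

theorem sum_refl (f : (ZMod k → V) → ℝ) :
    ∑ x ∈ Cyc G k, f (fun i => x (-i)) = ∑ x ∈ Cyc G k, f x := by
  refine Finset.sum_nbij' (fun x i => x (-i)) (fun x i => x (-i))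
    (fun x hx => refl_mem_Cyc hx) (fun x hx => refl_mem_Cyc hx) ?_ ?_ (fun x _ => rfl)
  · intro x _
    funext i
    simp
  · intro x _
    funext i
    simp

theorem mem_Ty_rot (a : ZMod k) (x : ZMod k → V) (w : V) (i : ZMod k) :
    i ∈ Ty G k (fun i => x (i + a)) w ↔ i + a ∈ Ty G k x w := by
  simp [Ty]

theorem rot_one_ne_zero (hk : 5 ≤ k) : (1 : ZMod k) ≠ 0 := by
  have h := (bas_cast_eq_iff (k := k) (i := 1) (j := 0) (by omega) (by omega)).not
  simpa using h.2 (by omega)

theorem rot_adj_of_mem_T {x : ZMod k → V} {j : ZMod k} {v : V} (hv : v ∈ T G k j x)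
    (i : ZMod k) : G.Adj (x i) v ↔ (i = j - 1 ∨ i = j + 1) := by
  have h : Ty G k x v = {j - 1, j + 1} := by simpa [T] using hv
  have h2 : i ∈ Ty G k x v ↔ i ∈ ({j - 1, j + 1} : Finset (ZMod k)) := by rw [h]
  simpa [Ty] using h2

theorem update_mem_Cyc (hk : 5 ≤ k) {x : ZMod k → V} (hx : x ∈ Cyc G k) {j : ZMod k} {v : V}
    (hv : v ∈ T G k j x) : Function.update x j v ∈ Cyc G k := by
  have hx' : IsCyc G k x := bas_mem_Cyc.1 hx
  have h1 := rot_one_ne_zero (k := k) hk
  rw [bas_mem_Cyc]
  intro i i'
  have key : ∀ a : ZMod k, (a = j - 1 ∨ a = j + 1) ↔ (a = j + 1 ∨ j = a + 1) := by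
    intro a
    constructor
    · rintro (h | h)
      · right; rw [h]; ring
      · left; exact h
    · rintro (h | h)
      · right; exact h
      · left; rw [h]; ring
  by_cases hi : i = j
  · by_cases hi' : i' = j
    · subst hi; subst hi'
      simp [h1]
    · subst hi
      rw [Function.update_self, Function.update_of_ne hi', G.adj_comm, rot_adj_of_mem_T hv, key]
  · by_cases hi' : i' = j
    · subst hi'
      rw [Function.update_self, Function.update_of_ne hi, rot_adj_of_mem_T hv, key]
      exact or_comm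
    · rw [Function.update_of_ne hi, Function.update_of_ne hi']
      exact hx' i i'

theorem self_mem_T (_hk : 5 ≤ k) {x : ZMod k → V} (hx : x ∈ Cyc G k) (j : ZMod k) :
    x j ∈ T G k j x := by
  have hx' : IsCyc G k x := bas_mem_Cyc.1 hx
  simp only [T, Ty, mem_filter, mem_univ, true_and]
  ext i
  simp only [mem_filter, mem_univ, true_and, mem_insert, mem_singleton]
  rw [hx' i j]
  constructor
  · rintro (h | h)
    · left; rw [h]; ring
    · right; exact h
  · rintro (h | h)
    · left; rw [h]; ring
    · right; exact h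

theorem T_update (hk : 5 ≤ k) {x : ZMod k → V} (hx : x ∈ Cyc G k) {j : ZMod k} {v : V}
    (hv : v ∈ T G k j x) (tf : ∀ a b c : V, G.Adj a b → G.Adj b c → ¬ G.Adj a c) :
    T G k j (Function.update x j v) = T G k j x := by
  have hx' : IsCyc G k x := bas_mem_Cyc.1 hx
  have h1 := rot_one_ne_zero (k := k) hk
  have hj : j - 1 ≠ j := by
    intro h
    apply h1
    linear_combination (-1 : ZMod k) * h
  have hj1 : G.Adj (x (j - 1)) v := (rot_adj_of_mem_T hv _).2 (Or.inl rfl)
  have hj2 : G.Adj (x (j - 1)) (x j) := (hx' _ _).2 (Or.inl (by ring))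
  ext w
  constructor
  · intro hw
    have h2 := rot_adj_of_mem_T hw
    have h3 : G.Adj (x (j - 1)) w := by
      have := (h2 (j - 1)).2 (Or.inl rfl)
      rwa [Function.update_of_ne hj] at this
    simp only [T, Ty, mem_filter, mem_univ, true_and]
    ext i
    simp only [mem_filter, mem_univ, true_and, mem_insert, mem_singleton]
    by_cases hi : i = j
    · subst hi
      have h4 : ¬ G.Adj (x i) w := fun h => tf _ _ _ h3.symm hj2 h.symm
      have h5 : ¬ (i = i - 1 ∨ i = i + 1) := by
        rintro (h | h)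
        · exact hj h.symm
        · apply h1; linear_combination (-1 : ZMod k) * h
      exact ⟨fun h => absurd h h4, fun h => absurd h h5⟩
    · have := h2 i
      rwa [Function.update_of_ne hi] at this
  · intro hw
    have h2 := rot_adj_of_mem_T hw
    have h3 : G.Adj (x (j - 1)) w := (h2 (j - 1)).2 (Or.inl rfl)
    simp only [T, Ty, mem_filter, mem_univ, true_and]
    ext i
    simp only [mem_filter, mem_univ, true_and, mem_insert, mem_singleton]
    by_cases hi : i = j
    · subst hi
      rw [Function.update_self]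
      have h4 : ¬ G.Adj v w := fun h => tf _ _ _ h3.symm hj1 h.symm
      have h5 : ¬ (i = i - 1 ∨ i = i + 1) := by
        rintro (h | h)
        · exact hj h.symm
        · apply h1; linear_combination (-1 : ZMod k) * h
      exact ⟨fun h => absurd h h4, fun h => absurd h h5⟩
    · rw [Function.update_of_ne hi]
      exact h2 i

theorem sum_swap (hk : 5 ≤ k) (tf : ∀ a b c : V, G.Adj a b → G.Adj b c → ¬ G.Adj a c)
    (j : ZMod k) (f : (ZMod k → V) → V → ℝ) :
    ∑ x ∈ Cyc G k, ∑ v ∈ T G k j x, f (Function.update x j v) (x j) =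
      ∑ x ∈ Cyc G k, ∑ v ∈ T G k j x, f x v := by
  rw [Finset.sum_sigma', Finset.sum_sigma']
  have hmap : ∀ p ∈ (Cyc G k).sigma (fun x => T G k j x),
      (⟨Function.update p.1 j p.2, p.1 j⟩ : (_ : ZMod k → V) × V) ∈
        (Cyc G k).sigma (fun x => T G k j x) := by
    rintro ⟨x, v⟩ hp
    rw [Finset.mem_sigma] at hp ⊢
    refine ⟨update_mem_Cyc hk hp.1 hp.2, ?_⟩
    rw [T_update hk hp.1 hp.2 tf]
    exact self_mem_T hk hp.1 j
  have hinv : ∀ p ∈ (Cyc G k).sigma (fun x => T G k j x),
      (⟨Function.update (Function.update p.1 j p.2) j (p.1 j),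
        Function.update p.1 j p.2 j⟩ : (_ : ZMod k → V) × V) = p := by
    rintro ⟨x, v⟩ _
    simp
  exact Finset.sum_nbij'
    (fun p : (_ : ZMod k → V) × V => (⟨Function.update p.1 j p.2, p.1 j⟩ : (_ : ZMod k → V) × V))
    (fun p : (_ : ZMod k → V) × V => (⟨Function.update p.1 j p.2, p.1 j⟩ : (_ : ZMod k → V) × V))
    hmap hmap hinv hinv (fun p _ => rfl)

end

end Pool.Agent.ICyc
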