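import Pool.Agent.Lib.MP_131fce_co.Basic
import Pool.Agent.Lib.MP_131fce_co.Rot
import Pool.Agent.Lib.MP_131fce_co.Cond
import Pool.Agent.Lib.MP_131fce_co.RealIneq
import Pool.Agent.Lib.MP_131fce_co.Deficit

/-! MP_131fce_co, module IC-7: closing of the potential. -/

set_option autoImplicit false

namespace Pool.Agent.ICyc

open Finset
open scoped Classical

variable {V : Type} [Fintype V] {G : SimpleGraph V} {k : ℕ} [NeZero k]

/-- types of vertices of `W (k-3)` -/
theorem closing_types (hk : 20 ≤ k) (tf : ∀ a b c : V, G.Adj a b → G.Adj b c → ¬ G.Adj a c)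
    {x : ZMod k → V} (hx : x ∈ Cyc G k) {y : V} (hy : y ∈ W G k (k - 3) x)
    (hT : y ∉ T G k ((k - 2 : ℕ) : ZMod k) x) :
    Ty G k x y = ∅ ∨ Ty G k x y = {((k - 3 : ℕ) : ZMod k)} ∨
      Ty G k x y = {((k - 3 : ℕ) : ZMod k) + 1} ∨ Ty G k x y = {((k - 3 : ℕ) : ZMod k) + 2} := by
  have h1 : ((k - 2 : ℕ) : ZMod k) = ((k - 3 : ℕ) : ZMod k) + 1 := by
    have : k - 2 = (k - 3) + 1 := by omega
    rw [this]; push_cast; ring
  have h2 : ((k - 1 : ℕ) : ZMod k) = ((k - 3 : ℕ) : ZMod k) + 2 := by
    have : k - 1 = (k - 3) + 2 := by omega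
    rw [this]; push_cast; ring
  generalize ha : ((k - 3 : ℕ) : ZMod k) = a at *
  have hsub : ∀ i ∈ Ty G k x y, i = a ∨ i = a + 1 ∨ i = a + 2 := by
    intro i hi
    have hv : i.val < k := ZMod.val_lt i
    have hi' : ((i.val : ℕ) : ZMod k) = i := by simp
    have hge : k - 3 ≤ i.val := by
      by_contra hlt
      push Not at hlt
      have := (Finset.mem_filter.mp hy).2 i.val hlt
      rw [hi'] at this
      exact this (Finset.mem_filter.mp hi).2
    have hc : i.val = k - 3 ∨ i.val = k - 2 ∨ i.val = k - 1 := by omega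
    rcases hc with hc | hc | hc
    · left; rw [← hi', hc, ha]
    · right; left; rw [← hi', hc, h1]
    · right; right; rw [← hi', hc, h2]
  have e12 : a + 1 + 1 = a + 2 := by ring
  by_cases A0 : a ∈ Ty G k x y
  · have A1 : a + 1 ∉ Ty G k x y := Ty_indep tf hx A0
    have A2 : a + 2 ∉ Ty G k x y := by
      intro A2
      apply hT
      simp only [T, Finset.mem_filter, Finset.mem_univ, true_and]
      rw [h1]
      ext i
      simp only [Finset.mem_insert, Finset.mem_singleton]
      constructor
      · intro hi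
        rcases hsub i hi with h | h | h
        · left; rw [h]; ring
        · exact absurd (h ▸ hi) A1
        · right; rw [h]; ring
      · rintro (h | h)
        · rw [h]; have : a + 1 - 1 = a := by ring
          rw [this]; exact A0
        · rw [h, e12]; exact A2
    right; left
    ext i
    simp only [Finset.mem_singleton]
    constructor
    · intro hi
      rcases hsub i hi with h | h | h
      · exact h
      · exact absurd (h ▸ hi) A1
      · exact absurd (h ▸ hi) A2
    · intro h; rw [h]; exact A0
  · by_cases A1 : a + 1 ∈ Ty G k x y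
    · have A2 : a + 2 ∉ Ty G k x y := by
        have := Ty_indep tf hx A1
        rwa [e12] at this
      right; right; left
      ext i
      simp only [Finset.mem_singleton]
      constructor
      · intro hi
        rcases hsub i hi with h | h | h
        · exact absurd (h ▸ hi) A0
        · exact h
        · exact absurd (h ▸ hi) A2
      · intro h; rw [h]; exact A1
    · by_cases A2 : a + 2 ∈ Ty G k x y
      · right; right; right
        ext i
        simp only [Finset.mem_singleton]
        constructor
        · intro hi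
          rcases hsub i hi with h | h | h
          · exact absurd (h ▸ hi) A0
          · exact absurd (h ▸ hi) A1
          · exact h
        · intro h; rw [h]; exact A2
      · left
        ext i
        simp only [Finset.notMem_empty, iff_false]
        intro hi
        rcases hsub i hi with h | h | h
        · exact absurd (h ▸ hi) A0
        · exact absurd (h ▸ hi) A1
        · exact absurd (h ▸ hi) A2

/-- rotation invariance of the mass of singleton types -/
theorem single_rot (i a : ZMod k) :
    ∑ x ∈ Cyc G k, ∑ y : V, (if Ty G k x y = {i + a} then kap V k else 0) =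
      ∑ x ∈ Cyc G k, ∑ y : V, (if Ty G k x y = {i} then kap V k else 0) := by
  rw [← sum_rot a (fun x => ∑ y : V, (if Ty G k x y = {i} then kap V k else 0))]
  refine Finset.sum_congr rfl fun x _ => Finset.sum_congr rfl fun y _ => ?_
  have : (Ty G k x y = {i + a}) ↔ (Ty G k (fun i => x (i + a)) y = {i}) := by
    constructor
    · intro h
      ext j
      rw [mem_Ty_rot, h]
      simp
    · intro h
      ext j
      have := mem_Ty_rot (G := G) a x y (j - a)
      rw [h] at this
      simp only [Finset.mem_singleton, sub_add_cancel] at this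
      rw [← this]
      simp only [Finset.mem_singleton]
      constructor
      · intro h; rw [← h]; ring
      · intro h; rw [h]; ring
  by_cases h : Ty G k x y = {i + a}
  · rw [if_pos h, if_pos (this.mp h)]
  · rw [if_neg h, if_neg (fun h' => h (this.mpr h'))]

theorem single_eq (i : ZMod k) :
    (k : ℝ) * ∑ x ∈ Cyc G k, ∑ y : V, (if Ty G k x y = {i} then kap V k else 0) =
      ∑ x ∈ Cyc G k, ∑ y : V, (if (Ty G k x y).card = 1 then kap V k else 0) := by
  have h1 : ∀ j : ZMod k, ∑ x ∈ Cyc G k, ∑ y : V, (if Ty G k x y = {j} then kap V k else 0) =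
      ∑ x ∈ Cyc G k, ∑ y : V, (if Ty G k x y = {i} then kap V k else 0) := by
    intro j
    have := single_rot (G := G) (V := V) i (j - i)
    rw [show i + (j - i) = j by ring] at this
    exact this
  have h2 : (k : ℝ) * ∑ x ∈ Cyc G k, ∑ y : V, (if Ty G k x y = {i} then kap V k else 0) =
      ∑ j : ZMod k, ∑ x ∈ Cyc G k, ∑ y : V, (if Ty G k x y = {j} then kap V k else 0) := by
    rw [Finset.sum_congr rfl (fun j _ => h1 j), Finset.sum_const, Finset.card_univ, ZMod.card,
      nsmul_eq_mul]
  rw [h2, Finset.sum_comm]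
  refine Finset.sum_congr rfl fun x _ => ?_
  rw [Finset.sum_comm]
  refine Finset.sum_congr rfl fun y _ => ?_
  by_cases h : (Ty G k x y).card = 1
  · rw [if_pos h]
    obtain ⟨j, hj⟩ := Finset.card_eq_one.mp h
    rw [Finset.sum_eq_single j]
    · rw [if_pos hj]
    · intro b _ hb
      rw [if_neg]
      rw [hj]
      intro h'
      exact hb (Finset.singleton_inj.mp h').symm
    · intro h'; exact absurd (Finset.mem_univ j) h'
  · rw [if_neg h]
    refine Finset.sum_eq_zero fun j _ => ?_
    rw [if_neg]
    intro h'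
    exact h (by rw [h']; simp)

/-- the cost of the empty and singleton types -/
theorem XX_ge (hk : 20 ≤ k) (i : ZMod k) :
    3 * ∑ x ∈ Cyc G k, ∑ y : V, (if Ty G k x y = ∅ then kap V k else 0) +
      9 * ∑ x ∈ Cyc G k, ∑ y : V, (if Ty G k x y = {i} then kap V k else 0) ≤ 10 * XX G k := by
  have hk0 : (0 : ℝ) < k := by
    have : 0 < k := by omega
    exact_mod_cast this
  have hk20 : (20 : ℝ) ≤ k := by exact_mod_cast hk
  have hE := single_eq (G := G) (V := V) i
  set S0 := ∑ x ∈ Cyc G k, ∑ y : V, (if Ty G k x y = ∅ then kap V k else 0) with hS0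
  set S1 := ∑ x ∈ Cyc G k, ∑ y : V, (if Ty G k x y = {i} then kap V k else 0) with hS1
  have hkap : (0 : ℝ) ≤ kap V k := kap_nonneg
  have hS0n : 0 ≤ S0 := by
    refine Finset.sum_nonneg fun x _ => Finset.sum_nonneg fun y _ => ?_
    split_ifs <;> simp [hkap]
  have hS1n : 0 ≤ S1 := by
    refine Finset.sum_nonneg fun x _ => Finset.sum_nonneg fun y _ => ?_
    split_ifs <;> simp [hkap]
  have key : ((k : ℝ) - 1) * S0 + 3 / 2 * ((k : ℝ) * S1) ≤
      ∑ x ∈ Cyc G k, ∑ w : V, kap V k * rr k (Ty G k x w) := by
    rw [hE, hS0, Finset.mul_sum, Finset.mul_sum, ← Finset.sum_add_distrib]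
    refine Finset.sum_le_sum fun x _ => ?_
    rw [Finset.mul_sum, Finset.mul_sum, ← Finset.sum_add_distrib]
    refine Finset.sum_le_sum fun y _ => ?_
    unfold rr
    by_cases h0 : (Ty G k x y).card = 0
    · have h0' : Ty G k x y = ∅ := Finset.card_eq_zero.mp h0
      have h1 : ¬ (Ty G k x y).card = 1 := by omega
      rw [if_pos h0', if_neg h1, if_pos h0]
      linarith
    · have h0' : ¬ Ty G k x y = ∅ := fun h => h0 (by rw [h]; simp)
      rw [if_neg h0', if_neg h0]
      by_cases h1 : (Ty G k x y).card = 1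
      · rw [if_pos h1, if_pos h1]; linarith
      · rw [if_neg h1, if_neg h1]
        have h2 : 2 ≤ (Ty G k x y).card := by omega
        have h2' : (2 : ℝ) ≤ ((Ty G k x y).card : ℝ) := by exact_mod_cast h2
        have : 0 ≤ kap V k * (((Ty G k x y).card : ℝ) / 2 - 1) :=
          mul_nonneg hkap (by linarith)
        linarith
  have hXX : (k : ℝ) * XX G k = ∑ x ∈ Cyc G k, ∑ w : V, kap V k * rr k (Ty G k x w) := by
    unfold XX
    field_simp
  rw [← hXX] at key
  have : (k : ℝ) * (3 * S0 + 9 * S1) ≤ (k : ℝ) * (10 * XX G k) := by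
    nlinarith
  exact le_of_mul_le_mul_left this hk0

/-- mass of the neighbours of `y` in `F l` against the hazard -/
theorem mass_le_hazard {l : ℕ} (x : ZMod k → V) (y : V) :
    mu k ((F G k l x).filter (fun z => G.Adj y z)) ≤ 2 * ee G k l x y +
      mu k ((F G k l x).filter (fun z => pr G k l x z < kap V k / 2)) := by
  rw [mu_eq_sum, mu_eq_sum]
  unfold ee
  have h1 : ∑ _w ∈ (F G k l x).filter (fun z => G.Adj y z), kap V k ≤
      ∑ z ∈ (F G k l x).filter (fun z => G.Adj y z),
        (2 * pr G k l x z + if pr G k l x z < kap V k / 2 then kap V k else 0) := by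
    refine Finset.sum_le_sum fun z _ => ?_
    have := pr_nonneg (G := G) l x z
    split_ifs with h
    · linarith
    · push Not at h; linarith
  refine h1.trans ?_
  rw [Finset.sum_add_distrib]
  have hkap : (0 : ℝ) ≤ kap V k := kap_nonneg
  have h2 : ∑ z ∈ (F G k l x).filter (fun z => G.Adj y z), 2 * pr G k l x z ≤
      2 * ∑ z ∈ nb G y, pr G k l x z := by
    rw [← Finset.mul_sum]
    refine mul_le_mul_of_nonneg_left ?_ (by norm_num)
    refine Finset.sum_le_sum_of_subset_of_nonneg ?_ fun z _ _ => pr_nonneg l x z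
    intro z hz
    simp only [nb, Finset.mem_filter, Finset.mem_univ, true_and]
    exact (Finset.mem_filter.mp hz).2
  have h3 : ∑ z ∈ (F G k l x).filter (fun z => G.Adj y z),
      (if pr G k l x z < kap V k / 2 then kap V k else 0) ≤
      ∑ _w ∈ (F G k l x).filter (fun z => pr G k l x z < kap V k / 2), kap V k := by
    rw [← Finset.sum_filter, Finset.filter_filter]
    refine Finset.sum_le_sum_of_subset_of_nonneg ?_ fun _ _ _ => hkap
    intro z hz
    simp only [Finset.mem_filter] at hz ⊢
    exact ⟨hz.1, hz.2.2⟩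
  linarith

/-- telescoping of the free degree -/
theorem rho_telescope (x : ZMod k → V) (y : V) {a b : ℕ} (hab : a ≤ b) :
    rho G k a x y - rho G k b x y =
      ∑ l ∈ Ico a b, mu k ((F G k l x).filter (fun z => G.Adj y z)) := by
  induction b, hab using Nat.le_induction with
  | base => simp
  | succ b hab ih =>
    rw [Finset.sum_Ico_succ_top hab, ← ih, ← rho_sub]
    ring

theorem closing (hk : 20 ≤ k) (tf : ∀ a b c : V, G.Adj a b → G.Adj b c → ¬ G.Adj a c) :
    PP G k (k - 4) - PP G k 2 ≤ 10 * XX G k + 36 * cc G k (k - 3) +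
      16 * (4 * ∑ l ∈ Icc 2 (k - 5), ze G k l + 24 * ∑ l ∈ Icc 2 (k - 5), cc G k l) := by
  have hkap : (0 : ℝ) ≤ kap V k := kap_nonneg
  have hk5 : 5 ≤ k := by omega
  set J : ZMod k := ((k - 2 : ℕ) : ZMod k) with hJ
  set D : (ZMod k → V) → V → ℝ :=
    fun x y => Vf (rho G k (k - 4) x y) - Vf (rho G k 2 x y) with hD
  have hrho : ∀ x y, rho G k 2 x y - rho G k (k - 4) x y =
      ∑ l ∈ Icc 2 (k - 5), mu k ((F G k l x).filter (fun z => G.Adj y z)) := by
    intro x y
    rw [rho_telescope x y (by omega : 2 ≤ k - 4)]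
    refine Finset.sum_congr ?_ fun _ _ => rfl
    ext l
    simp only [Finset.mem_Ico, Finset.mem_Icc]
    omega
  have hmono : ∀ x y, rho G k (k - 4) x y ≤ rho G k 2 x y := by
    intro x y
    have := hrho x y
    have h2 : 0 ≤ ∑ l ∈ Icc 2 (k - 5), mu k ((F G k l x).filter (fun z => G.Adj y z)) :=
      Finset.sum_nonneg fun l _ => mu_nonneg _
    linarith
  have hD0 : ∀ x y, 0 ≤ D x y := by
    intro x y
    have := Vf_anti (hmono x y)
    simp only [hD]; linarith
  have hD3 : ∀ x y, D x y ≤ 3 := by
    intro x y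
    have h1 := Vf_le (rho G k (k - 4) x y)
    have h2 := Vf_nonneg (rho G k 2 x y)
    simp only [hD]; linarith
  have hDl : ∀ x y, D x y ≤ 16 * ∑ l ∈ Icc 2 (k - 5), mu k ((F G k l x).filter (fun z => G.Adj y z)) := by
    intro x y
    have := Vf_lip (hmono x y)
    rw [hrho] at this
    exact this
  -- step 1
  have step1 : PP G k (k - 4) - PP G k 2 ≤
      ∑ x ∈ Cyc G k, ∑ y ∈ W G k (k - 3) x, kap V k * D x y := by
    have e1 : PP G k (k - 4) = ∑ x ∈ Cyc G k, ∑ y ∈ W G k (k - 3) x,
        kap V k * Vf (rho G k (k - 4) x y) := by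
      unfold PP
      rw [show k - 4 + 1 = k - 3 by omega]
    have e2 : ∑ x ∈ Cyc G k, ∑ y ∈ W G k (k - 3) x, kap V k * Vf (rho G k 2 x y) ≤
        PP G k 2 := by
      unfold PP
      refine Finset.sum_le_sum fun x _ => ?_
      refine Finset.sum_le_sum_of_subset_of_nonneg (W_anti (by omega) x) fun y _ _ => ?_
      exact mul_nonneg hkap (Vf_nonneg _)
    have e3 : ∑ x ∈ Cyc G k, ∑ y ∈ W G k (k - 3) x, kap V k * D x y =
        ∑ x ∈ Cyc G k, ∑ y ∈ W G k (k - 3) x, kap V k * Vf (rho G k (k - 4) x y) -
        ∑ x ∈ Cyc G k, ∑ y ∈ W G k (k - 3) x, kap V k * Vf (rho G k 2 x y) := by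
      rw [← Finset.sum_sub_distrib]
      refine Finset.sum_congr rfl fun x _ => ?_
      rw [← Finset.sum_sub_distrib]
      refine Finset.sum_congr rfl fun y _ => ?_
      simp only [hD]; ring
    rw [e1, e3]; linarith
  -- step 2
  set a : ZMod k := ((k - 3 : ℕ) : ZMod k) with ha
  have step2 : ∑ x ∈ Cyc G k, ∑ y ∈ W G k (k - 3) x, kap V k * D x y ≤
      (3 * ∑ x ∈ Cyc G k, ∑ y : V, (if Ty G k x y = ∅ then kap V k else 0) +
       3 * ∑ x ∈ Cyc G k, ∑ y : V, (if Ty G k x y = {a} then kap V k else 0) +
       3 * ∑ x ∈ Cyc G k, ∑ y : V, (if Ty G k x y = {a + 1} then kap V k else 0) +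
       3 * ∑ x ∈ Cyc G k, ∑ y : V, (if Ty G k x y = {a + 2} then kap V k else 0)) +
      ∑ x ∈ Cyc G k, ∑ y ∈ T G k J x, kap V k * D x y := by
    rw [Finset.mul_sum, Finset.mul_sum, Finset.mul_sum, Finset.mul_sum, ← Finset.sum_add_distrib,
      ← Finset.sum_add_distrib, ← Finset.sum_add_distrib, ← Finset.sum_add_distrib]
    refine Finset.sum_le_sum fun x hx => ?_
    rw [Finset.mul_sum, Finset.mul_sum, Finset.mul_sum, Finset.mul_sum, ← Finset.sum_add_distrib,
      ← Finset.sum_add_distrib, ← Finset.sum_add_distrib]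
    have eW : ∑ y ∈ W G k (k - 3) x, kap V k * D x y =
        ∑ y : V, if y ∈ W G k (k - 3) x then kap V k * D x y else 0 := by
      rw [← Finset.sum_filter]; congr 1; ext y; simp
    have eT : ∑ y ∈ T G k J x, kap V k * D x y =
        ∑ y : V, if y ∈ T G k J x then kap V k * D x y else 0 := by
      rw [← Finset.sum_filter]; congr 1; ext y; simp
    rw [eW, eT, ← Finset.sum_add_distrib]
    refine Finset.sum_le_sum fun y _ => ?_
    have p0 : (0 : ℝ) ≤ (if Ty G k x y = ∅ then kap V k else 0) := by split_ifs <;> simp [hkap]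
    have p1 : (0 : ℝ) ≤ (if Ty G k x y = {a} then kap V k else 0) := by split_ifs <;> simp [hkap]
    have p2 : (0 : ℝ) ≤ (if Ty G k x y = {a + 1} then kap V k else 0) := by
      split_ifs <;> simp [hkap]
    have p3 : (0 : ℝ) ≤ (if Ty G k x y = {a + 2} then kap V k else 0) := by
      split_ifs <;> simp [hkap]
    have q := mul_nonneg hkap (hD0 x y)
    have q3 : kap V k * D x y ≤ 3 * kap V k := by
      have := mul_le_mul_of_nonneg_left (hD3 x y) hkap
      linarith
    by_cases hT : y ∈ T G k J x
    · rw [if_pos hT]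
      split_ifs <;> linarith
    · rw [if_neg hT]
      by_cases hW : y ∈ W G k (k - 3) x
      · rw [if_pos hW]
        rcases closing_types hk tf hx hW hT with h | h | h | h
        · rw [if_pos h] at p0 ⊢; linarith
        · rw [← ha] at h
          have : (if Ty G k x y = {a} then kap V k else 0) = kap V k := if_pos h
          linarith
        · rw [← ha] at h
          have : (if Ty G k x y = {a + 1} then kap V k else 0) = kap V k := if_pos h
          linarith
        · rw [← ha] at h
          have : (if Ty G k x y = {a + 2} then kap V k else 0) = kap V k := if_pos h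
          linarith
      · rw [if_neg hW]; linarith
  have step3 : (3 * ∑ x ∈ Cyc G k, ∑ y : V, (if Ty G k x y = ∅ then kap V k else 0) +
       3 * ∑ x ∈ Cyc G k, ∑ y : V, (if Ty G k x y = {a} then kap V k else 0) +
       3 * ∑ x ∈ Cyc G k, ∑ y : V, (if Ty G k x y = {a + 1} then kap V k else 0) +
       3 * ∑ x ∈ Cyc G k, ∑ y : V, (if Ty G k x y = {a + 2} then kap V k else 0)) ≤
       10 * XX G k := by
    rw [single_rot a 1, single_rot a 2]
    have := XX_ge (G := G) (V := V) hk a
    linarith
  -- step 4: the twin class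
  have step4 : ∑ x ∈ Cyc G k, ∑ y ∈ T G k J x, kap V k * D x y ≤
      3 * ∑ x ∈ Cyc G k, (if 2 < mu k (F G k (k - 3) x) then mu k (F G k (k - 3) x) else 0) +
      ∑ x ∈ Cyc G k, ∑ y ∈ T G k J x,
        (if mu k (T G k J x) ≤ 2 then kap V k * D x y else 0) := by
    rw [Finset.mul_sum, ← Finset.sum_add_distrib]
    refine Finset.sum_le_sum fun x hx => ?_
    have hTF : T G k J x ⊆ F G k (k - 3) x := by
      have := T_subset_F (G := G) hk5 (x := x) (l := k - 3) (by omega)
      rw [show k - 3 + 1 = k - 2 by omega] at this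
      exact this
    by_cases h : mu k (T G k J x) ≤ 2
    · have e : ∑ y ∈ T G k J x, (if mu k (T G k J x) ≤ 2 then kap V k * D x y else 0) =
          ∑ y ∈ T G k J x, kap V k * D x y := by
        refine Finset.sum_congr rfl fun y _ => if_pos h
      rw [e]
      have : (0 : ℝ) ≤ (if 2 < mu k (F G k (k - 3) x) then mu k (F G k (k - 3) x) else 0) := by
        split_ifs with h'
        · linarith
        · exact le_refl _
      linarith
    · have e : ∑ y ∈ T G k J x, (if mu k (T G k J x) ≤ 2 then kap V k * D x y else 0) = 0 := by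
        refine Finset.sum_eq_zero fun y _ => if_neg h
      rw [e, add_zero]
      have hm := mu_mono (V := V) (k := k) hTF
      have h2 : 2 < mu k (F G k (k - 3) x) := by linarith [not_le.mp h]
      rw [if_pos h2]
      have : ∑ y ∈ T G k J x, kap V k * D x y ≤ ∑ y ∈ T G k J x, 3 * kap V k := by
        refine Finset.sum_le_sum fun y _ => ?_
        have := mul_le_mul_of_nonneg_left (hD3 x y) hkap
        linarith
      refine this.trans ?_
      rw [← Finset.mul_sum, ← mu_eq_sum]
      linarith
  have step5 : 3 * ∑ x ∈ Cyc G k,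
      (if 2 < mu k (F G k (k - 3) x) then mu k (F G k (k - 3) x) else 0) ≤
      36 * cc G k (k - 3) := by
    have := mass_two (G := G) hk5 (l := k - 3) (by omega)
    linarith
  -- step 6: small twin class
  have step6 : ∑ x ∈ Cyc G k, ∑ y ∈ T G k J x,
      (if mu k (T G k J x) ≤ 2 then kap V k * D x y else 0) ≤
      16 * ∑ l ∈ Icc 2 (k - 5), (2 * ∑ x ∈ Cyc G k, ∑ y ∈ T G k J x,
        (if mu k (T G k J x) ≤ 2 then kap V k * ee G k l x y else 0) +
        2 * ∑ x ∈ Cyc G k,
          mu k ((F G k l x).filter (fun z => pr G k l x z < kap V k / 2))) := by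
    have e1 : ∀ x ∈ Cyc G k, ∀ y ∈ T G k J x,
        (if mu k (T G k J x) ≤ 2 then kap V k * D x y else 0) ≤
        16 * ∑ l ∈ Icc 2 (k - 5),
          (2 * (if mu k (T G k J x) ≤ 2 then kap V k * ee G k l x y else 0) +
          (if mu k (T G k J x) ≤ 2 then kap V k *
            mu k ((F G k l x).filter (fun z => pr G k l x z < kap V k / 2)) else 0)) := by
      intro x _ y _
      by_cases h : mu k (T G k J x) ≤ 2
      · simp only [if_pos h]
        have h1 := mul_le_mul_of_nonneg_left (hDl x y) hkap
        refine h1.trans ?_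
        rw [mul_left_comm]
        refine mul_le_mul_of_nonneg_left ?_ (by norm_num)
        rw [Finset.mul_sum]
        refine Finset.sum_le_sum fun l _ => ?_
        have h2 := mul_le_mul_of_nonneg_left (mass_le_hazard (G := G) (l := l) x y) hkap
        linarith
      · simp only [if_neg h]; simp
    calc ∑ x ∈ Cyc G k, ∑ y ∈ T G k J x,
        (if mu k (T G k J x) ≤ 2 then kap V k * D x y else 0)
        ≤ ∑ x ∈ Cyc G k, ∑ y ∈ T G k J x, 16 * ∑ l ∈ Icc 2 (k - 5),
          (2 * (if mu k (T G k J x) ≤ 2 then kap V k * ee G k l x y else 0) +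
          (if mu k (T G k J x) ≤ 2 then kap V k *
            mu k ((F G k l x).filter (fun z => pr G k l x z < kap V k / 2)) else 0)) :=
          Finset.sum_le_sum fun x hx => Finset.sum_le_sum fun y hy => e1 x hx y hy
      _ = 16 * ∑ l ∈ Icc 2 (k - 5), ∑ x ∈ Cyc G k, ∑ y ∈ T G k J x,
          (2 * (if mu k (T G k J x) ≤ 2 then kap V k * ee G k l x y else 0) +
          (if mu k (T G k J x) ≤ 2 then kap V k *
            mu k ((F G k l x).filter (fun z => pr G k l x z < kap V k / 2)) else 0)) := by
          simp_rw [← Finset.mul_sum]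
          congr 1
          rw [Finset.sum_comm]
          refine Finset.sum_congr rfl fun x _ => ?_
          rw [Finset.sum_comm]
      _ ≤ _ := by
          refine mul_le_mul_of_nonneg_left ?_ (by norm_num)
          refine Finset.sum_le_sum fun l _ => ?_
          rw [Finset.mul_sum, Finset.mul_sum, ← Finset.sum_add_distrib]
          refine Finset.sum_le_sum fun x _ => ?_
          rw [Finset.sum_add_distrib, ← Finset.mul_sum]
          have hm0 : 0 ≤ mu k ((F G k l x).filter (fun z => pr G k l x z < kap V k / 2)) :=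
            mu_nonneg _
          have : ∑ y ∈ T G k J x, (if mu k (T G k J x) ≤ 2 then kap V k *
            mu k ((F G k l x).filter (fun z => pr G k l x z < kap V k / 2)) else 0) ≤
            2 * mu k ((F G k l x).filter (fun z => pr G k l x z < kap V k / 2)) := by
            by_cases h : mu k (T G k J x) ≤ 2
            · simp only [if_pos h]
              rw [← Finset.sum_mul, ← mu_eq_sum]
              exact mul_le_mul_of_nonneg_right h hm0
            · simp only [if_neg h]; simp [hm0]
          linarith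
  -- step 7: the swap
  have step7 : ∀ l ∈ Icc 2 (k - 5), ∑ x ∈ Cyc G k, ∑ y ∈ T G k J x,
        (if mu k (T G k J x) ≤ 2 then kap V k * ee G k l x y else 0) ≤ 2 * ze G k l := by
    intro l hl
    have hl' := Finset.mem_Icc.mp hl
    rw [← sum_swap (G := G) hk5 tf J
      (fun x v => if mu k (T G k J x) ≤ 2 then kap V k * ee G k l x v else 0)]
    unfold ze
    rw [Finset.mul_sum]
    refine Finset.sum_le_sum fun x hx => ?_
    have e : ∀ v ∈ T G k J x,
        (if mu k (T G k J (Function.update x J v)) ≤ 2 then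
          kap V k * ee G k l (Function.update x J v) (x J) else 0) =
        (if mu k (T G k J x) ≤ 2 then kap V k * ee G k l x (x J) else 0) := by
      intro v hv
      rw [T_update hk5 hx hv tf]
      have hc : Function.update x J v ∈ cyl G k l x := by
        refine Finset.mem_filter.mpr ⟨update_mem_Cyc hk5 hx hv, ?_⟩
        intro i hi
        rw [Function.update_of_ne]
        intro h
        rw [hJ, ZMod.natCast_eq_natCast_iff'] at h
        rw [Nat.mod_eq_of_lt (by omega : i < k), Nat.mod_eq_of_lt (by omega : k - 2 < k)] at h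
        omega
      rw [ee_congr hc]
    rw [Finset.sum_congr rfl e]
    have he0 := ee_nonneg (G := G) l x (x J)
    by_cases h : mu k (T G k J x) ≤ 2
    · simp only [if_pos h]
      rw [← Finset.sum_mul, ← mu_eq_sum]
      exact mul_le_mul_of_nonneg_right h he0
    · simp only [if_neg h]
      simp only [Finset.sum_const_zero]
      linarith
  have step8 : 16 * ∑ l ∈ Icc 2 (k - 5), (2 * ∑ x ∈ Cyc G k, ∑ y ∈ T G k J x,
        (if mu k (T G k J x) ≤ 2 then kap V k * ee G k l x y else 0) +
        2 * ∑ x ∈ Cyc G k,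
          mu k ((F G k l x).filter (fun z => pr G k l x z < kap V k / 2))) ≤
      16 * (4 * ∑ l ∈ Icc 2 (k - 5), ze G k l + 24 * ∑ l ∈ Icc 2 (k - 5), cc G k l) := by
    refine mul_le_mul_of_nonneg_left ?_ (by norm_num)
    rw [Finset.mul_sum, Finset.mul_sum, ← Finset.sum_add_distrib]
    refine Finset.sum_le_sum fun l hl => ?_
    have hl' := Finset.mem_Icc.mp hl
    have h1 := step7 l hl
    have h2 := low_density (G := G) hk5 (l := l) (by omega)
    linarith
  linarith

end Pool.Agent.ICyc
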