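import Pool.Agent.Lib.MP_131fce_co.Defs
import Pool.Agent.Lib.MP_131fce_co.Gaps

/-!
# IC-15a: rotation and reflection averages of the linearised main inequality
-/

set_option autoImplicit false

namespace Pool.Agent.ICyc

open Finset
open scoped Classical

variable {V : Type} [Fintype V] {G : SimpleGraph V} {k : ℕ} [NeZero k]

/-- rotation average of an arbitrary function -/
theorem k_mul_sum (f : (ZMod k → V) → ℝ) :
    (k : ℝ) * ∑ x ∈ Cyc G k, f x = ∑ x ∈ Cyc G k, ∑ a : ZMod k, f (fun i => x (i + a)) := by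
  rw [Finset.sum_comm, Finset.sum_congr rfl (fun a _ => gaps_sum_rot a f), Finset.sum_const,
    Finset.card_univ, ZMod.card, nsmul_eq_mul]

/-- reflection invariance of the set of labelled cycles -/
theorem sumcoef_refl (f : (ZMod k → V) → ℝ) :
    ∑ x ∈ Cyc G k, f (fun i => x (-i)) = ∑ x ∈ Cyc G k, f x := by
  have key : ∀ (x : ZMod k → V), x ∈ Cyc G k → (fun i => x (-i)) ∈ Cyc G k := by
    intro x hx
    rw [Cyc, mem_filter] at hx ⊢
    refine ⟨mem_univ _, fun i j => ?_⟩
    replace hx := hx.2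
    simp only [IsCyc] at hx
    rw [hx (-i) (-j)]
    constructor
    · rintro (h | h)
      · right
        linear_combination h
      · left
        linear_combination h
    · rintro (h | h)
      · right
        linear_combination h
      · left
        linear_combination h
  refine Finset.sum_nbij' (fun x i => x (-i)) (fun x i => x (-i)) ?_ ?_ ?_ ?_ ?_
  · intro x hx
    exact key x hx
  · intro x hx
    exact key x hx
  · intro x _
    funext i
    simp
  · intro x _
    funext i
    simp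
  · intro x _
    rfl

omit [NeZero k] in
/-- mass as a sum of indicators -/
theorem mu_filter_sc (P : V → Prop) :
    mu k (univ.filter P) = ∑ w : V, kap V k * (if P w then (1 : ℝ) else 0) := by
  rw [mu, ← Finset.mul_sum, Finset.sum_boole]

/-- degree term -/
theorem sumcoef_dg : (k : ℝ) * ∑ x ∈ Cyc G k, dg G k (x 1) / 2 =
    ∑ x ∈ Cyc G k, ∑ w : V, kap V k * (((Ty G k x w).card : ℝ) / 2) := by
  rw [k_mul_sum (fun x => dg G k (x 1) / 2)]
  refine Finset.sum_congr rfl (fun x _ => ?_)
  have h1 : ∀ w : V, ((Ty G k x w).card : ℝ) = ∑ i : ZMod k, if G.Adj (x i) w then (1 : ℝ) else 0 := by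
    intro w
    rw [Ty, Finset.sum_boole]
  have h2 : ∀ i : ZMod k, dg G k (x i) = ∑ w : V, kap V k * (if G.Adj (x i) w then (1 : ℝ) else 0) := by
    intro i
    rw [dg, nb, mu_filter_sc]
  have h3 : ∑ a : ZMod k, dg G k (x (1 + a)) / 2 = ∑ i : ZMod k, dg G k (x i) / 2 :=
    Equiv.sum_comp (Equiv.addLeft (1 : ZMod k)) (fun i => dg G k (x i) / 2)
  rw [h3, ← Finset.sum_div, Finset.sum_congr rfl (fun i _ => h2 i), Finset.sum_comm,
    Finset.sum_div]
  refine Finset.sum_congr rfl (fun w _ => ?_)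
  rw [← Finset.mul_sum, ← h1 w]
  ring

omit [NeZero k] in
/-- `Zk` with the normalisation written out over all vertices -/
theorem sumcoef_nb (u u' : V) : kap V k * ∑ z ∈ nb G u, eps G k u' z =
    ∑ w : V, kap V k * (if G.Adj u w then eps G k u' w else 0) := by
  rw [nb, Finset.sum_filter, Finset.mul_sum]

/-- kernel term -/
theorem sumcoef_Zk : (k : ℝ) * ∑ x ∈ Cyc G k, Zk G k x =
    ∑ x ∈ Cyc G k, ∑ w : V, kap V k *
      (∑ i ∈ Ty G k x w, (eps G k (x (i + 1)) w + eps G k (x (i - 1)) w) / 2) := by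
  have hrefl : ∑ x ∈ Cyc G k, Zk G k (fun i => x (-i)) = ∑ x ∈ Cyc G k, Zk G k x :=
    sumcoef_refl (fun x => Zk G k x)
  have h1 : (k : ℝ) * ∑ x ∈ Cyc G k, Zk G k x = ∑ x ∈ Cyc G k, ∑ i : ZMod k,
      kap V k * ∑ z ∈ nb G (x i), eps G k (x (i + 1)) z := by
    rw [k_mul_sum (fun x => Zk G k x)]
    refine Finset.sum_congr rfl (fun x _ => ?_)
    have : ∀ a : ZMod k, Zk G k (fun i => x (i + a)) =
        kap V k * ∑ z ∈ nb G (x (1 + a)), eps G k (x ((1 + a) + 1)) z := by
      intro a
      have e : (2 : ZMod k) + a = (1 + a) + 1 := by ring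
      simp only [Zk, e]
    rw [Finset.sum_congr rfl (fun a _ => this a)]
    exact Equiv.sum_comp (Equiv.addLeft (1 : ZMod k))
      (fun i => kap V k * ∑ z ∈ nb G (x i), eps G k (x (i + 1)) z)
  have h2 : (k : ℝ) * ∑ x ∈ Cyc G k, Zk G k x = ∑ x ∈ Cyc G k, ∑ i : ZMod k,
      kap V k * ∑ z ∈ nb G (x i), eps G k (x (i - 1)) z := by
    rw [← hrefl, k_mul_sum (fun x => Zk G k (fun i => x (-i)))]
    refine Finset.sum_congr rfl (fun x _ => ?_)
    have : ∀ a : ZMod k, Zk G k (fun i => x (-i + a)) =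
        kap V k * ∑ z ∈ nb G (x (-1 + a)), eps G k (x ((-1 + a) - 1)) z := by
      intro a
      have e : -(2 : ZMod k) + a = (-1 + a) - 1 := by ring
      simp only [Zk, e]
    rw [Finset.sum_congr rfl (fun a _ => this a)]
    exact Equiv.sum_comp (Equiv.addLeft (-1 : ZMod k))
      (fun i => kap V k * ∑ z ∈ nb G (x i), eps G k (x (i - 1)) z)
  have h3 : (k : ℝ) * ∑ x ∈ Cyc G k, Zk G k x =
      ((k : ℝ) * ∑ x ∈ Cyc G k, Zk G k x + (k : ℝ) * ∑ x ∈ Cyc G k, Zk G k x) / 2 := by ring
  rw [h3]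
  nth_rewrite 1 [h1]
  rw [h2, ← Finset.sum_add_distrib, Finset.sum_div]
  refine Finset.sum_congr rfl (fun x _ => ?_)
  rw [← Finset.sum_add_distrib, Finset.sum_div]
  simp only [sumcoef_nb, ← Finset.sum_add_distrib, Finset.sum_div]
  rw [Finset.sum_comm]
  refine Finset.sum_congr rfl (fun w _ => ?_)
  rw [Ty, Finset.sum_filter, Finset.mul_sum]
  refine Finset.sum_congr rfl (fun i _ => ?_)
  split_ifs <;> ring

/-- candidate term -/
theorem sumcoef_F : (k : ℝ) * ∑ x ∈ Cyc G k, ∑ l ∈ Icc 2 (k - 3), mu k (F G k l x) =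
    ∑ x ∈ Cyc G k, ∑ w : V, kap V k * cnt G k x w := by
  rw [Finset.sum_comm, Finset.mul_sum]
  have h1 : ∀ l ∈ Icc 2 (k - 3), (k : ℝ) * ∑ x ∈ Cyc G k, mu k (F G k l x) =
      ∑ x ∈ Cyc G k, ∑ w : V, kap V k *
        ((univ.filter (fun a : ZMod k => w ∈ F G k l (fun i => x (i + a)))).card : ℝ) :=
    fun l _ => k_mul_Fm l
  rw [Finset.sum_congr rfl h1, Finset.sum_comm]
  refine Finset.sum_congr rfl (fun x _ => ?_)
  rw [Finset.sum_comm]
  refine Finset.sum_congr rfl (fun w _ => ?_)
  rw [← Finset.mul_sum, cnt, Finset.sum_comm]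
  congr 1
  refine Finset.sum_congr rfl (fun l _ => ?_)
  rw [Finset.sum_boole]

/-- twin classes of a rotated cycle -/
theorem T_rot (a j : ZMod k) (x : ZMod k → V) :
    T G k j (fun i => x (i + a)) = T G k (j + a) x := by
  ext w
  simp only [T, mem_filter, mem_univ, true_and]
  have key : ∀ i : ZMod k, i ∈ Ty G k (fun i => x (i + a)) w ↔ i + a ∈ Ty G k x w := by
    intro i
    simp only [Ty, mem_filter, mem_univ, true_and]
  constructor
  · intro h
    ext i
    have h1 := key (i - a)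
    rw [sub_add_cancel] at h1
    rw [← h1, h]
    simp only [mem_insert, mem_singleton]
    constructor
    · rintro (h2 | h2)
      · left
        linear_combination h2
      · right
        linear_combination h2
    · rintro (h2 | h2)
      · left
        linear_combination h2
      · right
        linear_combination h2
  · intro h
    ext i
    rw [key i, h]
    simp only [mem_insert, mem_singleton]
    constructor
    · rintro (h2 | h2)
      · left
        linear_combination h2
      · right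
        linear_combination h2
    · rintro (h2 | h2)
      · left
        linear_combination h2
      · right
        linear_combination h2

/-- twin term -/
theorem sumcoef_T : (k : ℝ) * ∑ x ∈ Cyc G k, mu k (T G k (-1) x) =
    ∑ x ∈ Cyc G k, ∑ w : V, kap V k * (∑ j : ZMod k, if w ∈ T G k j x then (1 : ℝ) else 0) := by
  rw [k_mul_sum (fun x => mu k (T G k (-1) x))]
  refine Finset.sum_congr rfl (fun x _ => ?_)
  have h1 : ∀ a : ZMod k, mu k (T G k (-1) (fun i => x (i + a))) = mu k (T G k (-1 + a) x) := by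
    intro a
    rw [T_rot]
  rw [Finset.sum_congr rfl (fun a _ => h1 a)]
  have h2 : ∑ a : ZMod k, mu k (T G k (-1 + a) x) = ∑ j : ZMod k, mu k (T G k j x) :=
    Equiv.sum_comp (Equiv.addLeft (-1 : ZMod k)) (fun j => mu k (T G k j x))
  rw [h2]
  have h3 : ∀ j : ZMod k, mu k (T G k j x) =
      ∑ w : V, kap V k * (if w ∈ T G k j x then (1 : ℝ) else 0) := by
    intro j
    rw [mu, ← Finset.mul_sum, Finset.sum_boole]
    congr 2
    congr 1
    ext w
    simp
  rw [Finset.sum_congr rfl (fun j _ => h3 j), Finset.sum_comm]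
  refine Finset.sum_congr rfl (fun w _ => ?_)
  rw [Finset.mul_sum]

theorem sum_eq_coef (hk : 20 ≤ k) :
    ∑ x ∈ Cyc G k, ((dg G k (x 1) / 2 - 1) + (Zk G k x - 1) +
        ∑ l ∈ Icc 2 (k - 3), (mu k (F G k l x) - 1) + (mu k (T G k (-1) x) - 1)) =
      1 / (k : ℝ) * ∑ x ∈ Cyc G k, ∑ w : V, kap V k * coef G k x w := by
  have hk0 : (0 : ℝ) < (k : ℝ) := by
    have : (20 : ℝ) ≤ (k : ℝ) := by exact_mod_cast hk
    linarith
  rcases isEmpty_or_nonempty V with hV | hV
  · have hE : Cyc G k = ∅ := by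
      apply Finset.eq_empty_of_forall_notMem
      intro x _
      exact hV.elim (x 0)
    rw [hE]
    simp
  have hkap : ∑ _w : V, kap V k = (k : ℝ) := by
    rw [Finset.sum_const, Finset.card_univ, nsmul_eq_mul, kap]
    have : (Fintype.card V : ℝ) ≠ 0 := by
      exact_mod_cast Fintype.card_ne_zero
    field_simp
  have hcard : ((Icc 2 (k - 3)).card : ℝ) = (k : ℝ) - 4 := by
    rw [Nat.card_Icc]
    have : k - 3 + 1 - 2 = k - 4 := by omega
    rw [this, Nat.cast_sub (by omega)]
    norm_num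
  have hL : ∀ x : ZMod k → V, ((dg G k (x 1) / 2 - 1) + (Zk G k x - 1) +
        ∑ l ∈ Icc 2 (k - 3), (mu k (F G k l x) - 1) + (mu k (T G k (-1) x) - 1)) =
      dg G k (x 1) / 2 + Zk G k x + ∑ l ∈ Icc 2 (k - 3), mu k (F G k l x) +
        mu k (T G k (-1) x) - ((k : ℝ) - 1) := by
    intro x
    rw [Finset.sum_sub_distrib, Finset.sum_const, nsmul_eq_mul, hcard]
    ring
  have hR : ∀ x : ZMod k → V, ∑ w : V, kap V k * coef G k x w =
      ∑ w : V, kap V k * (((Ty G k x w).card : ℝ) / 2) + ∑ w : V, kap V k * cnt G k x w +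
      ∑ w : V, kap V k * (∑ j : ZMod k, if w ∈ T G k j x then (1 : ℝ) else 0) +
      ∑ w : V, kap V k *
      (∑ i ∈ Ty G k x w, (eps G k (x (i + 1)) w + eps G k (x (i - 1)) w) / 2) -
      (k : ℝ) * ((k : ℝ) - 1) := by
    intro x
    have : (k : ℝ) * ((k : ℝ) - 1) = ∑ _w : V, kap V k * ((k : ℝ) - 1) := by
      rw [← Finset.sum_mul, hkap]
    rw [this, ← Finset.sum_add_distrib, ← Finset.sum_add_distrib, ← Finset.sum_add_distrib,
      ← Finset.sum_sub_distrib]
    refine Finset.sum_congr rfl (fun w _ => ?_)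
    rw [coef]
    ring
  rw [Finset.sum_congr rfl (fun x _ => hL x), Finset.sum_congr rfl (fun x _ => hR x)]
  simp only [Finset.sum_sub_distrib, Finset.sum_add_distrib]
  rw [← sumcoef_dg, ← sumcoef_F, ← sumcoef_T, ← sumcoef_Zk]
  simp only [Finset.sum_const, nsmul_eq_mul]
  field_simp
  ring

end Pool.Agent.ICyc
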