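import Pool.Agent.Lib.MP_131fce_co.CntLe
import Pool.Agent.Lib.MP_131fce_co.SumCoef

/-!
# Induced k-cycles in triangle-free graphs (MP_131fce_co): module IC-15c (coefficients of the types)
-/

set_option autoImplicit false

namespace Pool.Agent.ICyc

open Finset
open scoped Classical

variable {V : Type} [Fintype V] {G : SimpleGraph V} {k : ℕ} [NeZero k]

omit [NeZero k] in
theorem ic15_eps_le_one (u z : V) : eps G k u z ≤ 1 := min_le_left _ _

omit [NeZero k] in
theorem ic15_two_ne_zero_of (hk : 20 ≤ k) : (2 : ZMod k) ≠ 0 := by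
  intro h
  have h' : ((2 : ℕ) : ZMod k) = 0 := by exact_mod_cast h
  rw [ZMod.natCast_eq_zero_iff] at h'
  have := Nat.le_of_dvd (by norm_num) h'
  omega

omit [NeZero k] in
theorem ic15_four_ne_zero_of (hk : 20 ≤ k) : (4 : ZMod k) ≠ 0 := by
  intro h
  have h' : ((4 : ℕ) : ZMod k) = 0 := by exact_mod_cast h
  rw [ZMod.natCast_eq_zero_iff] at h'
  have := Nat.le_of_dvd (by norm_num) h'
  omega

omit [NeZero k] in
theorem ic15_sub_ne_add (hk : 20 ≤ k) (j : ZMod k) : j - 1 ≠ j + 1 := by
  intro h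
  apply ic15_two_ne_zero_of hk
  have h2 : (2 : ZMod k) = (j + 1) - (j - 1) := by ring
  rw [h2, ← h]
  ring

omit [NeZero k] in
theorem ic15_pair_card (hk : 20 ≤ k) (j : ZMod k) : ({j - 1, j + 1} : Finset (ZMod k)).card = 2 :=
  Finset.card_pair (ic15_sub_ne_add hk j)

omit [NeZero k] in
theorem ic15_pair_inj (hk : 20 ≤ k) {i j : ZMod k}
    (h : ({i - 1, i + 1} : Finset (ZMod k)) = {j - 1, j + 1}) : i = j := by
  have h1 : i - 1 ∈ ({j - 1, j + 1} : Finset (ZMod k)) := by rw [← h]; simp
  have h2 : i + 1 ∈ ({j - 1, j + 1} : Finset (ZMod k)) := by rw [← h]; simp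
  simp only [mem_insert, mem_singleton] at h1 h2
  rcases h1 with h1 | h1
  · linear_combination h1
  · rcases h2 with h2 | h2
    · exfalso
      apply ic15_four_ne_zero_of hk
      have h3 : (4 : ZMod k) = 0 := by linear_combination h2 - h1
      exact h3
    · linear_combination h2

theorem ic15_sum_T_boole (hk : 20 ≤ k) {x : ZMod k → V} {w : V} {j : ZMod k}
    (hw : Ty G k x w = {j - 1, j + 1}) (f : ZMod k → ℝ) :
    (∑ i : ZMod k, if w ∈ T G k i x then f i else 0) = f j := by
  rw [Finset.sum_eq_single j]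
  · rw [if_pos]
    simp [T, hw]
  · intro i _ hij
    rw [if_neg]
    intro h
    simp only [T, mem_filter, mem_univ, true_and] at h
    rw [hw] at h
    exact hij (ic15_pair_inj hk h).symm
  · intro h
    exact absurd (mem_univ j) h

theorem ic15_sum_T_boole_zero {x : ZMod k → V} {w : V}
    (hw : ∀ j : ZMod k, Ty G k x w ≠ {j - 1, j + 1}) (f : ZMod k → ℝ) :
    (∑ i : ZMod k, if w ∈ T G k i x then f i else 0) = 0 := by
  apply Finset.sum_eq_zero
  intro i _
  rw [if_neg]
  intro h
  simp only [T, mem_filter, mem_univ, true_and] at h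
  exact hw i h

theorem ic15_sum_eps_le (x : ZMod k → V) (w : V) :
    (∑ i ∈ Ty G k x w, (eps G k (x (i + 1)) w + eps G k (x (i - 1)) w) / 2) ≤
      ((Ty G k x w).card : ℝ) := by
  calc _ ≤ ∑ _i ∈ Ty G k x w, (1 : ℝ) := by
        apply Finset.sum_le_sum
        intro i _
        have h1 := ic15_eps_le_one (G := G) (k := k) (x (i + 1)) w
        have h2 := ic15_eps_le_one (G := G) (k := k) (x (i - 1)) w
        linarith
    _ = _ := by simp

theorem coef_le (hk : 20 ≤ k) (tf : ∀ a b c : V, G.Adj a b → G.Adj b c → ¬ G.Adj a c)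
    {x : ZMod k → V} (hx : x ∈ Cyc G k) (w : V) :
    coef G k x w ≤ (∑ j : ZMod k, if w ∈ T G k j x then eps G k (x j) w else 0) -
      rr k (Ty G k x w) := by
  have hc := cnt_le hk tf hx w
  have he := ic15_sum_eps_le (G := G) x w
  unfold coef
  by_cases hT : ∃ j : ZMod k, Ty G k x w = {j - 1, j + 1}
  · obtain ⟨j, hj⟩ := hT
    rw [ic15_sum_T_boole hk hj (fun _ => (1 : ℝ)), ic15_sum_T_boole hk hj (fun j => eps G k (x j) w)]
    have hcard : (Ty G k x w).card = 2 := by rw [hj]; exact ic15_pair_card hk j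
    rw [if_neg (by omega), if_neg (by omega), hcard] at hc
    have hrr : rr k (Ty G k x w) = 0 := by
      unfold rr
      rw [if_neg (by omega), if_neg (by omega), hcard]
      norm_num
    rw [hrr, hcard]
    have hs : (∑ i ∈ Ty G k x w, (eps G k (x (i + 1)) w + eps G k (x (i - 1)) w) / 2) ≤
        1 + eps G k (x j) w := by
      rw [hj, Finset.sum_pair (ic15_sub_ne_add hk j)]
      have h1 : j - 1 + 1 = j := by ring
      have h2 : j + 1 - 1 = j := by ring
      rw [h1, h2]
      have h3 := ic15_eps_le_one (G := G) (k := k) (x (j - 1 - 1)) w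
      have h4 := ic15_eps_le_one (G := G) (k := k) (x (j + 1 + 1)) w
      linarith
    push_cast at hc ⊢
    linarith
  · push Not at hT
    rw [ic15_sum_T_boole_zero hT, ic15_sum_T_boole_zero hT]
    by_cases h0 : (Ty G k x w).card = 0
    · rw [if_pos h0] at hc
      unfold rr
      rw [if_pos h0]
      rw [h0] at he ⊢
      push_cast at he ⊢
      linarith
    · by_cases h1 : (Ty G k x w).card = 1
      · rw [if_neg h0, if_pos h1] at hc
        unfold rr
        rw [if_neg h0, if_pos h1]
        rw [h1] at he ⊢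
        push_cast at he ⊢
        linarith
      · rw [if_neg h0, if_neg h1] at hc
        unfold rr
        rw [if_neg h0, if_neg h1]
        linarith

theorem types (hk : 20 ≤ k) (tf : ∀ a b c : V, G.Adj a b → G.Adj b c → ¬ G.Adj a c) :
    ∑ x ∈ Cyc G k, ((dg G k (x 1) / 2 - 1) + (Zk G k x - 1) +
        ∑ l ∈ Icc 2 (k - 3), (mu k (F G k l x) - 1) + (mu k (T G k (-1) x) - 1)) ≤
      1 / (k : ℝ) * Gain G k - XX G k := by
  rw [sum_eq_coef hk]
  have hk0 : (0 : ℝ) < (k : ℝ) := by
    have : 0 < k := by omega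
    exact_mod_cast this
  have hkap : 0 ≤ kap V k := by
    unfold kap
    positivity
  unfold XX
  rw [← mul_sub]
  apply mul_le_mul_of_nonneg_left _ (by positivity)
  unfold Gain
  rw [← Finset.sum_sub_distrib]
  apply Finset.sum_le_sum
  intro x hx
  have h1 : ∑ j : ZMod k, ∑ v ∈ T G k j x, kap V k * eps G k (x j) v =
      ∑ w : V, kap V k * ∑ j : ZMod k, (if w ∈ T G k j x then eps G k (x j) w else 0) := by
    simp_rw [Finset.mul_sum]
    rw [Finset.sum_comm (s := (univ : Finset V))]
    apply Finset.sum_congr rfl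
    intro j _
    simp only [mul_ite, mul_zero]
    rw [Finset.sum_ite_mem, Finset.univ_inter]
  rw [h1, ← Finset.sum_sub_distrib]
  apply Finset.sum_le_sum
  intro w _
  rw [← mul_sub]
  exact mul_le_mul_of_nonneg_left (coef_le hk tf hx w) hkap

end Pool.Agent.ICyc
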