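import Pool.Agent.Lib.MP_131fce_co.Defs
import Pool.Agent.Lib.MP_131fce_co.Basic
import Pool.Agent.Lib.MP_131fce_co.Rot
import Pool.Agent.Lib.MP_131fce_co.RotVis

/-! # Flows at dense types (IC-12b) -/

set_option autoImplicit false

namespace Pool.Agent.ICyc

open Finset
open scoped Classical

noncomputable section

variable {V : Type} [Fintype V] {G : SimpleGraph V} {k : ℕ} [NeZero k]

/-! ### Free positions -/

private theorem al_le_insert (S : Finset (ZMod k)) (j : ZMod k) :
    al k S ≤ al k (insert j S) + 3 := by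
  unfold al
  have hsub : (univ.filter (fun a : ZMod k => a ∉ S ∧ a + 1 ∉ S ∧ a + 2 ∉ S)) ⊆
      (univ.filter (fun a : ZMod k => a ∉ insert j S ∧ a + 1 ∉ insert j S ∧
        a + 2 ∉ insert j S)) ∪ {j, j - 1, j - 2} := by
    intro a ha
    simp only [mem_filter, mem_univ, true_and] at ha
    obtain ⟨h0, h1, h2⟩ := ha
    simp only [mem_union, mem_filter, mem_univ, true_and, mem_insert, mem_singleton, not_or]
    by_cases e0 : a = j
    · right; left; exact e0
    by_cases e1 : a + 1 = j
    · right; right; left; rw [← e1]; ring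
    by_cases e2 : a + 2 = j
    · right; right; right; rw [← e2]; ring
    left
    exact ⟨⟨e0, h0⟩, ⟨e1, h1⟩, ⟨e2, h2⟩⟩
  calc (univ.filter (fun a : ZMod k => a ∉ S ∧ a + 1 ∉ S ∧ a + 2 ∉ S)).card
      ≤ _ := card_le_card hsub
    _ ≤ _ := card_union_le _ _
    _ ≤ _ := by
      have : ({j, j - 1, j - 2} : Finset (ZMod k)).card ≤ 3 := card_le_three
      omega

private theorem card_le_al (S : Finset (ZMod k)) : k ≤ al k S + 3 * S.card := by
  have hsub : (univ : Finset (ZMod k)) ⊆
      (univ.filter (fun a : ZMod k => a ∉ S ∧ a + 1 ∉ S ∧ a + 2 ∉ S)) ∪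
        (S ∪ (S.image (fun a => a - 1) ∪ S.image (fun a => a - 2))) := by
    intro a _
    simp only [mem_union, mem_filter, mem_univ, true_and, mem_image]
    by_cases h0 : a ∈ S
    · right; left; exact h0
    by_cases h1 : a + 1 ∈ S
    · right; right; left; exact ⟨a + 1, h1, by ring⟩
    by_cases h2 : a + 2 ∈ S
    · right; right; right; exact ⟨a + 2, h2, by ring⟩
    left; exact ⟨h0, h1, h2⟩
  have h := card_le_card hsub
  rw [card_univ, ZMod.card] at h
  have h1 := card_union_le (univ.filter (fun a : ZMod k => a ∉ S ∧ a + 1 ∉ S ∧ a + 2 ∉ S))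
    (S ∪ (S.image (fun a => a - 1) ∪ S.image (fun a => a - 2)))
  have h2 := card_union_le S (S.image (fun a => a - 1) ∪ S.image (fun a => a - 2))
  have h3 := card_union_le (S.image (fun a : ZMod k => a - 1)) (S.image (fun a => a - 2))
  have h4 : (S.image (fun a : ZMod k => a - 1)).card ≤ S.card := card_image_le
  have h5 : (S.image (fun a : ZMod k => a - 2)).card ≤ S.card := card_image_le
  unfold al
  omega

/-- the number of `j` with `j - 1, j, j + 1` outside `S` is `al S` -/
private theorem card_free (S : Finset (ZMod k)) :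
    (univ.filter (fun j : ZMod k => j - 1 ∉ S ∧ j ∉ S ∧ j + 1 ∉ S)).card = al k S := by
  unfold al
  apply card_bij (fun j _ => j - 1)
  · intro j hj
    simp only [mem_filter, mem_univ, true_and] at hj ⊢
    refine ⟨hj.1, ?_, ?_⟩
    · rw [sub_add_cancel]; exact hj.2.1
    · have : j - 1 + 2 = j + 1 := by ring
      rw [this]; exact hj.2.2
  · intro a _ b _ h
    exact sub_left_injective h
  · intro b hb
    simp only [mem_filter, mem_univ, true_and] at hb
    refine ⟨b + 1, ?_, by ring⟩
    simp only [mem_filter, mem_univ, true_and]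
    refine ⟨?_, hb.2.1, ?_⟩
    · rw [add_sub_cancel_right]; exact hb.1
    · have : b + 1 + 1 = b + 2 := by ring
      rw [this]; exact hb.2.2

/-! ### Types after a swap -/

private theorem mem_Ty {x : ZMod k → V} {w : V} {i : ZMod k} : i ∈ Ty G k x w ↔ G.Adj (x i) w := by
  simp [Ty]

private theorem Ty_update {x : ZMod k → V} {j : ZMod k} {v w : V} (hv : G.Adj v w) :
    Ty G k (Function.update x j v) w = insert j (Ty G k x w) := by
  ext i
  rw [mem_Ty, mem_insert, mem_Ty]
  by_cases h : i = j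
  · subst h
    simp [hv]
  · rw [Function.update_of_ne h]
    simp [h]

private theorem om_nonneg (y : V) : 0 ≤ om G k y := by
  unfold om
  positivity

private theorem om_le_one (y : V) : om G k y ≤ 1 := by
  unfold om
  rw [div_le_one (by positivity)]
  exact le_max_left _ _

private theorem dis_nonneg (x : ZMod k → V) (j : ZMod k) (w : V) : 0 ≤ dis G k x j w := by
  unfold dis
  split_ifs
  · exact mul_nonneg (mul_nonneg kap_nonneg (om_nonneg _)) (mu_nonneg _)
  · exact le_rfl

private theorem XX_nonneg (hk : 1 ≤ k) : 0 ≤ XX G k := by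
  unfold XX
  apply mul_nonneg (by positivity)
  apply sum_nonneg
  intro x _
  apply sum_nonneg
  intro w _
  apply mul_nonneg kap_nonneg
  unfold rr
  split_ifs with h0 h1
  · have : (1 : ℝ) ≤ k := by exact_mod_cast hk
    linarith
  · norm_num
  · have : 2 ≤ (Ty G k x w).card := by omega
    have : (2 : ℝ) ≤ (Ty G k x w).card := by exact_mod_cast this
    linarith

/-- dense types -/
theorem dense_flow (hk : 20 ≤ k) (tf : ∀ a b c : V, G.Adj a b → G.Adj b c → ¬ G.Adj a c)
    {t : ℝ} (ht0 : 0 ≤ t) (ht : t + 3 < k) :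
    ∑ x ∈ Cyc G k, ∑ j : ZMod k, ∑ w : V,
      (if (al k (Ty G k x w) : ℝ) < t then dis G k x j w else 0) ≤
      2 * (t + 3) * ∑ x ∈ Cyc G k,
        mu k (univ.filter (fun w => (al k (Ty G k x w) : ℝ) < t + 3)) := by
  -- the integrand for a pair
  set hh : ZMod k → (ZMod k → V) → V → ℝ := fun j x v =>
    ∑ w : V, (if (al k (Ty G k x w) : ℝ) < t ∧ mu k (T G k j x) ≤ 2 ∧ G.Adj (x j) w ∧ ¬ G.Adj v w
      then kap V k * kap V k else 0) with hhdef
  have hk5 : 5 ≤ k := by omega
  have hkap : 0 ≤ kap V k := kap_nonneg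
  have step1 : ∀ x ∈ Cyc G k, ∀ j : ZMod k,
      ∑ w : V, (if (al k (Ty G k x w) : ℝ) < t then dis G k x j w else 0) ≤
        ∑ v ∈ T G k j x, hh j x v := by
    intro x _ j
    rw [hhdef]
    simp only
    rw [sum_comm]
    apply sum_le_sum
    intro w _
    split_ifs with h1
    · unfold dis
      split_ifs with h2
      · obtain ⟨⟨hg1, hg2⟩, hadj⟩ := h2
        have e1 : ∀ v ∈ T G k j x, (if (al k (Ty G k x w) : ℝ) < t ∧ mu k (T G k j x) ≤ 2 ∧
            G.Adj (x j) w ∧ ¬ G.Adj v w then kap V k * kap V k else 0) =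
            (if ¬ G.Adj v w then kap V k * kap V k else 0) := by
          intro v _
          by_cases hv : G.Adj v w
          · simp [hv]
          · simp [hv, h1, hg2, hadj]
        rw [sum_congr rfl e1, ← sum_filter, sum_const, nsmul_eq_mul]
        unfold mu
        calc kap V k * om G k w * (kap V k * ((((T G k j x).filter (fun v => ¬ G.Adj v w)).card : ℕ) : ℝ))
            ≤ kap V k * 1 * (kap V k * ((((T G k j x).filter (fun v => ¬ G.Adj v w)).card : ℕ) : ℝ)) := by
              apply mul_le_mul_of_nonneg_right _ (by positivity)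
              exact mul_le_mul_of_nonneg_left (om_le_one w) hkap
          _ = _ := by ring
      · apply sum_nonneg
        intro v _
        split_ifs <;> positivity
    · apply sum_nonneg
      intro v _
      split_ifs <;> positivity
  have step2 : ∀ j : ZMod k, ∑ x ∈ Cyc G k, ∑ v ∈ T G k j x, hh j x v =
      ∑ x ∈ Cyc G k, ∑ v ∈ T G k j x, hh j (Function.update x j v) (x j) := by
    intro j
    exact (sum_swap hk5 tf j (hh j)).symm
  have step3 : ∀ x ∈ Cyc G k, ∀ j : ZMod k,
      ∑ v ∈ T G k j x, hh j (Function.update x j v) (x j) ≤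
        ∑ w : V, (if (al k (Ty G k x w) : ℝ) < t + 3 then
          (if j - 1 ∉ Ty G k x w ∧ j ∉ Ty G k x w ∧ j + 1 ∉ Ty G k x w then 2 * kap V k else 0)
          else 0) := by
    intro x hx j
    rw [hhdef]
    simp only
    rw [sum_comm]
    apply sum_le_sum
    intro w _
    -- bound each term
    have key : ∀ v ∈ T G k j x,
        (if (al k (Ty G k (Function.update x j v) w) : ℝ) < t ∧
          mu k (T G k j (Function.update x j v)) ≤ 2 ∧
          G.Adj (Function.update x j v j) w ∧ ¬ G.Adj (x j) w then kap V k * kap V k else 0) ≤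
        (if mu k (T G k j x) ≤ 2 ∧ (al k (Ty G k x w) : ℝ) < t + 3 ∧
          (j - 1 ∉ Ty G k x w ∧ j ∉ Ty G k x w ∧ j + 1 ∉ Ty G k x w)
          then kap V k * kap V k else 0) := by
      intro v hv
      by_cases hc : (al k (Ty G k (Function.update x j v) w) : ℝ) < t ∧
          mu k (T G k j (Function.update x j v)) ≤ 2 ∧
          G.Adj (Function.update x j v j) w ∧ ¬ G.Adj (x j) w
      · rw [if_pos hc]
        obtain ⟨h1, h2, h3, h4⟩ := hc
        rw [Function.update_self] at h3
        rw [T_update hk5 hx hv tf] at h2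
        have hTy := Ty_update (x := x) (j := j) h3
        rw [hTy] at h1
        have hal := al_le_insert (Ty G k x w) j
        have hal' : (al k (Ty G k x w) : ℝ) ≤ (al k (insert j (Ty G k x w)) : ℝ) + 3 := by
          exact_mod_cast hal
        have hvT : Ty G k x v = {j - 1, j + 1} := by
          have := hv
          simp only [T, mem_filter, mem_univ, true_and] at this
          exact this
        have hm : j - 1 ∉ Ty G k x w := by
          intro hmem
          have a1 : G.Adj (x (j - 1)) v := by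
            rw [← mem_Ty, hvT]; simp
          exact tf _ _ _ a1 h3 (mem_Ty.1 hmem)
        have hp : j + 1 ∉ Ty G k x w := by
          intro hmem
          have a1 : G.Adj (x (j + 1)) v := by
            rw [← mem_Ty, hvT]; simp
          exact tf _ _ _ a1 h3 (mem_Ty.1 hmem)
        have h0 : j ∉ Ty G k x w := fun hmem => h4 (mem_Ty.1 hmem)
        rw [if_pos ⟨h2, by linarith, hm, h0, hp⟩]
      · rw [if_neg hc]
        split_ifs <;> positivity
    refine (sum_le_sum key).trans ?_
    rw [sum_const, nsmul_eq_mul]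
    by_cases hA : (al k (Ty G k x w) : ℝ) < t + 3
    · rw [if_pos hA]
      by_cases hB : j - 1 ∉ Ty G k x w ∧ j ∉ Ty G k x w ∧ j + 1 ∉ Ty G k x w
      · rw [if_pos hB]
        by_cases hC : mu k (T G k j x) ≤ 2
        · rw [if_pos ⟨hC, hA, hB⟩]
          calc ((T G k j x).card : ℝ) * (kap V k * kap V k) = mu k (T G k j x) * kap V k := by
                unfold mu; ring
            _ ≤ 2 * kap V k := mul_le_mul_of_nonneg_right hC hkap
        · rw [if_neg (fun h => hC h.1), mul_zero]
          positivity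
      · rw [if_neg hB, if_neg (fun h => hB h.2.2), mul_zero]
    · rw [if_neg hA, if_neg (fun h => hA h.2.1), mul_zero]
  have step4 : ∀ x ∈ Cyc G k, ∑ j : ZMod k, ∑ w : V, (if (al k (Ty G k x w) : ℝ) < t + 3 then
          (if j - 1 ∉ Ty G k x w ∧ j ∉ Ty G k x w ∧ j + 1 ∉ Ty G k x w then 2 * kap V k else 0)
          else 0) ≤ 2 * (t + 3) *
            mu k (univ.filter (fun w => (al k (Ty G k x w) : ℝ) < t + 3)) := by
    intro x _
    rw [sum_comm, mu_eq_sum, mul_sum, sum_filter]
    apply sum_le_sum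
    intro w _
    by_cases hA : (al k (Ty G k x w) : ℝ) < t + 3
    · simp only [hA, if_true]
      rw [← sum_filter, sum_const, nsmul_eq_mul, card_free]
      calc (al k (Ty G k x w) : ℝ) * (2 * kap V k) ≤ (t + 3) * (2 * kap V k) :=
            mul_le_mul_of_nonneg_right hA.le (by positivity)
        _ = _ := by ring
    · simp only [hA, if_false, sum_const_zero, le_refl]
  calc ∑ x ∈ Cyc G k, ∑ j : ZMod k, ∑ w : V,
      (if (al k (Ty G k x w) : ℝ) < t then dis G k x j w else 0)
      ≤ ∑ x ∈ Cyc G k, ∑ j : ZMod k, ∑ v ∈ T G k j x, hh j x v :=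
        sum_le_sum (fun x hx => sum_le_sum (fun j _ => step1 x hx j))
    _ = ∑ j : ZMod k, ∑ x ∈ Cyc G k, ∑ v ∈ T G k j x, hh j x v := sum_comm
    _ = ∑ j : ZMod k, ∑ x ∈ Cyc G k, ∑ v ∈ T G k j x, hh j (Function.update x j v) (x j) :=
        sum_congr rfl (fun j _ => step2 j)
    _ = ∑ x ∈ Cyc G k, ∑ j : ZMod k, ∑ v ∈ T G k j x, hh j (Function.update x j v) (x j) :=
        sum_comm
    _ ≤ ∑ x ∈ Cyc G k, ∑ j : ZMod k, ∑ w : V, (if (al k (Ty G k x w) : ℝ) < t + 3 then
          (if j - 1 ∉ Ty G k x w ∧ j ∉ Ty G k x w ∧ j + 1 ∉ Ty G k x w then 2 * kap V k else 0)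
          else 0) := sum_le_sum (fun x hx => sum_le_sum (fun j _ => step3 x hx j))
    _ ≤ ∑ x ∈ Cyc G k, 2 * (t + 3) *
            mu k (univ.filter (fun w => (al k (Ty G k x w) : ℝ) < t + 3)) :=
        sum_le_sum step4
    _ = _ := by rw [← mul_sum]

theorem dense_cost (hk : 20 ≤ k) {t : ℝ} (ht : 9 < (k : ℝ) - t) :
    ((((k : ℝ) - t) / 6) - 1) * ∑ x ∈ Cyc G k,
        mu k (univ.filter (fun w => (al k (Ty G k x w) : ℝ) < t)) ≤ (k : ℝ) * XX G k := by
  have hk0 : (0 : ℝ) < k := by
    have : 0 < k := by omega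
    exact_mod_cast this
  have hk1 : (1 : ℝ) ≤ k := by
    have : 1 ≤ k := by omega
    exact_mod_cast this
  unfold XX
  rw [← mul_assoc, mul_one_div_cancel hk0.ne', one_mul, mul_sum]
  apply sum_le_sum
  intro x _
  rw [mu_eq_sum, sum_filter, mul_sum]
  apply sum_le_sum
  intro w _
  have hkap : 0 ≤ kap V k := kap_nonneg
  have hr0 : 0 ≤ rr k (Ty G k x w) := by
    unfold rr
    split_ifs with h0 h1
    · linarith
    · norm_num
    · have : 2 ≤ (Ty G k x w).card := by omega
      have : (2 : ℝ) ≤ (Ty G k x w).card := by exact_mod_cast this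
      linarith
  split_ifs with hA
  · rw [mul_comm]
    apply mul_le_mul_of_nonneg_left _ hkap
    have h1 := card_le_al (Ty G k x w)
    have h1' : (k : ℝ) ≤ (al k (Ty G k x w) : ℝ) + 3 * ((Ty G k x w).card : ℝ) := by
      exact_mod_cast h1
    have h2 : (3 : ℝ) < ((Ty G k x w).card : ℝ) := by linarith
    have h3 : 3 < (Ty G k x w).card := by exact_mod_cast h2
    unfold rr
    rw [if_neg (by omega), if_neg (by omega)]
    linarith
  · rw [mul_zero]
    exact mul_nonneg hkap hr0

theorem FL_le (hk : 10000 ≤ k) (tf : ∀ a b c : V, G.Adj a b → G.Adj b c → ¬ G.Adj a c) :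
    FL G k ≤ (k : ℝ) / ((k : ℝ) / 100 - 3) * Vis G k + (125 / 1000) * (k : ℝ) * XX G k := by
  have hkr : (10000 : ℝ) ≤ k := by exact_mod_cast hk
  set t : ℝ := (k : ℝ) / 100 with ht
  have ht3 : 0 < t - 3 := by rw [ht]; linarith
  have hd := dense_flow (G := G) (by omega : 20 ≤ k) tf (t := t) (by rw [ht]; positivity)
    (by rw [ht]; linarith)
  have hc := dense_cost (G := G) (by omega : 20 ≤ k) (t := t + 3) (by rw [ht]; linarith)
  have hv := rot_Vis (G := G) (by omega : 20 ≤ k)
  have hX : 0 ≤ XX G k := XX_nonneg (by omega)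
  set M : ℝ := ∑ x ∈ Cyc G k, mu k (univ.filter (fun w => (al k (Ty G k x w) : ℝ) < t + 3))
    with hM
  have hM0 : 0 ≤ M := by
    rw [hM]
    exact sum_nonneg (fun x _ => mu_nonneg _)
  have hsplit : FL G k ≤
      1 / (t - 3) * (∑ x ∈ Cyc G k, ∑ j : ZMod k, ∑ w : V,
        max ((al k (Ty G k x w) : ℝ) - 3) 0 * dis G k x j w) +
      ∑ x ∈ Cyc G k, ∑ j : ZMod k, ∑ w : V,
        (if (al k (Ty G k x w) : ℝ) < t then dis G k x j w else 0) := by
    unfold FL
    rw [mul_sum, ← sum_add_distrib]
    apply sum_le_sum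
    intro x _
    rw [mul_sum, ← sum_add_distrib]
    apply sum_le_sum
    intro j _
    rw [mul_sum, ← sum_add_distrib]
    apply sum_le_sum
    intro w _
    have hdis := dis_nonneg (G := G) x j w
    split_ifs with hA
    · have : 0 ≤ 1 / (t - 3) * (max ((al k (Ty G k x w) : ℝ) - 3) 0 * dis G k x j w) := by
        positivity
      linarith
    · push Not at hA
      rw [add_zero, ← mul_assoc]
      have h1 : 1 ≤ 1 / (t - 3) * max ((al k (Ty G k x w) : ℝ) - 3) 0 := by
        rw [one_div, ← div_eq_inv_mul, le_div_iff₀ ht3, one_mul]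
        exact le_trans (by linarith) (le_max_left _ _)
      calc dis G k x j w = 1 * dis G k x j w := (one_mul _).symm
        _ ≤ _ := mul_le_mul_of_nonneg_right h1 hdis
  have hV : 1 / (t - 3) * (∑ x ∈ Cyc G k, ∑ j : ZMod k, ∑ w : V,
        max ((al k (Ty G k x w) : ℝ) - 3) 0 * dis G k x j w) ≤
      (k : ℝ) / (t - 3) * Vis G k := by
    calc _ ≤ 1 / (t - 3) * ((k : ℝ) * Vis G k) :=
          mul_le_mul_of_nonneg_left hv (by positivity)
      _ = _ := by ring
  have hD : 2 * (t + 3) * M ≤ (125 / 1000) * (k : ℝ) * XX G k := by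
    have hcoef : 2 * (t + 3) ≤ (125 / 1000) * (((k : ℝ) - (t + 3)) / 6 - 1) := by
      rw [ht]; linarith
    calc 2 * (t + 3) * M ≤ (125 / 1000) * (((k : ℝ) - (t + 3)) / 6 - 1) * M :=
          mul_le_mul_of_nonneg_right hcoef hM0
      _ = (125 / 1000) * ((((k : ℝ) - (t + 3)) / 6 - 1) * M) := by ring
      _ ≤ (125 / 1000) * ((k : ℝ) * XX G k) := mul_le_mul_of_nonneg_left hc (by norm_num)
      _ = _ := by ring
  linarith

end

end Pool.Agent.ICyc
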