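import Pool.Agent.Lib.MP_131fce_co.Defs
import Pool.Agent.Lib.MP_131fce_co.Basic
import Pool.Agent.Lib.MP_131fce_co.Rot
import Pool.Agent.Lib.MP_131fce_co.RealIneq
import Pool.Agent.Lib.MP_131fce_co.Deficit

/-!
# Induced k-cycles (MP_131fce_co), IC-13: splitting the gain
-/

set_option autoImplicit false

namespace Pool.Agent.ICyc

open Finset
open scoped Classical


noncomputable section

variable {V : Type} [Fintype V] {G : SimpleGraph V} {k : ℕ} [NeZero k]

theorem gl_dg_pos {x : ZMod k → V} (hx : x ∈ Cyc G k) (j : ZMod k) :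
    0 < dg G k (x j) := by
  have hadj : G.Adj (x j) (x (j + 1)) := by
    have h := (mem_filter.mp hx).2
    exact (h j (j + 1)).2 (Or.inl rfl)
  have : Nonempty V := ⟨x j⟩
  have hk0 : 0 < kap V k := kap_pos
  have hc : 0 < (nb G (x j)).card := card_pos.mpr ⟨x (j + 1), by simp [nb, hadj]⟩
  have hc' : (0 : ℝ) < ((nb G (x j)).card : ℝ) := by exact_mod_cast hc
  unfold dg mu
  positivity

theorem gl_T_rot (a j : ZMod k) (x : ZMod k → V) :
    T G k j (fun i => x (i + a)) = T G k (j + a) x := by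
  ext w
  simp only [T, mem_filter, mem_univ, true_and]
  constructor
  · intro h
    ext i
    have h1 := mem_Ty_rot (G := G) a x w (i - a)
    rw [h, sub_add_cancel] at h1
    rw [← h1]
    simp only [mem_insert, mem_singleton]
    constructor
    · rintro (h2 | h2)
      · left; rw [sub_eq_iff_eq_add] at h2; rw [h2]; ring
      · right; rw [sub_eq_iff_eq_add] at h2; rw [h2]; ring
    · rintro (h2 | h2)
      · left; rw [h2]; ring
      · right; rw [h2]; ring
  · intro h
    ext i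
    rw [mem_Ty_rot (G := G) a x w i, h]
    simp only [mem_insert, mem_singleton]
    constructor
    · rintro (h2 | h2)
      · left; rw [← add_left_inj a, h2]; ring
      · right; rw [← add_left_inj a, h2]; ring
    · rintro (h2 | h2)
      · left; rw [h2]; ring
      · right; rw [h2]; ring

theorem gl_sum_pos (g : (ZMod k → V) → ZMod k → ℝ)
    (hg : ∀ (a : ZMod k) (x : ZMod k → V) (j : ZMod k), g (fun i => x (i + a)) j = g x (j + a))
    (c : ZMod k) :
    ∑ x ∈ Cyc G k, ∑ j : ZMod k, g x j = (k : ℝ) * ∑ x ∈ Cyc G k, g x c := by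
  rw [sum_comm]
  have h1 : ∀ j : ZMod k, ∑ x ∈ Cyc G k, g x j = ∑ x ∈ Cyc G k, g x c := by
    intro j
    rw [← sum_rot (j - c) (fun x => g x c)]
    refine sum_congr rfl fun x _ => ?_
    rw [hg]
    congr 1
    ring
  rw [sum_congr rfl fun j _ => h1 j, sum_const, card_univ, ZMod.card, nsmul_eq_mul]

theorem gl_om_nonneg (y : V) : 0 ≤ om G k y := by
  unfold om
  have : (0 : ℝ) < max 1 (dg G k y / 18) := lt_of_lt_of_le one_pos (le_max_left _ _)
  positivity

theorem gl_dis_nonneg (x : ZMod k → V) (j : ZMod k) (w : V) : 0 ≤ dis G k x j w := by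
  unfold dis
  split_ifs
  · have h1 : 0 ≤ kap V k := kap_nonneg
    have h2 : 0 ≤ om G k w := gl_om_nonneg w
    have h3 : 0 ≤ mu k ((T G k j x).filter (fun v => ¬ G.Adj v w)) := mu_nonneg _
    positivity
  · exact le_refl _

theorem gl_good {x : ZMod k → V} {j : ZMod k} (hg : Good G k x j) :
    ∑ v ∈ T G k j x, kap V k * eps G k (x j) v ≤ Real.exp 1 * ∑ w : V, dis G k x j w := by
  have h1 : ∑ v ∈ T G k j x, kap V k * eps G k (x j) v ≤
      ∑ v ∈ T G k j x, kap V k * (Real.exp 1 * aw G k (x j) v) := by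
    refine sum_le_sum fun v _ => ?_
    exact mul_le_mul_of_nonneg_left (min_le_right _ _) kap_nonneg
  refine h1.trans (le_of_eq ?_)
  have h2 : ∀ v, kap V k * (Real.exp 1 * aw G k (x j) v) = ∑ w ∈ nb G (x j),
      Real.exp 1 * (kap V k * om G k w * (kap V k * (if ¬ G.Adj v w then (1 : ℝ) else 0))) := by
    intro v
    unfold aw
    rw [sum_filter, mul_sum, mul_sum, mul_sum]
    refine sum_congr rfl fun w _ => ?_
    split_ifs <;> ring
  have h3 : ∀ w : V, dis G k x j w = if w ∈ nb G (x j) then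
      kap V k * om G k w * (kap V k * ∑ v ∈ T G k j x, (if ¬ G.Adj v w then (1 : ℝ) else 0))
      else 0 := by
    intro w
    unfold dis
    have h4 : (Good G k x j ∧ G.Adj (x j) w) ↔ w ∈ nb G (x j) := by
      simp [nb, hg]
    rw [sum_boole]
    simp only [h4]
    rfl
  rw [sum_congr rfl fun v _ => h2 v, sum_comm, sum_congr rfl fun w _ => h3 w,
    sum_ite_mem, univ_inter, mul_sum]
  refine sum_congr rfl fun w _ => ?_
  rw [← mul_sum, ← mul_sum, ← mul_sum]

theorem gl_JJ_nonneg {x : ZMod k → V} (hx : x ∈ Cyc G k) (j : ZMod k) :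
    0 ≤ JJ (dg G k (x j) / 2) :=
  le_trans (sq_nonneg _) (JJ_ge (half_pos (gl_dg_pos hx j)))

theorem gl_point {x : ZMod k → V} (hx : x ∈ Cyc G k) (j : ZMod k) :
    ∑ v ∈ T G k j x, kap V k * eps G k (x j) v ≤
      (if 2 < mu k (T G k j x) then mu k (T G k j x) else 0) +
        1 / 2 * JJ (dg G k (x j) / 2) + Real.exp 1 * ∑ w : V, dis G k x j w := by
  have hJ := gl_JJ_nonneg hx j
  have hD : 0 ≤ Real.exp 1 * ∑ w : V, dis G k x j w :=
    mul_nonneg (Real.exp_pos 1).le (sum_nonneg fun w _ => gl_dis_nonneg x j w)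
  have hT : ∑ v ∈ T G k j x, kap V k * eps G k (x j) v ≤ mu k (T G k j x) := by
    have h1 : ∑ v ∈ T G k j x, kap V k * eps G k (x j) v ≤ ∑ _v ∈ T G k j x, kap V k := by
      refine sum_le_sum fun v _ => ?_
      have h2 : eps G k (x j) v ≤ 1 := min_le_left _ _
      calc kap V k * eps G k (x j) v ≤ kap V k * 1 := mul_le_mul_of_nonneg_left h2 kap_nonneg
        _ = kap V k := mul_one _
    rw [sum_const, nsmul_eq_mul] at h1
    unfold mu
    linarith [mul_comm (kap V k) ((T G k j x).card : ℝ)]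
  by_cases hg : Good G k x j
  · have h1 := gl_good hg
    have h2 : (0 : ℝ) ≤ (if 2 < mu k (T G k j x) then mu k (T G k j x) else 0) := by
      split_ifs
      · exact mu_nonneg _
      · exact le_refl _
    linarith
  · by_cases h2 : 2 < mu k (T G k j x)
    · rw [if_pos h2]
      linarith
    · rw [if_neg h2]
      have h3 : 18 < dg G k (x j) := by
        by_contra h4
        exact hg ⟨not_lt.mp h4, not_lt.mp h2⟩
      have h5 : 4 ≤ JJ (dg G k (x j) / 2) := JJ_nine (by linarith)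
      linarith [not_lt.mp h2]

theorem gl_mass (hk : 20 ≤ k) :
    ∑ x ∈ Cyc G k, ∑ j : ZMod k, (if 2 < mu k (T G k j x) then mu k (T G k j x) else 0) ≤
      12 * (k : ℝ) / ((k : ℝ) - 5) * ∑ l ∈ Icc 3 (k - 3), cc G k l := by
  have hk5 : 5 ≤ k := by omega
  set A := ∑ x ∈ Cyc G k, ∑ j : ZMod k, (if 2 < mu k (T G k j x) then mu k (T G k j x) else 0)
    with hA
  have h1 : ∀ l ∈ Icc 3 (k - 3), A ≤ (k : ℝ) * (12 * cc G k l) := by
    intro l hl
    rw [mem_Icc] at hl
    have hl3 : l + 3 ≤ k := by omega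
    have h2 : A = (k : ℝ) * ∑ x ∈ Cyc G k,
        (if 2 < mu k (T G k ((l + 1 : ℕ) : ZMod k) x) then
          mu k (T G k ((l + 1 : ℕ) : ZMod k) x) else 0) := by
      rw [hA]
      refine gl_sum_pos (G := G) (fun x j => (if 2 < mu k (T G k j x) then
        mu k (T G k j x) else 0)) ?_ ((l + 1 : ℕ) : ZMod k)
      intro a x j
      simp only [gl_T_rot]
    rw [h2]
    refine mul_le_mul_of_nonneg_left ?_ (Nat.cast_nonneg k)
    refine le_trans (sum_le_sum fun x _ => ?_) (mass_two hk5 hl3)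
    have h3 : mu k (T G k ((l + 1 : ℕ) : ZMod k) x) ≤ mu k (F G k l x) :=
      mu_mono (T_subset_F hk5 hl3)
    by_cases h4 : 2 < mu k (T G k ((l + 1 : ℕ) : ZMod k) x)
    · rw [if_pos h4, if_pos (lt_of_lt_of_le h4 h3)]
      exact h3
    · rw [if_neg h4]
      split_ifs
      · exact mu_nonneg _
      · exact le_refl _
  have h5 : ((Icc 3 (k - 3)).card : ℝ) = (k : ℝ) - 5 := by
    rw [Nat.card_Icc]
    have h6 : k - 3 + 1 - 3 = k - 5 := by omega
    rw [h6, Nat.cast_sub hk5]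
    norm_num
  have h7 : ((k : ℝ) - 5) * A ≤ (k : ℝ) * (12 * ∑ l ∈ Icc 3 (k - 3), cc G k l) := by
    rw [← h5, ← nsmul_eq_mul, ← sum_const, mul_sum, mul_sum]
    exact sum_le_sum h1
  have hk20 : (20 : ℝ) ≤ (k : ℝ) := by exact_mod_cast hk
  have h8 : (0 : ℝ) < (k : ℝ) - 5 := by linarith
  rw [div_mul_eq_mul_div, le_div_iff₀ h8]
  nlinarith [h7]

theorem Gain_le (hk : 20 ≤ k) (tf : ∀ a b c : V, G.Adj a b → G.Adj b c → ¬ G.Adj a c) :
    Gain G k ≤ 12 * (k : ℝ) / ((k : ℝ) - 5) * ∑ l ∈ Icc 3 (k - 3), cc G k l +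
      (k : ℝ) / 2 * calJ G k + Real.exp 1 * FL G k := by
  have hk5 : 5 ≤ k := by omega
  have h1 : Gain G k ≤ ∑ x ∈ Cyc G k, ∑ j : ZMod k,
      ((if 2 < mu k (T G k j x) then mu k (T G k j x) else 0) +
        1 / 2 * JJ (dg G k (x j) / 2) + Real.exp 1 * ∑ w : V, dis G k x j w) :=
    sum_le_sum fun x hx => sum_le_sum fun j _ => gl_point hx j
  have h2 : ∑ x ∈ Cyc G k, ∑ j : ZMod k, 1 / 2 * JJ (dg G k (x j) / 2) =
      (k : ℝ) / 2 * calJ G k := by
    have h3 := gl_sum_pos (G := G) (k := k) (fun x j => 1 / 2 * JJ (dg G k (x j) / 2))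
      (by intro a x j; rfl) 1
    rw [h3]
    unfold calJ
    rw [← mul_sum]
    ring
  have h4 : ∑ x ∈ Cyc G k, ∑ j : ZMod k, Real.exp 1 * ∑ w : V, dis G k x j w =
      Real.exp 1 * FL G k := by
    unfold FL
    rw [mul_sum]
    refine sum_congr rfl fun x _ => ?_
    rw [mul_sum]
  have h5 := gl_mass (G := G) hk
  simp only [sum_add_distrib] at h1
  rw [h2, h4] at h1
  linarith

theorem Lam_le (hk : 20 ≤ k) : Lam G k ≤ 1 / 2 * calJ G k := by
  unfold Lam calJ
  rw [mul_sum]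
  exact sum_le_sum fun x hx => lam_le (gl_dg_pos hx 1)

end

end Pool.Agent.ICyc
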