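import Pool.Agent.Lib.MP_131fce_co.Defs
import Pool.Agent.Lib.MP_131fce_co.Rot
import Pool.Agent.Lib.MP_131fce_co.Cond

set_option autoImplicit false

namespace Pool.Agent.ICyc

open Finset
open scoped Classical

variable {V : Type} [Fintype V] {G : SimpleGraph V} {k : ℕ} [NeZero k]

lemma lc_cyl_succ (l : ℕ) (x : ZMod k → V) :
    (cyl G k l x).filter (fun x' => x' ((l + 1 : ℕ) : ZMod k) = x ((l + 1 : ℕ) : ZMod k)) =
      cyl G k (l + 1) x := by
  unfold cyl
  rw [filter_filter]
  apply filter_congr
  intro x' _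
  constructor
  · rintro ⟨h1, h2⟩ i hi
    rcases Nat.lt_or_ge i (l + 1) with h | h
    · exact h1 i (by omega)
    · have : i = l + 1 := by omega
      subst this
      exact h2
  · intro h
    exact ⟨fun i hi => h i (by omega), h (l + 1) le_rfl⟩

lemma lc_card_pos {x : ZMod k → V} (hx : x ∈ Cyc G k) (l : ℕ) :
    (0 : ℝ) < ((cyl G k l x).card : ℝ) := by
  have : 0 < (cyl G k l x).card := card_pos.2 ⟨x, self_mem_cyl hx l⟩
  exact_mod_cast this

lemma lc_log_pr {x : ZMod k → V} (hx : x ∈ Cyc G k) (l : ℕ) :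
    -Real.log (pr G k l x (x ((l + 1 : ℕ) : ZMod k))) =
      Real.log ((cyl G k l x).card : ℝ) - Real.log ((cyl G k (l + 1) x).card : ℝ) := by
  unfold pr
  rw [lc_cyl_succ, Real.log_div (lc_card_pos hx _).ne' (lc_card_pos hx _).ne']
  ring

lemma lc_telescope {x : ZMod k → V} (hx : x ∈ Cyc G k) (m : ℕ) :
    ∑ l ∈ Icc 3 (m + 3), -Real.log (pr G k l x (x ((l + 1 : ℕ) : ZMod k))) =
      Real.log ((cyl G k 3 x).card : ℝ) - Real.log ((cyl G k (m + 4) x).card : ℝ) := by
  induction m with
  | zero =>
    have : Icc 3 (0 + 3) = {3} := by decide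
    rw [this, sum_singleton, lc_log_pr hx]
  | succ m ih =>
    have h1 : Icc 3 (m + 1 + 3) = insert (m + 4) (Icc 3 (m + 3)) := by
      ext i; simp only [mem_Icc, mem_insert]; omega
    have h2 : m + 4 ∉ Icc 3 (m + 3) := by simp
    rw [h1, sum_insert h2, ih, lc_log_pr hx (m + 4)]
    ring_nf

/-- every element of `ZMod k` is the cast of a natural number `< k` -/
lemma lc_exists_nat (i : ZMod k) : ∃ n : ℕ, n < k ∧ (n : ZMod k) = i :=
  ⟨i.val, ZMod.val_lt i, ZMod.natCast_zmod_val i⟩

omit [NeZero k] in
lemma lc_neg_one (hk : 20 ≤ k) : ((k - 1 : ℕ) : ZMod k) = -1 := by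
  have h1 : ((k - 1 : ℕ) : ZMod k) + ((1 : ℕ) : ZMod k) = ((k : ℕ) : ZMod k) := by
    rw [← Nat.cast_add]; congr 1; omega
  rw [ZMod.natCast_self, Nat.cast_one] at h1
  exact eq_neg_of_add_eq_zero_left h1

lemma lc_card (hk : 20 ≤ k) (tf : ∀ a b c : V, G.Adj a b → G.Adj b c → ¬ G.Adj a c)
    {x : ZMod k → V} (hx : x ∈ Cyc G k) :
    (cyl G k (k - 2) x).card = (T G k (-1) x).card := by
  apply card_nbij' (fun x' => x' (-1)) (fun v => Function.update x (-1) v)
  · -- maps to
    intro x' hx'
    have hx'' : x' ∈ cyl G k (k - 2) x := hx'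
    unfold cyl at hx''
    rw [mem_filter] at hx''
    obtain ⟨hc', hag⟩ := hx''
    have hag' : ∀ i : ZMod k, i ≠ -1 → x' i = x i := by
      intro i hi
      obtain ⟨n, hn, rfl⟩ := lc_exists_nat i
      apply hag
      by_contra hcon
      have : n = k - 1 := by omega
      subst this
      exact hi (lc_neg_one hk)
    have hcy' : IsCyc G k x' := by
      have := hc'; unfold Cyc at this; exact (mem_filter.1 this).2
    have hcy : IsCyc G k x := by
      have := hx; unfold Cyc at this; exact (mem_filter.1 this).2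
    show x' (-1) ∈ T G k (-1) x
    unfold T
    rw [mem_filter]
    refine ⟨mem_univ _, ?_⟩
    ext i
    unfold Ty
    rw [mem_filter]
    have hz : (0 : ZMod k) ≠ -1 := by
      rw [← lc_neg_one hk]
      intro h
      have h2 := congrArg ZMod.val h
      rw [ZMod.val_zero, ZMod.val_natCast_of_lt (by omega)] at h2
      omega
    by_cases hi : i = -1
    · subst hi
      have h0 : G.Adj (x (-1)) (x 0) := (hcy _ _).2 (Or.inl (by ring))
      have h0' : G.Adj (x' (-1)) (x' 0) := (hcy' _ _).2 (Or.inl (by ring))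
      rw [hag' 0 hz] at h0'
      have hn : ¬ G.Adj (x (-1)) (x' (-1)) := tf _ _ _ h0 h0'.symm
      have hne : ¬ ((-1 : ZMod k) ∈ ({-1 - 1, -1 + 1} : Finset (ZMod k))) := by
        rw [mem_insert, mem_singleton]
        rintro (h | h)
        · have h1 : (1 : ZMod k) = 0 := by
            have := congrArg (fun t : ZMod k => t + 1 + 1) h
            simpa using this
          have h2 := congrArg (fun t : ZMod k => -t) h1
          simp only [neg_zero] at h2
          exact hz h2.symm
        · apply hz
          rw [← neg_add_cancel (1 : ZMod k)]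
          exact h.symm
      constructor
      · intro h; exact absurd h.2 hn
      · intro h; exact absurd h hne
    · rw [← hag' i hi, hcy' i (-1)]
      rw [mem_insert, mem_singleton]
      constructor
      · rintro ⟨_, h | h⟩
        · left; rw [h]; ring
        · right; exact h
      · rintro (h | h)
        · exact ⟨mem_univ _, Or.inl (by rw [h]; ring)⟩
        · exact ⟨mem_univ _, Or.inr h⟩
  · -- inverse maps to
    intro v hv
    have hv' : v ∈ T G k (-1) x := hv
    show Function.update x (-1) v ∈ cyl G k (k - 2) x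
    unfold cyl
    rw [mem_filter]
    refine ⟨update_mem_Cyc (by omega) hx hv', fun i hi => ?_⟩
    rw [Function.update_of_ne]
    intro h
    rw [← lc_neg_one hk] at h
    have h2 := congrArg ZMod.val h
    rw [ZMod.val_natCast_of_lt (by omega), ZMod.val_natCast_of_lt (by omega)] at h2
    omega
  · -- left inverse
    intro x' hx'
    have hx'' : x' ∈ cyl G k (k - 2) x := hx'
    unfold cyl at hx''
    rw [mem_filter] at hx''
    obtain ⟨_, hag⟩ := hx''
    show Function.update x (-1) (x' (-1)) = x'
    funext i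
    by_cases hi : i = -1
    · subst hi; simp
    · rw [Function.update_of_ne hi]
      obtain ⟨n, hn, rfl⟩ := lc_exists_nat i
      symm
      apply hag
      by_contra hcon
      have : n = k - 1 := by omega
      subst this
      exact hi (lc_neg_one hk)
  · intro v _
    show Function.update x (-1) v (-1) = v
    simp

theorem log_card_cyl (hk : 20 ≤ k) (tf : ∀ a b c : V, G.Adj a b → G.Adj b c → ¬ G.Adj a c)
    {x : ZMod k → V} (hx : x ∈ Cyc G k) :
    Real.log ((cyl G k 3 x).card : ℝ) =
      ∑ l ∈ Icc 3 (k - 3), -Real.log (pr G k l x (x ((l + 1 : ℕ) : ZMod k))) +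
        Real.log ((T G k (-1) x).card : ℝ) := by
  obtain ⟨m, rfl⟩ : ∃ m, k = m + 6 := ⟨k - 6, by omega⟩
  have h := lc_telescope hx m
  have e1 : m + 6 - 3 = m + 3 := by omega
  have e2 : m + 6 - 2 = m + 4 := by omega
  rw [e1, h, ← lc_card hk tf hx, e2]
  ring

end Pool.Agent.ICyc
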