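import Pool.Agent.Lib.MP_131fce_co.Defs
import Pool.Agent.Lib.MP_131fce_co.Basic

set_option autoImplicit false

namespace Pool.Agent.ICyc

open Finset
open scoped Classical

variable {V : Type} [Fintype V] {G : SimpleGraph V} {k : ℕ} [NeZero k]

lemma sp_adj_two_three (hk : 20 ≤ k) {x : ZMod k → V} (hx : x ∈ Cyc G k) :
    G.Adj (x 2) (x 3) := by
  have h := (adj_nat (by omega) hx (i := 2) (j := 3) (by omega) (by omega)).2 (Or.inl rfl)
  exact_mod_cast h

lemma sp_adj_one_two (hk : 20 ≤ k) {x : ZMod k → V} (hx : x ∈ Cyc G k) :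
    G.Adj (x 1) (x 2) := by
  have h := (adj_nat (by omega) hx (i := 1) (j := 2) (by omega) (by omega)).2 (Or.inl rfl)
  exact_mod_cast h

lemma sp_adj_one_zero (hk : 20 ≤ k) {x : ZMod k → V} (hx : x ∈ Cyc G k) :
    G.Adj (x 1) (x 0) := by
  have h := (adj_nat (by omega) hx (i := 1) (j := 0) (by omega) (by omega)).2
    (Or.inr (Or.inl rfl))
  exact_mod_cast h

lemma sp_not_adj_zero_three (hk : 20 ≤ k) {x : ZMod k → V} (hx : x ∈ Cyc G k) :
    ¬ G.Adj (x 0) (x 3) := by
  have h := (adj_nat (by omega) hx (i := 0) (j := 3) (by omega) (by omega)).not.2 (by omega)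
  exact_mod_cast h

omit [NeZero k] in
lemma sp_om_pos (y : V) : 0 < om G k y := by
  unfold om
  positivity

lemma sp_aw_nonneg (u z : V) : 0 ≤ aw G k u z := by
  unfold aw
  exact mul_nonneg kap_nonneg (sum_nonneg fun y _ => (sp_om_pos y).le)

lemma sp_eps_nonneg (u z : V) : 0 ≤ eps G k u z := by
  unfold eps
  exact le_min zero_le_one (mul_nonneg (Real.exp_pos 1).le (sp_aw_nonneg u z))

theorem eps_pos_of_cyc (hk : 20 ≤ k) {x : ZMod k → V} (hx : x ∈ Cyc G k) :
    0 < eps G k (x 2) (x 0) := by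
  have : Nonempty V := ⟨x 0⟩
  have h3 : x 3 ∈ (nb G (x 2)).filter (fun y => ¬ G.Adj (x 0) y) := by
    rw [mem_filter]
    refine ⟨?_, sp_not_adj_zero_three hk hx⟩
    unfold nb
    simpa using sp_adj_two_three hk hx
  have hsum : 0 < ∑ y ∈ (nb G (x 2)).filter (fun y => ¬ G.Adj (x 0) y), om G k y :=
    lt_of_lt_of_le (sp_om_pos (x 3))
      (single_le_sum (f := fun y => om G k y) (fun y _ => (sp_om_pos y).le) h3)
  unfold eps aw
  exact lt_min one_pos (mul_pos (Real.exp_pos 1) (mul_pos kap_pos hsum))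

/-- normalised weights are sub-stochastic -/
lemma sp_normal (S : Finset V) (w : V → ℝ) :
    ∑ y : V, (if y ∈ S then w y / ∑ z ∈ S, w z else 0) ≤ 1 := by
  rw [← sum_filter]
  have h : univ.filter (fun y => y ∈ S) = S := by ext y; simp
  rw [h, ← sum_div]
  exact div_self_le_one _

lemma sp_chain (p : V → ℝ) (K1 : V → V → ℝ) (K2 : V → V → V → ℝ) (K3 : V → V → V → V → ℝ)
    (hp : ∀ a, 0 ≤ p a) (h1 : ∀ a b, 0 ≤ K1 a b) (h2 : ∀ a b c, 0 ≤ K2 a b c)
    (sp : ∑ a, p a ≤ 1) (s1 : ∀ a, ∑ b, K1 a b ≤ 1)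
    (s2 : ∀ a b, ∑ c, K2 a b c ≤ 1) (s3 : ∀ a b c, ∑ d, K3 a b c d ≤ 1) :
    ∑ a, ∑ b, ∑ c, ∑ d, p a * (K1 a b * (K2 a b c * K3 a b c d)) ≤ 1 := by
  refine le_trans (sum_le_sum (g := fun a => p a) fun a _ => ?_) sp
  have hb : ∀ b, ∑ c, ∑ d, p a * (K1 a b * (K2 a b c * K3 a b c d)) ≤ p a * K1 a b := by
    intro b
    have hc : ∀ c, ∑ d, p a * (K1 a b * (K2 a b c * K3 a b c d)) ≤ p a * (K1 a b * K2 a b c) := by
      intro c
      have e : ∑ d, p a * (K1 a b * (K2 a b c * K3 a b c d))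
          = (p a * (K1 a b * K2 a b c)) * ∑ d, K3 a b c d := by
        rw [mul_sum]; exact sum_congr rfl fun d _ => by ring
      rw [e]
      have h0 : 0 ≤ p a * (K1 a b * K2 a b c) :=
        mul_nonneg (hp a) (mul_nonneg (h1 a b) (h2 a b c))
      nlinarith [s3 a b c]
    refine (sum_le_sum fun c _ => hc c).trans ?_
    have e : ∑ c, p a * (K1 a b * K2 a b c) = (p a * K1 a b) * ∑ c, K2 a b c := by
      rw [mul_sum]; exact sum_congr rfl fun d _ => by ring
    rw [e]
    have h0 : 0 ≤ p a * K1 a b := mul_nonneg (hp a) (h1 a b)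
    nlinarith [s2 a b]
  refine (sum_le_sum fun b _ => hb b).trans ?_
  rw [← mul_sum]
  nlinarith [s1 a, hp a]

/-- uniform law on the neighbourhood -/
noncomputable def spA (G : SimpleGraph V) (a b : V) : ℝ :=
  if b ∈ nb G a then (1 : ℝ) / ((nb G a).card : ℝ) else 0

/-- the law of `x 0` -/
noncomputable def spB (G : SimpleGraph V) (k : ℕ) (a b c : V) : ℝ :=
  if c ∈ nb G a then eps G k b c / ∑ z ∈ nb G a, eps G k b z else 0

/-- the law of `x 3` -/
noncomputable def spC (G : SimpleGraph V) (k : ℕ) (b c d : V) : ℝ :=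
  if d ∈ (nb G b).filter (fun y => ¬ G.Adj c y) then
    om G k d / ∑ y ∈ (nb G b).filter (fun y => ¬ G.Adj c y), om G k y else 0

lemma spA_nonneg (a b : V) : 0 ≤ spA G a b := by
  unfold spA; split_ifs <;> positivity

lemma spB_nonneg (a b c : V) : 0 ≤ spB G k a b c := by
  unfold spB; split_ifs
  · exact div_nonneg (sp_eps_nonneg _ _) (sum_nonneg fun z _ => sp_eps_nonneg _ _)
  · exact le_rfl

lemma spC_nonneg (b c d : V) : 0 ≤ spC G k b c d := by
  unfold spC; split_ifs
  · exact div_nonneg (sp_om_pos _).le (sum_nonneg fun z _ => (sp_om_pos _).le)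
  · exact le_rfl

/-- the kernel as a function of the four vertices -/
noncomputable def spQ (G : SimpleGraph V) (k : ℕ) (t : V × V × V × V) : ℝ :=
  (1 / (Fintype.card V : ℝ)) * (spA G t.1 t.2.1 * (spB G k t.1 t.2.1 t.2.2.1 *
    spC G k t.2.1 t.2.2.1 t.2.2.2))

lemma spQ_nonneg (t : V × V × V × V) : 0 ≤ spQ G k t := by
  unfold spQ
  exact mul_nonneg (by positivity) (mul_nonneg (spA_nonneg _ _) (mul_nonneg (spB_nonneg _ _ _)
    (spC_nonneg _ _ _)))

lemma spQ_sum : ∑ t : V × V × V × V, spQ G k t ≤ 1 := by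
  rw [Fintype.sum_prod_type]
  simp_rw [Fintype.sum_prod_type]
  refine sp_chain (fun _ => 1 / (Fintype.card V : ℝ)) (spA G) (spB G k)
    (fun _ b c d => spC G k b c d) (fun _ => by positivity) spA_nonneg spB_nonneg ?_ ?_ ?_ ?_
  · rw [sum_const, card_univ, nsmul_eq_mul, mul_one_div]
    exact div_self_le_one _
  · intro a
    have := sp_normal (nb G a) (fun _ => (1 : ℝ))
    simpa [spA] using this
  · intro a b
    exact sp_normal (nb G a) (fun z => eps G k b z)
  · intro a b c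
    exact sp_normal ((nb G b).filter (fun y => ¬ G.Adj c y)) (fun y => om G k y)

/-- the four first vertices -/
def spPhi (k : ℕ) [NeZero k] (x : ZMod k → V) : V × V × V × V := (x 1, x 2, x 0, x 3)

lemma spQ_eq (hk : 20 ≤ k) {x : ZMod k → V} (hx : x ∈ Cyc G k) :
    spQ G k (spPhi k x) = qq G k x := by
  have m2 : x 2 ∈ nb G (x 1) := by
    unfold nb; simpa using sp_adj_one_two hk hx
  have m0 : x 0 ∈ nb G (x 1) := by
    unfold nb; simpa using sp_adj_one_zero hk hx
  have m3 : x 3 ∈ (nb G (x 2)).filter (fun y => ¬ G.Adj (x 0) y) := by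
    rw [mem_filter]
    refine ⟨?_, sp_not_adj_zero_three hk hx⟩
    unfold nb; simpa using sp_adj_two_three hk hx
  show (1 / (Fintype.card V : ℝ)) * (spA G (x 1) (x 2) * (spB G k (x 1) (x 2) (x 0) *
    spC G k (x 2) (x 0) (x 3))) = qq G k x
  unfold spA spB spC qq
  rw [if_pos m2, if_pos m0, if_pos m3]
  ring

lemma spCyl_eq {x : ZMod k → V} : cyl G k 3 x = (Cyc G k).filter (fun x' => spPhi k x' = spPhi k x) := by
  unfold cyl
  apply filter_congr
  intro x' _
  unfold spPhi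
  constructor
  · intro h
    have e0 := h 0 (by omega)
    have e1 := h 1 (by omega)
    have e2 := h 2 (by omega)
    have e3 := h 3 (by omega)
    norm_num at e0 e1 e2 e3
    rw [e0, e1, e2, e3]
  · intro h i hi
    simp only [Prod.mk.injEq] at h
    obtain ⟨e1, e2, e0, e3⟩ := h
    interval_cases i
    · simpa using e0
    · simpa using e1
    · simpa using e2
    · simpa using e3

theorem sub_prob (hk : 20 ≤ k) (_hne : (Cyc G k).Nonempty) :
    ∑ x ∈ Cyc G k, qq G k x / ((cyl G k 3 x).card : ℝ) ≤ 1 := by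
  rw [← sum_fiberwise (Cyc G k) (spPhi k)]
  refine le_trans (sum_le_sum (g := fun t => spQ G k t) ?_) spQ_sum
  intro t _
  have hfib : ∀ x ∈ (Cyc G k).filter (fun x => spPhi k x = t),
      qq G k x / ((cyl G k 3 x).card : ℝ) =
        spQ G k t / (((Cyc G k).filter (fun x => spPhi k x = t)).card : ℝ) := by
    intro x hx
    rw [mem_filter] at hx
    obtain ⟨hx1, hx2⟩ := hx
    subst hx2
    rw [spCyl_eq, spQ_eq hk hx1]
  rw [sum_congr rfl hfib, sum_const, nsmul_eq_mul]
  rcases Nat.eq_zero_or_pos ((Cyc G k).filter (fun x => spPhi k x = t)).card with h0 | h0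
  · rw [h0]; simpa using spQ_nonneg (G := G) (k := k) t
  · have : (0 : ℝ) < (((Cyc G k).filter (fun x => spPhi k x = t)).card : ℝ) := by
      exact_mod_cast h0
    rw [mul_div_cancel₀ _ this.ne']

end Pool.Agent.ICyc
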