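import Pool.Agent.Lib.MP_131fce_co.Defs
import Pool.Agent.Lib.MP_131fce_co.Basic
import Pool.Agent.Lib.MP_131fce_co.Rot

/-! # Far pairs are seen as missing candidates (IC-9b) -/

set_option autoImplicit false

namespace Pool.Agent.ICyc

open Finset
open scoped Classical

noncomputable section

variable {V : Type} [Fintype V] {G : SimpleGraph V} {k : ℕ} [NeZero k]

private theorem natCast_ne_zero' {m : ℕ} (h0 : 0 < m) (hm : m < k) : ((m : ℕ) : ZMod k) ≠ 0 := by
  intro h
  rw [ZMod.natCast_eq_zero_iff] at h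
  exact absurd (Nat.le_of_dvd h0 h) (by omega)

private theorem card_two_at {S : Finset (ZMod k)} (h2 : S.card = 2) {p q : ZMod k} (hp : p ∈ S)
    (hq : q ∈ S) (hpq : p ≠ q) : S = {p, q} := by
  symm
  apply eq_of_subset_of_card_le
  · intro z hz
    rw [mem_insert, mem_singleton] at hz
    rcases hz with rfl | rfl
    · exact hp
    · exact hq
  · rw [h2, card_pair hpq]

/-- the rotations in which a far pair is seen -/
private theorem far_count (hk : 20 ≤ k) {S : Finset (ZMod k)} (h2 : S.card = 2) :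
    k ≤ (univ.filter (fun a : ZMod k => a ∉ S ∧ a + 1 ∉ S ∧ a + 2 ∉ S ∧
      ¬ (a - 1 ∈ S ∧ a - 4 ∈ S))).card + 7 := by
  have hB : (univ.filter (fun a : ZMod k => a - 1 ∈ S ∧ a - 4 ∈ S)).card ≤ 1 := by
    rw [card_le_one]
    intro a ha b hb
    simp only [mem_filter, mem_univ, true_and] at ha hb
    by_contra hne
    have h3 : (3 : ZMod k) ≠ 0 := by
      have := natCast_ne_zero' (k := k) (m := 3) (by norm_num) (by omega)
      exact_mod_cast this
    have h6 : (6 : ZMod k) ≠ 0 := by
      have := natCast_ne_zero' (k := k) (m := 6) (by norm_num) (by omega)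
      exact_mod_cast this
    have hd : a - 1 ≠ a - 4 := by
      intro h
      apply h3
      linear_combination h
    have hS := card_two_at h2 ha.1 ha.2 hd
    have hb1 := hb.1
    have hb2 := hb.2
    rw [hS, mem_insert, mem_singleton] at hb1 hb2
    rcases hb1 with e1 | e1
    · apply hne
      linear_combination -e1
    · rcases hb2 with e2 | e2
      · apply h6
        linear_combination e1 - e2
      · apply hne
        linear_combination -e2
  have hsub : (univ : Finset (ZMod k)) ⊆
      (univ.filter (fun a : ZMod k => a ∉ S ∧ a + 1 ∉ S ∧ a + 2 ∉ S ∧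
        ¬ (a - 1 ∈ S ∧ a - 4 ∈ S))) ∪ ((univ.filter (fun a : ZMod k => a - 1 ∈ S ∧ a - 4 ∈ S)) ∪
        (S ∪ (S.image (fun a => a - 1) ∪ S.image (fun a => a - 2)))) := by
    intro a _
    simp only [mem_union, mem_filter, mem_univ, true_and, mem_image]
    by_cases h0 : a ∈ S
    · right; right; left; exact h0
    by_cases h1 : a + 1 ∈ S
    · right; right; right; left; exact ⟨a + 1, h1, by ring⟩
    by_cases h2 : a + 2 ∈ S
    · right; right; right; right; exact ⟨a + 2, h2, by ring⟩
    by_cases h3 : a - 1 ∈ S ∧ a - 4 ∈ S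
    · right; left; exact h3
    left; exact ⟨h0, h1, h2, h3⟩
  have h := card_le_card hsub
  rw [card_univ, ZMod.card] at h
  have g1 := card_union_le (univ.filter (fun a : ZMod k => a ∉ S ∧ a + 1 ∉ S ∧ a + 2 ∉ S ∧
        ¬ (a - 1 ∈ S ∧ a - 4 ∈ S))) ((univ.filter (fun a : ZMod k => a - 1 ∈ S ∧ a - 4 ∈ S)) ∪
        (S ∪ (S.image (fun a => a - 1) ∪ S.image (fun a => a - 2))))
  have g2 := card_union_le (univ.filter (fun a : ZMod k => a - 1 ∈ S ∧ a - 4 ∈ S))
        (S ∪ (S.image (fun a => a - 1) ∪ S.image (fun a => a - 2)))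
  have g3 := card_union_le S (S.image (fun a => a - 1) ∪ S.image (fun a => a - 2))
  have g4 := card_union_le (S.image (fun a : ZMod k => a - 1)) (S.image (fun a => a - 2))
  have g5 : (S.image (fun a : ZMod k => a - 1)).card ≤ S.card := card_image_le
  have g6 : (S.image (fun a : ZMod k => a - 2)).card ≤ S.card := card_image_le
  omega

/-- the first hit -/
private theorem first_hit (hk : 20 ≤ k) {S : Finset (ZMod k)} (hS : IsFar k S)
    (hind : ∀ i ∈ S, i + 1 ∉ S) {a : ZMod k} (h0 : a ∉ S) (h1 : a + 1 ∉ S) (h2 : a + 2 ∉ S)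
    (h4 : ¬ (a - 1 ∈ S ∧ a - 4 ∈ S)) :
    ∃ s ∈ Icc 3 (k - 5), (∀ i : ℕ, i < s → (i : ZMod k) + a ∉ S) ∧ (s : ZMod k) + a ∈ S ∧
      ((s + 2 : ℕ) : ZMod k) + a ∉ S := by
  obtain ⟨hc, hfar⟩ := hS
  have hpos : 0 < S.card := by omega
  obtain ⟨p, hp⟩ := card_pos.1 hpos
  have hval : ∀ q : ZMod k, (((q - a).val : ℕ) : ZMod k) + a = q := by
    intro q
    rw [ZMod.natCast_zmod_val, sub_add_cancel]
  have hex : ∃ s : ℕ, (s : ZMod k) + a ∈ S := ⟨(p - a).val, by rw [hval]; exact hp⟩
  set s := Nat.find hex with hs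
  have hsS : (s : ZMod k) + a ∈ S := Nat.find_spec hex
  have hmin : ∀ i : ℕ, i < s → (i : ZMod k) + a ∉ S := fun i hi => Nat.find_min hex hi
  have hlow : ∀ q ∈ S, s ≤ (q - a).val := by
    intro q hq
    apply Nat.find_min'
    rw [hval]; exact hq
  have h2ne : (2 : ZMod k) ≠ 0 := by
    have := natCast_ne_zero' (k := k) (m := 2) (by norm_num) (by omega)
    exact_mod_cast this
  -- no element at distance two
  have hno2 : ∀ z : ZMod k, z ∈ S → z + 2 ∉ S := by
    intro z hz hz2
    have hne : z ≠ z + 2 := by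
      intro h
      apply h2ne
      linear_combination -h
    have := card_two_at hc hz hz2 hne
    apply hfar (z + 1)
    rw [this]
    congr 1
    · ring
    · congr 1; ring
  have hs3 : 3 ≤ s := by
    by_contra hlt
    have : s = 0 ∨ s = 1 ∨ s = 2 := by omega
    rcases this with h | h | h
    · rw [h] at hsS
      apply h0
      simpa using hsS
    · rw [h] at hsS
      apply h1
      have : ((1 : ℕ) : ZMod k) + a = a + 1 := by push_cast; ring
      rwa [this] at hsS
    · rw [h] at hsS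
      apply h2
      have : ((2 : ℕ) : ZMod k) + a = a + 2 := by push_cast; ring
      rwa [this] at hsS
  have hsk : s + 5 ≤ k := by
    by_contra hlt
    -- the other element
    have hq : ∃ q ∈ S, q ≠ (s : ZMod k) + a := by
      by_contra hcon
      push Not at hcon
      have : S ⊆ {(s : ZMod k) + a} := fun z hz => mem_singleton.2 (hcon z hz)
      have := card_le_card this
      rw [card_singleton] at this
      omega
    obtain ⟨q, hqS, hqne⟩ := hq
    set t := (q - a).val with ht
    have htq : (t : ZMod k) + a = q := hval q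
    have hst : s ≤ t := hlow q hqS
    have htk : t < k := ZMod.val_lt _
    have hstne : s ≠ t := by
      intro h
      apply hqne
      rw [h, htq]
    have hcases : t = s + 1 ∨ t = s + 2 ∨ (t = s + 3 ∧ s + 4 = k) := by omega
    rcases hcases with h | h | ⟨h, h'⟩
    · apply hind _ hsS
      have : (s : ZMod k) + a + 1 = q := by
        rw [← htq, h]; push_cast; ring
      rw [this]; exact hqS
    · apply hno2 _ hsS
      have : (s : ZMod k) + a + 2 = q := by
        rw [← htq, h]; push_cast; ring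
      rw [this]; exact hqS
    · apply h4
      have hk0 : ((s : ZMod k)) + 4 = 0 := by
        have : ((s + 4 : ℕ) : ZMod k) = 0 := by rw [h']; exact ZMod.natCast_self k
        exact_mod_cast this
      constructor
      · have : a - 1 = q := by
          rw [← htq, h]; push_cast
          linear_combination -hk0
        rw [this]; exact hqS
      · have : a - 4 = (s : ZMod k) + a := by
          linear_combination -hk0
        rw [this]; exact hsS
  refine ⟨s, mem_Icc.2 ⟨hs3, by omega⟩, hmin, hsS, ?_⟩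
  have : ((s + 2 : ℕ) : ZMod k) + a = (s : ZMod k) + a + 2 := by push_cast; ring
  rw [this]
  exact hno2 _ hsS

theorem Mfar_le (hk : 20 ≤ k) (tf : ∀ a b c : V, G.Adj a b → G.Adj b c → ¬ G.Adj a c) :
    ((k : ℝ) - 7) * Mfar G k ≤ (k : ℝ) * ∑ s ∈ Icc 3 (k - 5), Bad G k s := by
  have hkap : 0 ≤ kap V k := kap_nonneg
  set g : ℕ → (ZMod k → V) → V → ℝ := fun s x w =>
    if (w ∈ F G k s x ∧ ¬ G.Adj (x ((s + 2 : ℕ) : ZMod k)) w) then kap V k else 0 with hg
  have hBad : ∀ s, Bad G k s = ∑ x ∈ Cyc G k, ∑ w : V, g s x w := by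
    intro s
    unfold Bad
    apply sum_congr rfl
    intro x _
    rw [mu_eq_sum, hg]
    simp only
    rw [← sum_filter]
    apply sum_congr _ (fun _ _ => rfl)
    ext w
    simp only [mem_filter, mem_univ, true_and]
  have hrot : ∀ s, (k : ℝ) * Bad G k s =
      ∑ a : ZMod k, ∑ x ∈ Cyc G k, ∑ w : V, g s (fun i => x (i + a)) w := by
    intro s
    have : ∀ a : ZMod k, ∑ x ∈ Cyc G k, ∑ w : V, g s (fun i => x (i + a)) w = Bad G k s := by
      intro a
      rw [hBad]
      exact sum_rot a (fun x => ∑ w : V, g s x w)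
    rw [sum_congr rfl (fun a _ => this a), sum_const, card_univ, ZMod.card, nsmul_eq_mul]
  rw [mul_sum, sum_congr rfl (fun s _ => hrot s)]
  have hswap : ∑ s ∈ Icc 3 (k - 5), ∑ a : ZMod k, ∑ x ∈ Cyc G k, ∑ w : V,
      g s (fun i => x (i + a)) w = ∑ x ∈ Cyc G k, ∑ w : V, ∑ a : ZMod k,
        ∑ s ∈ Icc 3 (k - 5), g s (fun i => x (i + a)) w := by
    calc _ = ∑ a : ZMod k, ∑ s ∈ Icc 3 (k - 5), ∑ x ∈ Cyc G k, ∑ w : V,
          g s (fun i => x (i + a)) w := sum_comm
      _ = ∑ a : ZMod k, ∑ x ∈ Cyc G k, ∑ s ∈ Icc 3 (k - 5), ∑ w : V,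
          g s (fun i => x (i + a)) w := sum_congr rfl (fun a _ => sum_comm)
      _ = ∑ a : ZMod k, ∑ x ∈ Cyc G k, ∑ w : V, ∑ s ∈ Icc 3 (k - 5),
          g s (fun i => x (i + a)) w :=
          sum_congr rfl (fun a _ => sum_congr rfl (fun x _ => sum_comm))
      _ = ∑ x ∈ Cyc G k, ∑ a : ZMod k, ∑ w : V, ∑ s ∈ Icc 3 (k - 5),
          g s (fun i => x (i + a)) w := sum_comm
      _ = _ := sum_congr rfl (fun x _ => sum_comm)
  rw [hswap]
  unfold Mfar
  rw [mul_sum]
  apply sum_le_sum
  intro x hx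
  rw [mu_eq_sum, sum_filter, mul_sum]
  apply sum_le_sum
  intro w _
  have hg0 : ∀ a s, 0 ≤ g s (fun i => x (i + a)) w := by
    intro a s
    rw [hg]
    simp only
    split_ifs
    · exact hkap
    · exact le_rfl
  split_ifs with hfar
  · have hind : ∀ i ∈ Ty G k x w, i + 1 ∉ Ty G k x w := fun i hi => Ty_indep tf hx hi
    have hcount := far_count hk hfar.1
    set A := univ.filter (fun a : ZMod k => a ∉ Ty G k x w ∧ a + 1 ∉ Ty G k x w ∧
      a + 2 ∉ Ty G k x w ∧ ¬ (a - 1 ∈ Ty G k x w ∧ a - 4 ∈ Ty G k x w)) with hA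
    have hmemTy : ∀ i : ZMod k, i ∈ Ty G k x w ↔ G.Adj (x i) w := by
      intro i; simp [Ty]
    have hAterm : ∀ a ∈ A, kap V k ≤ ∑ s ∈ Icc 3 (k - 5), g s (fun i => x (i + a)) w := by
      intro a ha
      rw [hA, mem_filter] at ha
      obtain ⟨_, ha0, ha1, ha2, ha4⟩ := ha
      obtain ⟨s, hs, hmin, hsS, hs2⟩ := first_hit hk hfar hind ha0 ha1 ha2 ha4
      have hgs : g s (fun i => x (i + a)) w = kap V k := by
        rw [hg]
        simp only
        rw [if_pos]
        refine ⟨?_, ?_⟩
        · simp only [F, W, mem_filter, mem_univ, true_and]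
          refine ⟨?_, ?_⟩
          · intro i hi
            have := hmin i hi
            rwa [hmemTy] at this
          · rwa [hmemTy] at hsS
        · rwa [hmemTy] at hs2
      calc kap V k = g s (fun i => x (i + a)) w := hgs.symm
        _ ≤ _ := single_le_sum (f := fun s => g s (fun i => x (i + a)) w)
          (fun s _ => hg0 a s) hs
    calc ((k : ℝ) - 7) * kap V k ≤ (A.card : ℝ) * kap V k := by
          apply mul_le_mul_of_nonneg_right _ hkap
          have : (k : ℝ) ≤ (A.card : ℝ) + 7 := by exact_mod_cast hcount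
          linarith
      _ = ∑ _a ∈ A, kap V k := by rw [sum_const, nsmul_eq_mul]
      _ ≤ ∑ a ∈ A, ∑ s ∈ Icc 3 (k - 5), g s (fun i => x (i + a)) w := sum_le_sum hAterm
      _ ≤ ∑ a : ZMod k, ∑ s ∈ Icc 3 (k - 5), g s (fun i => x (i + a)) w :=
          sum_le_sum_of_subset_of_nonneg (subset_univ _)
            (fun a _ _ => sum_nonneg (fun s _ => hg0 a s))
  · rw [mul_zero]
    exact sum_nonneg (fun a _ => sum_nonneg (fun s _ => hg0 a s))

end

end Pool.Agent.ICyc
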