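import Pool.Agent.Lib.MP_131fce_co.Defs
import Pool.Agent.Lib.MP_131fce_co.Basic
import Pool.Agent.Lib.MP_131fce_co.Cond
import Pool.Agent.Lib.MP_131fce_co.RealIneq
import Pool.Agent.Lib.MP_131fce_co.Deficit

/-!
# Induced k-cycles in triangle-free graphs: hazard versus decrement (IC-6b)
-/

set_option autoImplicit false

namespace Pool.Agent.ICyc

open Finset
open scoped Classical

variable {V : Type} [Fintype V] {G : SimpleGraph V} {k : ℕ} [NeZero k]

/-- if the decrement is small compared with the hazard, most of the hazard is at high density -/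
theorem ee_le_high (hk : 5 ≤ k) {l : ℕ} (hl : l + 3 ≤ k) (x : ZMod k → V) (y : V)
    (h : rho G k l x y - rho G k (l + 1) x y < 3 / 4 * ee G k l x y) :
    ee G k l x y ≤ 7 * ∑ z : V, pr G k l x z *
      (if 9 / 8 * kap V k < pr G k l x z then (if G.Adj z y then (1 : ℝ) else 0) else 0) := by
  have hk0 : 0 ≤ kap V k := kap_nonneg
  set S := (F G k l x).filter (fun z => G.Adj y z) with hS
  have he : ee G k l x y = ∑ z ∈ S, pr G k l x z := by
    unfold ee nb
    rw [hS, Finset.sum_filter, Finset.sum_filter]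
    symm
    refine Finset.sum_subset (Finset.subset_univ _) (fun z _ hz => ?_)
    rw [pr_eq_zero hk hl hz, ite_self]
  have hhigh : ∑ z ∈ S, pr G k l x z *
      (if 9 / 8 * kap V k < pr G k l x z then (1 : ℝ) else 0) ≤
      ∑ z : V, pr G k l x z *
      (if 9 / 8 * kap V k < pr G k l x z then (if G.Adj z y then (1 : ℝ) else 0) else 0) := by
    have h1 : ∑ z ∈ S, pr G k l x z *
      (if 9 / 8 * kap V k < pr G k l x z then (1 : ℝ) else 0) = ∑ z ∈ S, pr G k l x z *
      (if 9 / 8 * kap V k < pr G k l x z then (if G.Adj z y then (1 : ℝ) else 0) else 0) := by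
      refine Finset.sum_congr rfl (fun z hz => ?_)
      rw [hS, Finset.mem_filter] at hz
      rw [if_pos hz.2.symm]
    rw [h1]
    refine Finset.sum_le_sum_of_subset_of_nonneg (Finset.subset_univ _) (fun z _ _ => ?_)
    refine mul_nonneg (pr_nonneg _ _ _) ?_
    split_ifs <;> norm_num
  have hlow : ∑ z ∈ S, pr G k l x z ≤ 9 / 8 * mu k S + ∑ z ∈ S, pr G k l x z *
      (if 9 / 8 * kap V k < pr G k l x z then (1 : ℝ) else 0) := by
    rw [mu_eq_sum, Finset.mul_sum, ← Finset.sum_add_distrib]
    refine Finset.sum_le_sum (fun z _ => ?_)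
    split_ifs with h2
    · nlinarith
    · rw [not_lt] at h2
      linarith
  rw [rho_sub] at h
  have hmu : mu k S < 3 / 4 * ee G k l x y := h
  rw [← he] at hlow
  have h0 : 0 ≤ ee G k l x y := ee_nonneg _ _ _
  nlinarith

theorem El_le (hk : 20 ≤ k) (tf : ∀ a b c : V, G.Adj a b → G.Adj b c → ¬ G.Adj a c) {l : ℕ}
    (h2 : 2 ≤ l) (hl : l + 4 ≤ k) :
    El G k l ≤ 4340 * cc G k l + 84 * cc G k (l + 1) := by
  have hk0 : 0 ≤ kap V k := kap_nonneg
  -- step 1: pass to high densities and exchange the sums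
  have hA : El G k l ≤ 7 * ∑ x ∈ Cyc G k, ∑ z : V, pr G k l x z *
      (if 9 / 8 * kap V k < pr G k l x z then
        mu k ((W G k (l + 1) x).filter (fun y => G.Adj z y)) else 0) := by
    unfold El
    rw [Finset.mul_sum]
    refine Finset.sum_le_sum (fun x _ => ?_)
    have h3 : ∑ y ∈ W G k (l + 1) x, kap V k *
        (if rho G k l x y - rho G k (l + 1) x y < 3 / 4 * ee G k l x y
          then ee G k l x y else 0) ≤
        ∑ y ∈ W G k (l + 1) x, kap V k * (7 * ∑ z : V, pr G k l x z *
        (if 9 / 8 * kap V k < pr G k l x z then (if G.Adj z y then (1 : ℝ) else 0) else 0)) := by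
      refine Finset.sum_le_sum (fun y _ => mul_le_mul_of_nonneg_left ?_ hk0)
      split_ifs with h4
      · exact ee_le_high (by omega) (by omega) x y h4
      · refine mul_nonneg (by norm_num) (Finset.sum_nonneg (fun z _ => ?_))
        refine mul_nonneg (pr_nonneg _ _ _) ?_
        split_ifs <;> norm_num
    refine h3.trans (le_of_eq ?_)
    have h5 : ∀ y, kap V k * (7 * ∑ z : V, pr G k l x z *
        (if 9 / 8 * kap V k < pr G k l x z then (if G.Adj z y then (1 : ℝ) else 0) else 0)) =
        ∑ z : V, 7 * (pr G k l x z * (if 9 / 8 * kap V k < pr G k l x z then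
          (if G.Adj z y then kap V k else 0) else 0)) := by
      intro y
      rw [Finset.mul_sum, Finset.mul_sum]
      refine Finset.sum_congr rfl (fun z _ => ?_)
      split_ifs <;> ring
    rw [Finset.sum_congr rfl (fun y _ => h5 y), Finset.sum_comm, Finset.mul_sum]
    refine Finset.sum_congr rfl (fun z _ => ?_)
    rw [← Finset.mul_sum, ← Finset.mul_sum]
    congr 2
    split_ifs with h6
    · rw [mu_eq_sum, Finset.sum_filter]
    · exact Finset.sum_const_zero
  -- step 2: tower
  have htow := tower (G := G) (k := k) l (fun (x : ZMod k → V) (z : V) =>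
      (if 9 / 8 * kap V k < pr G k l x z then
        mu k ((W G k (l + 1) x).filter (fun y => G.Adj z y)) else 0)) (by
    intro x _ x' hx' z
    have hW : W G k (l + 1) x' = W G k (l + 1) x := W_congr le_rfl hx'
    have hr : ∀ y, pr G k l x' y = pr G k l x y := pr_congr hx'
    simp only [hW, hr])
  have hB : ∑ x ∈ Cyc G k, ∑ z : V, pr G k l x z *
      (if 9 / 8 * kap V k < pr G k l x z then
        mu k ((W G k (l + 1) x).filter (fun y => G.Adj z y)) else 0) =
      ∑ x ∈ Cyc G k, (if 9 / 8 * kap V k < pr G k l x (x ((l + 1 : ℕ) : ZMod k)) then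
        mu k (F G k (l + 1) x) else 0) := htow.symm
  -- step 3: split according to the size of the next candidate set
  have hC : ∑ x ∈ Cyc G k, (if 9 / 8 * kap V k < pr G k l x (x ((l + 1 : ℕ) : ZMod k)) then
        mu k (F G k (l + 1) x) else 0) ≤
      2 * ∑ x ∈ Cyc G k, (if 9 / 8 * kap V k < pr G k l x (x ((l + 1 : ℕ) : ZMod k)) then
        (1 : ℝ) else 0) +
      ∑ x ∈ Cyc G k, (if 2 < mu k (F G k (l + 1) x) then mu k (F G k (l + 1) x) else 0) := by
    rw [Finset.mul_sum, ← Finset.sum_add_distrib]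
    refine Finset.sum_le_sum (fun x _ => ?_)
    have h7 : 0 ≤ mu k (F G k (l + 1) x) := mu_nonneg _
    split_ifs <;> linarith
  have htow2 := tower (G := G) (k := k) l (fun (x : ZMod k → V) (z : V) =>
      (if 9 / 8 * kap V k < pr G k l x z then (1 : ℝ) else 0)) (by
    intro x _ x' hx' z
    have hr : ∀ y, pr G k l x' y = pr G k l x y := pr_congr hx'
    simp only [hr])
  have hD : ∑ x ∈ Cyc G k, (if 9 / 8 * kap V k < pr G k l x (x ((l + 1 : ℕ) : ZMod k)) then
        (1 : ℝ) else 0) ≤ 310 * cc G k l := by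
    refine htow2.le.trans ?_
    refine le_trans (le_of_eq ?_) (high_density' (G := G) (by omega) (by omega : l + 3 ≤ k))
    refine Finset.sum_congr rfl (fun x _ => ?_)
    rw [Finset.sum_filter]
    symm
    refine (Finset.sum_subset (Finset.subset_univ _) (fun z _ hz => ?_)).trans ?_
    · rw [pr_eq_zero (by omega) (by omega) hz, ite_self]
    · refine Finset.sum_congr rfl (fun z _ => ?_)
      rw [mul_ite, mul_one, mul_zero]
  have hE := mass_two (G := G) (k := k) (by omega) (by omega : l + 1 + 3 ≤ k)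
  rw [hB] at hA
  linarith

end Pool.Agent.ICyc
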