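import Pool.Agent.Lib.MP_131fce_co.Defs
import Pool.Agent.Lib.MP_131fce_co.Basic
import Pool.Agent.Lib.MP_131fce_co.Cond
import Pool.Agent.Lib.MP_131fce_co.RealIneq
import Pool.Agent.Lib.MP_131fce_co.Deficit

/-!
# Induced k-cycles in triangle-free graphs: hits at a bad time (IC-6a)
-/

set_option autoImplicit false

namespace Pool.Agent.ICyc

open Finset
open scoped Classical

variable {V : Type} [Fintype V] {G : SimpleGraph V} {k : ℕ} [NeZero k]

/-- `Il` as a sum over the candidates of the next step -/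
theorem Il_eq (tf : ∀ a b c : V, G.Adj a b → G.Adj b c → ¬ G.Adj a c) (l : ℕ) :
    Il G k l = ∑ x ∈ Cyc G k, ∑ y ∈ F G k (l + 1) x,
      kap V k * (if 1 / 16 ≤ |rho G k (l + 2) x y - 1| then (1 : ℝ) else 0) := by
  have htow := tower (G := G) (k := k) l (fun (x : ZMod k → V) (z : V) => ∑ y ∈ W G k (l + 1) x,
        kap V k * (if 1 / 16 ≤ |rho G k (l + 1) x y - 1| then
          (if G.Adj z y then (1 : ℝ) else 0) else 0)) (by
    intro x _ x' hx' z
    have hW : W G k (l + 1) x' = W G k (l + 1) x := W_congr le_rfl hx'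
    have hr : ∀ y, rho G k (l + 1) x' y = rho G k (l + 1) x y := rho_congr le_rfl hx'
    simp only [hW, hr])
  have h1 : Il G k l = ∑ x ∈ Cyc G k, ∑ z : V, pr G k l x z * ∑ y ∈ W G k (l + 1) x,
        kap V k * (if 1 / 16 ≤ |rho G k (l + 1) x y - 1| then
          (if G.Adj z y then (1 : ℝ) else 0) else 0) := by
    unfold Il
    refine Finset.sum_congr rfl (fun x _ => ?_)
    have h2 : ∀ z : V, pr G k l x z * ∑ y ∈ W G k (l + 1) x,
        kap V k * (if 1 / 16 ≤ |rho G k (l + 1) x y - 1| then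
          (if G.Adj z y then (1 : ℝ) else 0) else 0) =
        ∑ y ∈ W G k (l + 1) x, kap V k * (if 1 / 16 ≤ |rho G k (l + 1) x y - 1| then
          pr G k l x z * (if G.Adj z y then (1 : ℝ) else 0) else 0) := by
      intro z
      rw [Finset.mul_sum]
      refine Finset.sum_congr rfl (fun y _ => ?_)
      split_ifs <;> ring
    rw [Finset.sum_congr rfl (fun z _ => h2 z), Finset.sum_comm]
    refine Finset.sum_congr rfl (fun y _ => ?_)
    rw [← Finset.mul_sum]
    congr 1
    by_cases h : 1 / 16 ≤ |rho G k (l + 1) x y - 1|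
    · simp only [if_pos h]
      unfold ee nb
      rw [Finset.sum_filter]
      refine Finset.sum_congr rfl (fun z _ => ?_)
      by_cases h3 : G.Adj y z
      · rw [if_pos h3, if_pos h3.symm, mul_one]
      · rw [if_neg h3, if_neg (fun h4 => h3 (SimpleGraph.Adj.symm h4)), mul_zero]
    · simp only [if_neg h, Finset.sum_const_zero]
  rw [h1]
  refine htow.symm.trans ?_
  refine Finset.sum_congr rfl (fun x _ => ?_)
  unfold F
  rw [Finset.sum_filter]
  refine Finset.sum_congr rfl (fun y _ => ?_)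
  by_cases h : G.Adj (x ((l + 1 : ℕ) : ZMod k)) y
  · have hrho : rho G k (l + 2) x y = rho G k (l + 1) x y := rho_succ_of_adj tf h
    simp only [if_pos h, hrho]
  · simp only [if_neg h, ite_self, mul_zero]

theorem Il_le (hk : 20 ≤ k) (tf : ∀ a b c : V, G.Adj a b → G.Adj b c → ¬ G.Adj a c) {l : ℕ}
    (h2 : 2 ≤ l) (hl : l + 5 ≤ k) :
    Il G k l ≤ 2200 * cc G k (l + 2) + 12 * cc G k (l + 1) := by
  have hk0 : 0 ≤ kap V k := kap_nonneg
  rw [Il_eq tf l]
  have hA : ∑ x ∈ Cyc G k, ∑ y ∈ F G k (l + 1) x,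
      kap V k * (if 1 / 16 ≤ |rho G k (l + 2) x y - 1| then (1 : ℝ) else 0) ≤
      2 * ∑ x ∈ Cyc G k, ∑ y : V, pr G k (l + 1) x y *
        (if 1 / 16 ≤ |rho G k (l + 2) x y - 1| then (1 : ℝ) else 0) +
      ∑ x ∈ Cyc G k, mu k ((F G k (l + 1) x).filter
        (fun y => pr G k (l + 1) x y < kap V k / 2)) := by
    rw [Finset.mul_sum, ← Finset.sum_add_distrib]
    refine Finset.sum_le_sum (fun x _ => ?_)
    have h3 : ∑ y ∈ F G k (l + 1) x, pr G k (l + 1) x y *
        (if 1 / 16 ≤ |rho G k (l + 2) x y - 1| then (1 : ℝ) else 0) ≤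
        ∑ y : V, pr G k (l + 1) x y *
        (if 1 / 16 ≤ |rho G k (l + 2) x y - 1| then (1 : ℝ) else 0) := by
      refine Finset.sum_le_sum_of_subset_of_nonneg (Finset.subset_univ _) (fun y _ _ => ?_)
      refine mul_nonneg (pr_nonneg _ _ _) ?_
      split_ifs <;> norm_num
    have h4 : mu k ((F G k (l + 1) x).filter (fun y => pr G k (l + 1) x y < kap V k / 2)) =
        ∑ y ∈ F G k (l + 1) x, if pr G k (l + 1) x y < kap V k / 2 then kap V k else 0 := by
      rw [mu_eq_sum, Finset.sum_filter]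
    rw [h4]
    have h5 : ∑ y ∈ F G k (l + 1) x,
        kap V k * (if 1 / 16 ≤ |rho G k (l + 2) x y - 1| then (1 : ℝ) else 0) ≤
        2 * (∑ y ∈ F G k (l + 1) x, pr G k (l + 1) x y *
        (if 1 / 16 ≤ |rho G k (l + 2) x y - 1| then (1 : ℝ) else 0)) +
        ∑ y ∈ F G k (l + 1) x, if pr G k (l + 1) x y < kap V k / 2 then kap V k else 0 := by
      rw [Finset.mul_sum, ← Finset.sum_add_distrib]
      refine Finset.sum_le_sum (fun y _ => ?_)
      have h6 := pr_nonneg (G := G) (l + 1) x y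
      by_cases h7 : pr G k (l + 1) x y < kap V k / 2
      · rw [if_pos h7]
        split_ifs <;> nlinarith
      · rw [if_neg h7]
        rw [not_lt] at h7
        split_ifs <;> nlinarith
    linarith
  have htow := tower (G := G) (k := k) (l + 1) (fun (x : ZMod k → V) (y : V) =>
        (if 1 / 16 ≤ |rho G k (l + 2) x y - 1| then (1 : ℝ) else 0)) (by
    intro x _ x' hx' y
    have hr : ∀ y, rho G k (l + 2) x' y = rho G k (l + 2) x y := rho_congr le_rfl hx'
    simp only [hr])
  have hB : ∑ x ∈ Cyc G k, ∑ y : V, pr G k (l + 1) x y *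
        (if 1 / 16 ≤ |rho G k (l + 2) x y - 1| then (1 : ℝ) else 0) ≤
        1100 * cc G k (l + 2) := by
    refine htow.symm.le.trans ?_
    refine le_trans (le_of_eq ?_) (mass_dev (G := G) (by omega) (by omega : l + 2 + 3 ≤ k))
    refine Finset.sum_congr rfl (fun x _ => ?_)
    rw [mu_F_eq_rho (l + 2) x]
  have hC := low_density (G := G) (k := k) (by omega) (by omega : l + 1 + 3 ≤ k)
  linarith

end Pool.Agent.ICyc
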