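import Pool.Agent.Lib.MP_131fce_co.Defs
import Pool.Agent.Lib.MP_131fce_co.Basic
import Pool.Agent.Lib.MP_131fce_co.Cond
import Pool.Agent.Lib.MP_131fce_co.RealIneq
import Pool.Agent.Lib.MP_131fce_co.Deficit

/-!
# Induced k-cycles in triangle-free graphs: potential function (IC-6c)
-/

set_option autoImplicit false

namespace Pool.Agent.ICyc

open Finset
open scoped Classical

variable {V : Type} [Fintype V] {G : SimpleGraph V} {k : ℕ} [NeZero k]

theorem ee_eq_sum_ite (l : ℕ) (x : ZMod k → V) (y : V) :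
    ee G k l x y = ∑ z : V, pr G k l x z * (if G.Adj z y then (1 : ℝ) else 0) := by
  unfold ee nb
  rw [Finset.sum_filter]
  refine Finset.sum_congr rfl (fun z _ => ?_)
  by_cases h : G.Adj y z
  · rw [if_pos h, if_pos h.symm, mul_one]
  · rw [if_neg h, if_neg (fun h2 => h (SimpleGraph.Adj.symm h2)), mul_zero]

theorem PP_succ (hk : 20 ≤ k) {l : ℕ} (hl : l + 3 ≤ k) :
    PP G k (l + 1) = ∑ x ∈ Cyc G k, ∑ y ∈ W G k (l + 1) x,
      kap V k * ((1 - ee G k l x y) * Vf (rho G k (l + 1) x y)) := by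
  have htow := tower (G := G) (k := k) l (fun (x : ZMod k → V) (z : V) => ∑ y ∈ W G k (l + 1) x,
        kap V k * ((1 - (if G.Adj z y then (1 : ℝ) else 0)) * Vf (rho G k (l + 1) x y))) (by
    intro x _ x' hx' z
    have hW : W G k (l + 1) x' = W G k (l + 1) x := W_congr le_rfl hx'
    have hr : ∀ y, rho G k (l + 1) x' y = rho G k (l + 1) x y := rho_congr le_rfl hx'
    simp only [hW, hr])
  have hstep : PP G k (l + 1) = ∑ x ∈ Cyc G k, ∑ y ∈ W G k (l + 1) x,
        kap V k * ((1 - (if G.Adj (x ((l + 1 : ℕ) : ZMod k)) y then (1 : ℝ) else 0)) *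
          Vf (rho G k (l + 1) x y)) := by
    unfold PP
    refine Finset.sum_congr rfl (fun x _ => ?_)
    rw [W_succ (l + 1) x, Finset.sum_filter]
    refine Finset.sum_congr rfl (fun y _ => ?_)
    by_cases h : G.Adj (x ((l + 1 : ℕ) : ZMod k)) y
    · rw [if_neg (not_not.mpr h), if_pos h]; ring
    · rw [if_pos h, if_neg h]; ring
  rw [hstep]
  refine htow.trans ?_
  refine Finset.sum_congr rfl (fun x hx => ?_)
  have h1 : ∀ z : V, pr G k l x z * ∑ y ∈ W G k (l + 1) x,
      kap V k * ((1 - (if G.Adj z y then (1 : ℝ) else 0)) * Vf (rho G k (l + 1) x y)) =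
      ∑ y ∈ W G k (l + 1) x, kap V k * ((pr G k l x z -
        pr G k l x z * (if G.Adj z y then (1 : ℝ) else 0)) * Vf (rho G k (l + 1) x y)) := by
    intro z
    rw [Finset.mul_sum]
    refine Finset.sum_congr rfl (fun y _ => ?_)
    ring
  rw [Finset.sum_congr rfl (fun z _ => h1 z), Finset.sum_comm]
  refine Finset.sum_congr rfl (fun y _ => ?_)
  rw [← Finset.mul_sum, ← Finset.sum_mul, Finset.sum_sub_distrib, sum_pr hx l,
    ← ee_eq_sum_ite]

theorem Jl_le_step (hk : 20 ≤ k) {l : ℕ} (hl : l + 3 ≤ k) :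
    Jl G k l ≤ 4 * Il G k l + (PP G k (l + 1) - PP G k l) + 4 * El G k l := by
  rw [PP_succ hk hl]
  unfold Jl Il El PP
  rw [Finset.mul_sum, Finset.mul_sum, ← Finset.sum_sub_distrib, ← Finset.sum_add_distrib,
    ← Finset.sum_add_distrib]
  refine Finset.sum_le_sum (fun x hx => ?_)
  rw [Finset.mul_sum, Finset.mul_sum, ← Finset.sum_sub_distrib, ← Finset.sum_add_distrib,
    ← Finset.sum_add_distrib]
  refine Finset.sum_le_sum (fun y _ => ?_)
  have hr' : 0 ≤ rho G k (l + 1) x y := mu_nonneg _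
  have hrr : rho G k (l + 1) x y ≤ rho G k l x y := by
    unfold rho
    exact mu_mono (Finset.filter_subset_filter _ (W_anti (Nat.le_succ l) x))
  have h := pot_pointwise hr' hrr (ee_nonneg (G := G) l x y) (ee_le_one hx l y)
  have hk0 : 0 ≤ kap V k := kap_nonneg
  have h2 := mul_le_mul_of_nonneg_left h hk0
  calc kap V k * (ee G k l x y * (1 - ee G k l x y)) ≤ _ := h2
    _ = _ := by ring

theorem sum_telescope (f : ℕ → ℝ) (a n : ℕ) :
    ∑ l ∈ Icc a (a + n), (f (l + 1) - f l) = f (a + n + 1) - f a := by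
  induction n with
  | zero => simp
  | succ n ih =>
    have h1 : Icc a (a + (n + 1)) = insert (a + n + 1) (Icc a (a + n)) := by
      ext m
      simp only [Finset.mem_Icc, Finset.mem_insert]
      omega
    rw [h1, Finset.sum_insert (by simp), ih]
    have h2 : a + (n + 1) + 1 = a + n + 1 + 1 := by omega
    rw [h2]
    ring

theorem potential (hk : 20 ≤ k) :
    ∑ l ∈ Icc 2 (k - 5), Jl G k l ≤
      4 * ∑ l ∈ Icc 2 (k - 5), Il G k l + (PP G k (k - 4) - PP G k 2) +
        4 * ∑ l ∈ Icc 2 (k - 5), El G k l := by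
  have h1 : ∑ l ∈ Icc 2 (k - 5), Jl G k l ≤
      ∑ l ∈ Icc 2 (k - 5), (4 * Il G k l + (PP G k (l + 1) - PP G k l) + 4 * El G k l) := by
    refine Finset.sum_le_sum (fun l hl => ?_)
    rw [Finset.mem_Icc] at hl
    exact Jl_le_step hk (by omega)
  have h2 : ∑ l ∈ Icc 2 (k - 5), (PP G k (l + 1) - PP G k l) = PP G k (k - 4) - PP G k 2 := by
    have h3 := sum_telescope (fun l => PP G k l) 2 (k - 7)
    have h4 : 2 + (k - 7) = k - 5 := by omega
    have h5 : 2 + (k - 7) + 1 = k - 4 := by omega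
    rw [h5, h4] at h3
    exact h3
  refine h1.trans (le_of_eq ?_)
  rw [Finset.sum_add_distrib, Finset.sum_add_distrib, h2, Finset.mul_sum, Finset.mul_sum]

end Pool.Agent.ICyc
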