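import Pool.Agent.Lib.MP_131fce_co.Defs
import Pool.Agent.Lib.MP_131fce_co.Basic
import Pool.Agent.Lib.MP_131fce_co.Cond
import Pool.Agent.Lib.MP_131fce_co.Deficit

/-! # IC-11a: visible disagreement at the first hit and two steps later -/

set_option autoImplicit false
set_option linter.unusedSectionVars false

namespace Pool.Agent.ICyc

open Finset
open scoped Classical

variable {V : Type} [Fintype V] {G : SimpleGraph V} {k : ℕ} [NeZero k]

theorem v12_kap_nonneg : 0 ≤ kap V k := by
  unfold kap; positivity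

theorem v12_mu_nonneg (S : Finset V) : 0 ≤ mu k S :=
  mul_nonneg v12_kap_nonneg (by positivity)

theorem v12_mu_mono {S S' : Finset V} (h : S ⊆ S') : mu k S ≤ mu k S' :=
  mul_le_mul_of_nonneg_left (by exact_mod_cast Finset.card_le_card h) v12_kap_nonneg

theorem v12_mu_eq_sum (S : Finset V) : mu k S = ∑ _w ∈ S, kap V k := by
  simp [mu, mul_comm]

theorem v12_om_nonneg (w : V) : 0 ≤ om G k w := by
  unfold om; positivity

theorem v12_om_le_one (w : V) : om G k w ≤ 1 := by
  unfold om
  rw [div_le_one (by positivity)]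
  exact le_max_left _ _

/-- first hit at `m + 1` -/
theorem v12_aux1 (hk : 5 ≤ k) {m : ℕ} (hm : m + 3 ≤ k) :
    ∑ x ∈ Cyc G k, ∑ w ∈ W G k (m + 1) x, dis G k x ((m + 1 : ℕ) : ZMod k) w ≤
      2 * Jl G k m + 216 * cc G k m := by
  have h1 : ∀ x ∈ Cyc G k,
      ∑ w ∈ W G k (m + 1) x, dis G k x ((m + 1 : ℕ) : ZMod k) w ≤
      2 * (∑ z : V, pr G k m x z * mu k ((W G k (m + 1) x).filter
        (fun y => G.Adj (x ((m + 1 : ℕ) : ZMod k)) y ∧ ¬ G.Adj z y))) +
      18 * mu k ((F G k m x).filter (fun y => pr G k m x y < kap V k / 2)) := by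
    intro x _
    have hR : 0 ≤ 2 * (∑ z : V, pr G k m x z * mu k ((W G k (m + 1) x).filter
        (fun y => G.Adj (x ((m + 1 : ℕ) : ZMod k)) y ∧ ¬ G.Adj z y))) +
      18 * mu k ((F G k m x).filter (fun y => pr G k m x y < kap V k / 2)) := by
      have h2 : 0 ≤ ∑ z : V, pr G k m x z * mu k ((W G k (m + 1) x).filter
        (fun y => G.Adj (x ((m + 1 : ℕ) : ZMod k)) y ∧ ¬ G.Adj z y)) :=
        Finset.sum_nonneg fun z _ => mul_nonneg (pr_nonneg m x z) (v12_mu_nonneg _)
      have h3 := v12_mu_nonneg (k := k)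
        ((F G k m x).filter (fun y => pr G k m x y < kap V k / 2))
      positivity
    by_cases hG : Good G k x ((m + 1 : ℕ) : ZMod k)
    swap
    · refine le_trans (le_of_eq ?_) hR
      refine Finset.sum_eq_zero fun w _ => ?_
      unfold dis
      rw [if_neg (fun h => hG h.1)]
    obtain ⟨hD, hT⟩ := hG
    -- swap the two sums
    have hk0 : 0 ≤ kap V k := v12_kap_nonneg
    have hsub : T G k ((m + 1 : ℕ) : ZMod k) x ⊆ F G k m x := T_subset_F hk hm
    have h4 : ∑ w ∈ W G k (m + 1) x, dis G k x ((m + 1 : ℕ) : ZMod k) w ≤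
        ∑ v ∈ F G k m x, kap V k * mu k ((W G k (m + 1) x).filter
          (fun y => G.Adj (x ((m + 1 : ℕ) : ZMod k)) y ∧ ¬ G.Adj v y)) := by
      have h5 : ∀ w ∈ W G k (m + 1) x, dis G k x ((m + 1 : ℕ) : ZMod k) w ≤
          ∑ v ∈ F G k m x, (if G.Adj (x ((m + 1 : ℕ) : ZMod k)) w ∧ ¬ G.Adj v w then
            kap V k * kap V k else 0) := by
        intro w _
        unfold dis
        split_ifs with h
        · have h6 : kap V k * om G k w * mu k ((T G k ((m + 1 : ℕ) : ZMod k) x).filter
              (fun v => ¬ G.Adj v w)) ≤ kap V k * mu k ((F G k m x).filter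
              (fun v => ¬ G.Adj v w)) := by
            have h7 : kap V k * om G k w ≤ kap V k :=
              mul_le_of_le_one_right hk0 (v12_om_le_one w)
            have h8 : mu k ((T G k ((m + 1 : ℕ) : ZMod k) x).filter
              (fun v => ¬ G.Adj v w)) ≤ mu k ((F G k m x).filter (fun v => ¬ G.Adj v w)) :=
              v12_mu_mono (Finset.filter_subset_filter _ hsub)
            exact mul_le_mul h7 h8 (v12_mu_nonneg _) hk0
          refine h6.trans (le_of_eq ?_)
          rw [v12_mu_eq_sum, Finset.sum_filter, Finset.mul_sum]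
          refine Finset.sum_congr rfl fun v _ => ?_
          by_cases hv : ¬ G.Adj v w
          · rw [if_pos hv, if_pos ⟨h.2, hv⟩]
          · rw [if_neg hv, if_neg (fun h' => hv h'.2), mul_zero]
        · refine Finset.sum_nonneg fun v _ => ?_
          split_ifs
          · exact mul_nonneg hk0 hk0
          · exact le_rfl
      refine (Finset.sum_le_sum h5).trans (le_of_eq ?_)
      rw [Finset.sum_comm]
      refine Finset.sum_congr rfl fun v _ => ?_
      rw [v12_mu_eq_sum, Finset.sum_filter, Finset.mul_sum]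
      refine Finset.sum_congr rfl fun w _ => ?_
      split_ifs <;> simp
    refine h4.trans ?_
    have h9 : ∑ v ∈ F G k m x, kap V k * mu k ((W G k (m + 1) x).filter
          (fun y => G.Adj (x ((m + 1 : ℕ) : ZMod k)) y ∧ ¬ G.Adj v y)) ≤
        ∑ v ∈ F G k m x, (2 * (pr G k m x v * mu k ((W G k (m + 1) x).filter
        (fun y => G.Adj (x ((m + 1 : ℕ) : ZMod k)) y ∧ ¬ G.Adj v y))) +
        18 * (if pr G k m x v < kap V k / 2 then kap V k else 0)) := by
      refine Finset.sum_le_sum fun v _ => ?_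
      have hmu : 0 ≤ mu k ((W G k (m + 1) x).filter
        (fun y => G.Adj (x ((m + 1 : ℕ) : ZMod k)) y ∧ ¬ G.Adj v y)) := v12_mu_nonneg _
      have hpr := pr_nonneg (G := G) (k := k) m x v
      by_cases hp : pr G k m x v < kap V k / 2
      · rw [if_pos hp]
        have h10 : mu k ((W G k (m + 1) x).filter
          (fun y => G.Adj (x ((m + 1 : ℕ) : ZMod k)) y ∧ ¬ G.Adj v y)) ≤ 18 := by
          refine le_trans (v12_mu_mono ?_) hD
          intro y hy
          rw [Finset.mem_filter] at hy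
          simp only [nb, Finset.mem_filter, Finset.mem_univ, true_and]
          exact hy.2.1
        nlinarith [mul_nonneg hpr hmu]
      · rw [if_neg hp]
        have : kap V k ≤ 2 * pr G k m x v := by linarith [not_lt.mp hp]
        nlinarith
    refine h9.trans ?_
    rw [Finset.sum_add_distrib, ← Finset.mul_sum, ← Finset.mul_sum, ← Finset.sum_filter,
      ← v12_mu_eq_sum]
    have h11 : ∑ v ∈ F G k m x, pr G k m x v * mu k ((W G k (m + 1) x).filter
        (fun y => G.Adj (x ((m + 1 : ℕ) : ZMod k)) y ∧ ¬ G.Adj v y)) ≤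
        ∑ z : V, pr G k m x z * mu k ((W G k (m + 1) x).filter
        (fun y => G.Adj (x ((m + 1 : ℕ) : ZMod k)) y ∧ ¬ G.Adj z y)) :=
      Finset.sum_le_sum_of_subset_of_nonneg (Finset.subset_univ _) fun z _ _ =>
        mul_nonneg (pr_nonneg m x z) (v12_mu_nonneg _)
    linarith
  refine (Finset.sum_le_sum h1).trans ?_
  rw [Finset.sum_add_distrib, ← Finset.mul_sum, ← Finset.mul_sum, ← Jl_eq]
  have := low_density (G := G) hk hm
  linarith

/-- first hit at `j` -/
theorem Vis1 (hk : 20 ≤ k) {j : ℕ} (h3 : 3 ≤ j) (hj : j + 4 ≤ k) :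
    ∑ x ∈ Cyc G k, ∑ w ∈ W G k j x, dis G k x ((j : ℕ) : ZMod k) w ≤
      2 * Jl G k (j - 1) + 216 * cc G k (j - 1) := by
  obtain ⟨m, rfl⟩ : ∃ m, j = m + 1 := ⟨j - 1, by omega⟩
  exact v12_aux1 (by omega) (by omega)

/-- first hit at `s`, position `s + 2` -/
theorem Vis2 (hk : 20 ≤ k) {s : ℕ} (h3 : 3 ≤ s) (hs : s + 6 ≤ k) :
    ∑ x ∈ Cyc G k, ∑ w ∈ F G k s x, dis G k x ((s + 2 : ℕ) : ZMod k) w ≤
      2 * Jl G k s + 24 * cc G k s := by
  have hk5 : 5 ≤ k := by omega
  have h1 : ∀ x ∈ Cyc G k,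
      ∑ w ∈ F G k s x, dis G k x ((s + 2 : ℕ) : ZMod k) w ≤
      2 * (∑ z : V, pr G k s x z * mu k ((W G k (s + 1) x).filter
        (fun y => G.Adj (x ((s + 1 : ℕ) : ZMod k)) y ∧ ¬ G.Adj z y))) +
      2 * mu k ((F G k s x).filter (fun y => pr G k s x y < kap V k / 2)) := by
    intro x _
    have hk0 : 0 ≤ kap V k := v12_kap_nonneg
    have h2 : ∑ w ∈ F G k s x, dis G k x ((s + 2 : ℕ) : ZMod k) w ≤
        ∑ w ∈ F G k s x, (2 * (pr G k s x w * mu k ((W G k (s + 1) x).filter
        (fun y => G.Adj (x ((s + 1 : ℕ) : ZMod k)) y ∧ ¬ G.Adj w y))) +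
        2 * (if pr G k s x w < kap V k / 2 then kap V k else 0)) := by
      refine Finset.sum_le_sum fun w _ => ?_
      have hmu : 0 ≤ mu k ((W G k (s + 1) x).filter
        (fun y => G.Adj (x ((s + 1 : ℕ) : ZMod k)) y ∧ ¬ G.Adj w y)) := v12_mu_nonneg _
      have hpr := pr_nonneg (G := G) (k := k) s x w
      have hR : 0 ≤ 2 * (pr G k s x w * mu k ((W G k (s + 1) x).filter
        (fun y => G.Adj (x ((s + 1 : ℕ) : ZMod k)) y ∧ ¬ G.Adj w y))) +
        2 * (if pr G k s x w < kap V k / 2 then kap V k else 0) := by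
        have := mul_nonneg hpr hmu
        split_ifs <;> linarith
      unfold dis
      split_ifs with h hp hp
      · -- good, low density
        have h3' : kap V k * om G k w ≤ kap V k :=
          mul_le_of_le_one_right hk0 (v12_om_le_one w)
        have h4 : mu k ((T G k ((s + 2 : ℕ) : ZMod k) x).filter (fun v => ¬ G.Adj v w)) ≤ 2 :=
          (v12_mu_mono (Finset.filter_subset _ _)).trans h.1.2
        have h5 := v12_mu_nonneg (k := k)
          ((T G k ((s + 2 : ℕ) : ZMod k) x).filter (fun v => ¬ G.Adj v w))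
        have h6 : 0 ≤ kap V k * om G k w := mul_nonneg hk0 (v12_om_nonneg w)
        nlinarith [mul_nonneg hpr hmu]
      · -- good, high density
        have h3' : kap V k * om G k w ≤ kap V k :=
          mul_le_of_le_one_right hk0 (v12_om_le_one w)
        have h4 : mu k ((T G k ((s + 2 : ℕ) : ZMod k) x).filter (fun v => ¬ G.Adj v w)) ≤
            mu k ((W G k (s + 1) x).filter
              (fun y => G.Adj (x ((s + 1 : ℕ) : ZMod k)) y ∧ ¬ G.Adj w y)) := by
          refine v12_mu_mono ?_
          intro y hy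
          rw [Finset.mem_filter] at hy ⊢
          have hyF : y ∈ F G k (s + 1) x :=
            T_subset_F (l := s + 1) hk5 (by omega) hy.1
          unfold F at hyF
          rw [Finset.mem_filter] at hyF
          exact ⟨hyF.1, hyF.2, fun h' => hy.2 h'.symm⟩
        have h5 := v12_mu_nonneg (k := k)
          ((T G k ((s + 2 : ℕ) : ZMod k) x).filter (fun v => ¬ G.Adj v w))
        have h6 : 0 ≤ kap V k * om G k w := mul_nonneg hk0 (v12_om_nonneg w)
        have h7 : kap V k ≤ 2 * pr G k s x w := by linarith [not_lt.mp hp]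
        calc kap V k * om G k w *
              mu k ((T G k ((s + 2 : ℕ) : ZMod k) x).filter (fun v => ¬ G.Adj v w))
            ≤ (2 * pr G k s x w) * mu k ((W G k (s + 1) x).filter
              (fun y => G.Adj (x ((s + 1 : ℕ) : ZMod k)) y ∧ ¬ G.Adj w y)) :=
              mul_le_mul (h3'.trans h7) h4 h5 (by linarith)
          _ = _ := by ring
      · have := mul_nonneg hpr hmu
        linarith
      · have := mul_nonneg hpr hmu
        linarith
    refine h2.trans ?_
    rw [Finset.sum_add_distrib, ← Finset.mul_sum, ← Finset.mul_sum, ← Finset.sum_filter,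
      ← v12_mu_eq_sum]
    have h11 : ∑ v ∈ F G k s x, pr G k s x v * mu k ((W G k (s + 1) x).filter
        (fun y => G.Adj (x ((s + 1 : ℕ) : ZMod k)) y ∧ ¬ G.Adj v y)) ≤
        ∑ z : V, pr G k s x z * mu k ((W G k (s + 1) x).filter
        (fun y => G.Adj (x ((s + 1 : ℕ) : ZMod k)) y ∧ ¬ G.Adj z y)) :=
      Finset.sum_le_sum_of_subset_of_nonneg (Finset.subset_univ _) fun z _ _ =>
        mul_nonneg (pr_nonneg s x z) (v12_mu_nonneg _)
    linarith
  refine (Finset.sum_le_sum h1).trans ?_
  rw [Finset.sum_add_distrib, ← Finset.mul_sum, ← Finset.mul_sum, ← Jl_eq]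
  have := low_density (G := G) hk5 (show s + 3 ≤ k by omega)
  linarith

end Pool.Agent.ICyc
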