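import Pool.Agent.Lib.MP_131fce_co.Defs
import Pool.Agent.Lib.MP_131fce_co.Basic
import Pool.Agent.Lib.MP_131fce_co.Cond
import Pool.Agent.Lib.MP_131fce_co.Deficit

/-! # IC-11b: visible disagreement after the first hit -/

set_option autoImplicit false
set_option linter.unusedSectionVars false

namespace Pool.Agent.ICyc

open Finset
open scoped Classical

variable {V : Type} [Fintype V] {G : SimpleGraph V} {k : ℕ} [NeZero k]

theorem v3_kap_nonneg : 0 ≤ kap V k := by
  unfold kap; positivity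

theorem v3_mu_nonneg (S : Finset V) : 0 ≤ mu k S :=
  mul_nonneg v3_kap_nonneg (by positivity)

theorem v3_mu_mono {S S' : Finset V} (h : S ⊆ S') : mu k S ≤ mu k S' :=
  mul_le_mul_of_nonneg_left (by exact_mod_cast Finset.card_le_card h) v3_kap_nonneg

theorem v3_mu_eq_sum (S : Finset V) : mu k S = ∑ _w ∈ S, kap V k := by
  simp [mu, mul_comm]

theorem v3_om_nonneg (w : V) : 0 ≤ om G k w := by
  unfold om; positivity

theorem v3_om_le_one (w : V) : om G k w ≤ 1 := by
  unfold om
  rw [div_le_one (by positivity)]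
  exact le_max_left _ _

theorem v3_om_dg (w : V) : om G k w * dg G k w ≤ 18 := by
  unfold om
  have h1 : dg G k w / 18 ≤ max 1 (dg G k w / 18) := le_max_right _ _
  have h0 : 0 < max 1 (dg G k w / 18) := lt_of_lt_of_le one_pos (le_max_left _ _)
  rw [one_div, inv_mul_le_iff₀ h0]
  linarith

/-- the trivial bound on the disagreement -/
theorem v3_dis_le (x : ZMod k → V) (j : ZMod k) (w : V) :
    dis G k x j w ≤ (if dg G k (x j) ≤ 18 ∧ G.Adj (x j) w then 2 * kap V k * om G k w else 0) := by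
  unfold dis Good
  by_cases h : (dg G k (x j) ≤ 18 ∧ mu k (T G k j x) ≤ 2) ∧ G.Adj (x j) w
  · rw [if_pos h, if_pos ⟨h.1.1, h.2⟩]
    have h1 : mu k ((T G k j x).filter (fun v => ¬ G.Adj v w)) ≤ 2 :=
      (v3_mu_mono (Finset.filter_subset _ _)).trans h.1.2
    have h2 : 0 ≤ kap V k * om G k w := mul_nonneg v3_kap_nonneg (v3_om_nonneg w)
    nlinarith
  · rw [if_neg h]
    split_ifs
    · exact mul_nonneg (mul_nonneg (by norm_num) v3_kap_nonneg) (v3_om_nonneg w)
    · exact le_rfl

/-- the probability that the next vertex has high density -/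
theorem v3_high (hk : 5 ≤ k) {m : ℕ} (hm : m + 3 ≤ k) :
    ∑ x ∈ Cyc G k, (if 2 * kap V k < pr G k m x (x ((m + 1 : ℕ) : ZMod k)) then (1 : ℝ) else 0) ≤
      12 * cc G k m := by
  refine le_trans (le_of_eq ?_) (high_density (G := G) hk hm)
  rw [tower m (fun x y => if 2 * kap V k < pr G k m x y then (1 : ℝ) else 0)
    (fun x _ x' hx' y => by simp only [pr_congr hx'])]
  refine Finset.sum_congr rfl fun x _ => ?_
  rw [Finset.sum_filter]
  rw [← Finset.sum_subset (Finset.subset_univ (F G k m x))]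
  · refine Finset.sum_congr rfl fun y _ => ?_
    split_ifs <;> simp
  · intro y _ hy
    rw [pr_eq_zero hk hm hy]; simp

/-- part (a): high density of the vertex at position `m + 1` -/
theorem v3_partA (hk : 5 ≤ k) {m : ℕ} (hm : m + 3 ≤ k) (S : Finset ℕ) :
    ∑ x ∈ Cyc G k, ∑ s ∈ S, ∑ w ∈ F G k s x,
      (if 2 * kap V k < pr G k m x (x ((m + 1 : ℕ) : ZMod k)) ∧
          dg G k (x ((m + 1 : ℕ) : ZMod k)) ≤ 18 ∧ G.Adj (x ((m + 1 : ℕ) : ZMod k)) w
        then 2 * kap V k * om G k w else 0) ≤ 432 * cc G k m := by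
  have h1 : ∀ x : ZMod k → V, ∑ s ∈ S, ∑ w ∈ F G k s x,
      (if 2 * kap V k < pr G k m x (x ((m + 1 : ℕ) : ZMod k)) ∧
          dg G k (x ((m + 1 : ℕ) : ZMod k)) ≤ 18 ∧ G.Adj (x ((m + 1 : ℕ) : ZMod k)) w
        then 2 * kap V k * om G k w else 0) ≤
      36 * (if 2 * kap V k < pr G k m x (x ((m + 1 : ℕ) : ZMod k)) then (1 : ℝ) else 0) := by
    intro x
    by_cases hA : 2 * kap V k < pr G k m x (x ((m + 1 : ℕ) : ZMod k))
    swap
    · simp only [hA, false_and, if_false, Finset.sum_const_zero, mul_zero, le_refl]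
    by_cases hD : dg G k (x ((m + 1 : ℕ) : ZMod k)) ≤ 18
    swap
    · simp only [hD, false_and, and_false, if_false, Finset.sum_const_zero]
      positivity
    simp only [hA, hD, true_and, if_true, mul_one]
    have hdisj : (S : Set ℕ).PairwiseDisjoint (fun s => F G k s x) := by
      intro a _ b _ hab
      rcases lt_or_gt_of_ne hab with h | h
      · exact F_disjoint h x
      · exact (F_disjoint h x).symm
    rw [← Finset.sum_biUnion hdisj]
    have h2 : ∑ w ∈ S.biUnion (fun s => F G k s x),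
        (if G.Adj (x ((m + 1 : ℕ) : ZMod k)) w then 2 * kap V k * om G k w else 0) ≤
        ∑ w : V, (if G.Adj (x ((m + 1 : ℕ) : ZMod k)) w then 2 * kap V k else 0) := by
      refine (Finset.sum_le_sum_of_subset_of_nonneg (Finset.subset_univ _) ?_).trans
        (Finset.sum_le_sum fun w _ => ?_)
      · intro w _ _
        split_ifs
        · exact mul_nonneg (mul_nonneg (by norm_num) v3_kap_nonneg) (v3_om_nonneg w)
        · exact le_rfl
      · split_ifs
        · exact mul_le_of_le_one_right (mul_nonneg (by norm_num) v3_kap_nonneg) (v3_om_le_one w)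
        · exact le_rfl
    refine h2.trans ?_
    have h3 : ∑ w : V, (if G.Adj (x ((m + 1 : ℕ) : ZMod k)) w then 2 * kap V k else 0) =
        2 * dg G k (x ((m + 1 : ℕ) : ZMod k)) := by
      rw [← Finset.sum_filter, Finset.sum_const, nsmul_eq_mul]
      unfold dg mu nb
      ring
    rw [h3]; linarith
  calc _ ≤ ∑ x ∈ Cyc G k,
        36 * (if 2 * kap V k < pr G k m x (x ((m + 1 : ℕ) : ZMod k)) then (1 : ℝ) else 0) :=
        Finset.sum_le_sum fun x _ => h1 x
    _ = 36 * ∑ x ∈ Cyc G k,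
        (if 2 * kap V k < pr G k m x (x ((m + 1 : ℕ) : ZMod k)) then (1 : ℝ) else 0) := by
        rw [Finset.mul_sum]
    _ ≤ 36 * (12 * cc G k m) := by
        have := v3_high (G := G) hk hm
        linarith
    _ = 432 * cc G k m := by ring

/-- part (b): low density of the vertex at position `m + 1` -/
theorem v3_partB (hk : 5 ≤ k) {s m : ℕ} (hs : s + 2 ≤ m) (hm : m + 3 ≤ k) :
    ∑ x ∈ Cyc G k, ∑ w ∈ F G k s x,
      (if ¬ 2 * kap V k < pr G k m x (x ((m + 1 : ℕ) : ZMod k)) ∧
          G.Adj (x ((m + 1 : ℕ) : ZMod k)) w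
        then 2 * kap V k * om G k w else 0) ≤
    ∑ x ∈ Cyc G k, ∑ w ∈ F G k s x, 4 * kap V k * om G k w *
      mu k ((F G k m x).filter (fun y => G.Adj y w)) := by
  rw [tower m (fun x y => ∑ w ∈ F G k s x,
      (if ¬ 2 * kap V k < pr G k m x y ∧ G.Adj y w then 2 * kap V k * om G k w else 0))
    (fun x _ x' hx' y => by
      simp only [pr_congr hx', F_congr (show s ≤ m by omega) hx'])]
  refine Finset.sum_le_sum fun x _ => ?_
  calc ∑ y : V, pr G k m x y * ∑ w ∈ F G k s x,
      (if ¬ 2 * kap V k < pr G k m x y ∧ G.Adj y w then 2 * kap V k * om G k w else 0)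
      = ∑ y ∈ F G k m x, pr G k m x y * ∑ w ∈ F G k s x,
      (if ¬ 2 * kap V k < pr G k m x y ∧ G.Adj y w then 2 * kap V k * om G k w else 0) := by
        refine (Finset.sum_subset (Finset.subset_univ (F G k m x)) ?_).symm
        intro y _ hy
        rw [pr_eq_zero hk hm hy, zero_mul]
    _ ≤ ∑ y ∈ F G k m x, ∑ w ∈ F G k s x,
        (if G.Adj y w then 4 * kap V k * om G k w * kap V k else 0) := by
        refine Finset.sum_le_sum fun y _ => ?_
        rw [Finset.mul_sum]
        refine Finset.sum_le_sum fun w _ => ?_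
        by_cases h : ¬ 2 * kap V k < pr G k m x y ∧ G.Adj y w
        · rw [if_pos h, if_pos h.2]
          have h1 : pr G k m x y ≤ 2 * kap V k := not_lt.mp h.1
          have h2 : 0 ≤ kap V k * om G k w := mul_nonneg v3_kap_nonneg (v3_om_nonneg w)
          nlinarith
        · rw [if_neg h, mul_zero]
          split_ifs
          · exact mul_nonneg (mul_nonneg (mul_nonneg (by norm_num) v3_kap_nonneg)
              (v3_om_nonneg w)) v3_kap_nonneg
          · exact le_rfl
    _ = ∑ w ∈ F G k s x, 4 * kap V k * om G k w *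
      mu k ((F G k m x).filter (fun y => G.Adj y w)) := by
        rw [Finset.sum_comm]
        refine Finset.sum_congr rfl fun w _ => ?_
        rw [v3_mu_eq_sum, Finset.sum_filter, Finset.mul_sum]
        refine Finset.sum_congr rfl fun y _ => ?_
        split_ifs <;> simp

/-- the candidate sets of later steps are disjoint subsets of `W (s+2)` -/
theorem v3_sum_F (s : ℕ) (S : Finset ℕ) (hS : ∀ m ∈ S, s + 2 ≤ m) (x : ZMod k → V) (w : V) :
    ∑ m ∈ S, mu k ((F G k m x).filter (fun y => G.Adj y w)) ≤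
      mu k ((W G k (s + 2) x).filter (fun y => G.Adj y w)) := by
  have hdisj : (S : Set ℕ).PairwiseDisjoint
      (fun m => (F G k m x).filter (fun y => G.Adj y w)) := by
    intro a _ b _ hab
    rcases lt_or_gt_of_ne hab with h | h
    · exact Finset.disjoint_filter_filter (F_disjoint h x)
    · exact (Finset.disjoint_filter_filter (F_disjoint h x)).symm
  have h1 : ∑ m ∈ S, mu k ((F G k m x).filter (fun y => G.Adj y w)) =
      mu k (S.biUnion (fun m => (F G k m x).filter (fun y => G.Adj y w))) := by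
    unfold mu
    rw [Finset.card_biUnion (fun a ha b hb hab => hdisj ha hb hab), Nat.cast_sum, Finset.mul_sum]
  rw [h1]
  refine v3_mu_mono ?_
  intro y hy
  rw [Finset.mem_biUnion] at hy
  obtain ⟨m, hm, hy⟩ := hy
  rw [Finset.mem_filter] at hy ⊢
  exact ⟨W_anti (hS m hm) x (F_subset_W m x hy.1), hy.2⟩

/-- part (b), last step -/
theorem v3_partB' (hk : 5 ≤ k) {s : ℕ} (hs : s + 3 ≤ k) :
    ∑ x ∈ Cyc G k, ∑ w ∈ F G k s x, 4 * kap V k * om G k w *
      mu k ((W G k (s + 2) x).filter (fun y => G.Adj y w)) ≤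
    8 * Jl G k s + 864 * cc G k s := by
  have h1 : ∀ x ∈ Cyc G k, ∑ w ∈ F G k s x, 4 * kap V k * om G k w *
      mu k ((W G k (s + 2) x).filter (fun y => G.Adj y w)) ≤
      8 * (∑ z : V, pr G k s x z * mu k ((W G k (s + 1) x).filter
        (fun y => ¬ G.Adj (x ((s + 1 : ℕ) : ZMod k)) y ∧ G.Adj z y))) +
      72 * mu k ((F G k s x).filter (fun y => pr G k s x y < kap V k / 2)) := by
    intro x _
    have h2 : ∑ z : V, pr G k s x z * mu k ((W G k (s + 1) x).filter
        (fun y => ¬ G.Adj (x ((s + 1 : ℕ) : ZMod k)) y ∧ G.Adj z y)) ≥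
        ∑ z ∈ F G k s x, pr G k s x z * mu k ((W G k (s + 1) x).filter
        (fun y => ¬ G.Adj (x ((s + 1 : ℕ) : ZMod k)) y ∧ G.Adj z y)) :=
      Finset.sum_le_sum_of_subset_of_nonneg (Finset.subset_univ _) fun z _ _ =>
        mul_nonneg (pr_nonneg s x z) (v3_mu_nonneg _)
    have h3 : ∑ w ∈ F G k s x, 4 * kap V k * om G k w *
      mu k ((W G k (s + 2) x).filter (fun y => G.Adj y w)) ≤
      ∑ w ∈ F G k s x, (8 * (pr G k s x w * mu k ((W G k (s + 1) x).filter
        (fun y => ¬ G.Adj (x ((s + 1 : ℕ) : ZMod k)) y ∧ G.Adj w y))) +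
        72 * (if pr G k s x w < kap V k / 2 then kap V k else 0)) := by
      refine Finset.sum_le_sum fun w _ => ?_
      have h4 : (W G k (s + 2) x).filter (fun y => G.Adj y w) =
          (W G k (s + 1) x).filter
            (fun y => ¬ G.Adj (x ((s + 1 : ℕ) : ZMod k)) y ∧ G.Adj w y) := by
        rw [show s + 2 = (s + 1) + 1 from rfl, W_succ, Finset.filter_filter]
        refine Finset.filter_congr fun y _ => ?_
        rw [G.adj_comm y w]
      have hom0 := v3_om_nonneg (G := G) (k := k) w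
      have hom1 := v3_om_le_one (G := G) (k := k) w
      have hk0 : 0 ≤ kap V k := v3_kap_nonneg
      by_cases hp : pr G k s x w < kap V k / 2
      · rw [if_pos hp]
        have h5 : mu k ((W G k (s + 2) x).filter (fun y => G.Adj y w)) ≤ dg G k w := by
          refine v3_mu_mono ?_
          intro y hy
          rw [Finset.mem_filter] at hy
          simp only [nb, Finset.mem_filter, Finset.mem_univ, true_and]
          exact hy.2.symm
        have h6 := v3_om_dg (G := G) (k := k) w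
        have h7 : 0 ≤ pr G k s x w * mu k ((W G k (s + 1) x).filter
          (fun y => ¬ G.Adj (x ((s + 1 : ℕ) : ZMod k)) y ∧ G.Adj w y)) :=
          mul_nonneg (pr_nonneg s x w) (v3_mu_nonneg _)
        have h8 : om G k w * mu k ((W G k (s + 2) x).filter (fun y => G.Adj y w)) ≤ 18 :=
          (mul_le_mul_of_nonneg_left h5 hom0).trans h6
        nlinarith
      · rw [if_neg hp, h4]
        have h9 : 0 ≤ mu k ((W G k (s + 1) x).filter
          (fun y => ¬ G.Adj (x ((s + 1 : ℕ) : ZMod k)) y ∧ G.Adj w y)) := v3_mu_nonneg _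
        have h10 : kap V k * om G k w ≤ 2 * pr G k s x w := by nlinarith
        nlinarith
    refine h3.trans ?_
    rw [Finset.sum_add_distrib, ← Finset.mul_sum, ← Finset.mul_sum, ← Finset.sum_filter,
      ← v3_mu_eq_sum]
    linarith
  refine (Finset.sum_le_sum h1).trans ?_
  rw [Finset.sum_add_distrib, ← Finset.mul_sum, ← Finset.mul_sum, ← Jl_eq']
  have := low_density (G := G) hk hs
  linarith

/-- first hit at `s`, later positions -/
theorem Vis3 (hk : 20 ≤ k) (tf : ∀ a b c : V, G.Adj a b → G.Adj b c → ¬ G.Adj a c) :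
    ∑ x ∈ Cyc G k, ∑ s ∈ Icc 3 (k - 7), ∑ j ∈ Icc (s + 3) (k - 4), ∑ w ∈ F G k s x,
      dis G k x ((j : ℕ) : ZMod k) w ≤
      8 * ∑ s ∈ Icc 3 (k - 7), Jl G k s + 1296 * ∑ s ∈ Icc 2 (k - 3), cc G k s := by
  -- reindex `j = m + 1`
  have hre : ∀ (s : ℕ) (f : ℕ → ℝ), ∑ j ∈ Icc (s + 3) (k - 4), f j =
      ∑ m ∈ Icc (s + 2) (k - 5), f (m + 1) := by
    intro s f
    have : Icc (s + 3) (k - 4) = (Icc (s + 2) (k - 5)).image (fun m => m + 1) := by
      ext j
      simp only [Finset.mem_Icc, Finset.mem_image]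
      constructor
      · intro h
        exact ⟨j - 1, by omega, by omega⟩
      · rintro ⟨m, hm, rfl⟩
        omega
    rw [this, Finset.sum_image (fun a _ b _ h => by simpa using h)]
  have hnn : ∀ (x : ZMod k → V) (m : ℕ) (w : V), (0 : ℝ) ≤
      (if 2 * kap V k < pr G k m x (x ((m + 1 : ℕ) : ZMod k)) ∧
          dg G k (x ((m + 1 : ℕ) : ZMod k)) ≤ 18 ∧ G.Adj (x ((m + 1 : ℕ) : ZMod k)) w
        then 2 * kap V k * om G k w else 0) := by
    intro x m w
    split_ifs
    · exact mul_nonneg (mul_nonneg (by norm_num) v3_kap_nonneg) (v3_om_nonneg w)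
    · exact le_rfl
  have hsplit : ∀ (x : ZMod k → V) (m : ℕ) (w : V),
      dis G k x ((m + 1 : ℕ) : ZMod k) w ≤
      (if 2 * kap V k < pr G k m x (x ((m + 1 : ℕ) : ZMod k)) ∧
          dg G k (x ((m + 1 : ℕ) : ZMod k)) ≤ 18 ∧ G.Adj (x ((m + 1 : ℕ) : ZMod k)) w
        then 2 * kap V k * om G k w else 0) +
      (if ¬ 2 * kap V k < pr G k m x (x ((m + 1 : ℕ) : ZMod k)) ∧
          G.Adj (x ((m + 1 : ℕ) : ZMod k)) w
        then 2 * kap V k * om G k w else 0) := by
    intro x m w
    refine (v3_dis_le x _ w).trans ?_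
    have h0 : 0 ≤ 2 * kap V k * om G k w :=
      mul_nonneg (mul_nonneg (by norm_num) v3_kap_nonneg) (v3_om_nonneg w)
    by_cases hA : 2 * kap V k < pr G k m x (x ((m + 1 : ℕ) : ZMod k))
    · simp only [hA, true_and, not_true_eq_false, false_and, if_false, add_zero]
      exact le_rfl
    · simp only [hA, false_and, if_false, not_false_eq_true, true_and, zero_add]
      split_ifs with h1 h2 h2
      · exact le_rfl
      · exact absurd h1.2 h2
      · exact h0
      · exact le_rfl
  -- part (a)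
  have hA : ∑ x ∈ Cyc G k, ∑ s ∈ Icc 3 (k - 7), ∑ m ∈ Icc (s + 2) (k - 5), ∑ w ∈ F G k s x,
      (if 2 * kap V k < pr G k m x (x ((m + 1 : ℕ) : ZMod k)) ∧
          dg G k (x ((m + 1 : ℕ) : ZMod k)) ≤ 18 ∧ G.Adj (x ((m + 1 : ℕ) : ZMod k)) w
        then 2 * kap V k * om G k w else 0) ≤ 432 * ∑ s ∈ Icc 2 (k - 3), cc G k s := by
    calc _ ≤ ∑ x ∈ Cyc G k, ∑ s ∈ Icc 3 (k - 7), ∑ m ∈ Icc 2 (k - 5), ∑ w ∈ F G k s x,
          (if 2 * kap V k < pr G k m x (x ((m + 1 : ℕ) : ZMod k)) ∧
          dg G k (x ((m + 1 : ℕ) : ZMod k)) ≤ 18 ∧ G.Adj (x ((m + 1 : ℕ) : ZMod k)) w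
        then 2 * kap V k * om G k w else 0) := by
          refine Finset.sum_le_sum fun x _ => Finset.sum_le_sum fun s _ =>
            Finset.sum_le_sum_of_subset_of_nonneg ?_ fun m _ _ =>
              Finset.sum_nonneg fun w _ => hnn x m w
          exact Finset.Icc_subset_Icc (by omega) le_rfl
      _ = ∑ m ∈ Icc 2 (k - 5), ∑ x ∈ Cyc G k, ∑ s ∈ Icc 3 (k - 7), ∑ w ∈ F G k s x,
          (if 2 * kap V k < pr G k m x (x ((m + 1 : ℕ) : ZMod k)) ∧
          dg G k (x ((m + 1 : ℕ) : ZMod k)) ≤ 18 ∧ G.Adj (x ((m + 1 : ℕ) : ZMod k)) w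
        then 2 * kap V k * om G k w else 0) := by
          symm
          rw [Finset.sum_comm]
          exact Finset.sum_congr rfl fun x _ => Finset.sum_comm
      _ ≤ ∑ m ∈ Icc 2 (k - 5), 432 * cc G k m := by
          refine Finset.sum_le_sum fun m hm => ?_
          rw [Finset.mem_Icc] at hm
          exact v3_partA (by omega) (by omega) _
      _ ≤ ∑ m ∈ Icc 2 (k - 3), 432 * cc G k m := by
          refine Finset.sum_le_sum_of_subset_of_nonneg
            (Finset.Icc_subset_Icc le_rfl (by omega)) fun m _ _ => ?_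
          have := cc_nonneg (G := G) (k := k) m
          positivity
      _ = _ := by rw [Finset.mul_sum]
  -- part (b)
  have hB : ∑ x ∈ Cyc G k, ∑ s ∈ Icc 3 (k - 7), ∑ m ∈ Icc (s + 2) (k - 5), ∑ w ∈ F G k s x,
      (if ¬ 2 * kap V k < pr G k m x (x ((m + 1 : ℕ) : ZMod k)) ∧
          G.Adj (x ((m + 1 : ℕ) : ZMod k)) w
        then 2 * kap V k * om G k w else 0) ≤
      8 * ∑ s ∈ Icc 3 (k - 7), Jl G k s + 864 * ∑ s ∈ Icc 2 (k - 3), cc G k s := by
    have hstep : ∀ s ∈ Icc 3 (k - 7), ∑ x ∈ Cyc G k, ∑ m ∈ Icc (s + 2) (k - 5),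
        ∑ w ∈ F G k s x,
        (if ¬ 2 * kap V k < pr G k m x (x ((m + 1 : ℕ) : ZMod k)) ∧
          G.Adj (x ((m + 1 : ℕ) : ZMod k)) w
        then 2 * kap V k * om G k w else 0) ≤ 8 * Jl G k s + 864 * cc G k s := by
      intro s hs
      rw [Finset.mem_Icc] at hs
      rw [Finset.sum_comm]
      calc _ ≤ ∑ m ∈ Icc (s + 2) (k - 5), ∑ x ∈ Cyc G k, ∑ w ∈ F G k s x,
            4 * kap V k * om G k w * mu k ((F G k m x).filter (fun y => G.Adj y w)) := by
            refine Finset.sum_le_sum fun m hm => ?_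
            rw [Finset.mem_Icc] at hm
            exact v3_partB (by omega) hm.1 (by omega)
        _ = ∑ x ∈ Cyc G k, ∑ w ∈ F G k s x, 4 * kap V k * om G k w *
            ∑ m ∈ Icc (s + 2) (k - 5), mu k ((F G k m x).filter (fun y => G.Adj y w)) := by
            rw [Finset.sum_comm]
            refine Finset.sum_congr rfl fun x _ => ?_
            rw [Finset.sum_comm]
            refine Finset.sum_congr rfl fun w _ => ?_
            rw [Finset.mul_sum]
        _ ≤ ∑ x ∈ Cyc G k, ∑ w ∈ F G k s x, 4 * kap V k * om G k w *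
            mu k ((W G k (s + 2) x).filter (fun y => G.Adj y w)) := by
            refine Finset.sum_le_sum fun x _ => Finset.sum_le_sum fun w _ => ?_
            refine mul_le_mul_of_nonneg_left ?_ (mul_nonneg (mul_nonneg (by norm_num)
              v3_kap_nonneg) (v3_om_nonneg w))
            exact v3_sum_F s _ (fun m hm => (Finset.mem_Icc.mp hm).1) x w
        _ ≤ _ := v3_partB' (by omega) (by omega)
    rw [Finset.sum_comm]
    refine (Finset.sum_le_sum hstep).trans ?_
    rw [Finset.sum_add_distrib, ← Finset.mul_sum, ← Finset.mul_sum]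
    have : ∑ s ∈ Icc 3 (k - 7), cc G k s ≤ ∑ s ∈ Icc 2 (k - 3), cc G k s :=
      Finset.sum_le_sum_of_subset_of_nonneg
        (Finset.Icc_subset_Icc (by omega) (by omega)) fun m _ _ => cc_nonneg m
    linarith
  calc _ = ∑ x ∈ Cyc G k, ∑ s ∈ Icc 3 (k - 7), ∑ m ∈ Icc (s + 2) (k - 5), ∑ w ∈ F G k s x,
        dis G k x ((m + 1 : ℕ) : ZMod k) w := by
        refine Finset.sum_congr rfl fun x _ => Finset.sum_congr rfl fun s _ => ?_
        exact hre s (fun j => ∑ w ∈ F G k s x, dis G k x ((j : ℕ) : ZMod k) w)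
    _ ≤ ∑ x ∈ Cyc G k, ∑ s ∈ Icc 3 (k - 7), ∑ m ∈ Icc (s + 2) (k - 5), ∑ w ∈ F G k s x,
        ((if 2 * kap V k < pr G k m x (x ((m + 1 : ℕ) : ZMod k)) ∧
          dg G k (x ((m + 1 : ℕ) : ZMod k)) ≤ 18 ∧ G.Adj (x ((m + 1 : ℕ) : ZMod k)) w
        then 2 * kap V k * om G k w else 0) +
      (if ¬ 2 * kap V k < pr G k m x (x ((m + 1 : ℕ) : ZMod k)) ∧
          G.Adj (x ((m + 1 : ℕ) : ZMod k)) w
        then 2 * kap V k * om G k w else 0)) :=
        Finset.sum_le_sum fun x _ => Finset.sum_le_sum fun s _ => Finset.sum_le_sum fun m _ =>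
          Finset.sum_le_sum fun w _ => hsplit x m w
    _ ≤ _ := by
        simp only [Finset.sum_add_distrib]
        linarith

end Pool.Agent.ICyc
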