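import Pool.Agent.Lib.MP_131fce_co.Defs

/-!
# Induced k-cycles in triangle-free graphs (MP_131fce_co): module IC-15b (number of rotations that see a vertex)
-/

set_option autoImplicit false

namespace Pool.Agent.ICyc

open Finset
open scoped Classical

variable {V : Type} [Fintype V] {G : SimpleGraph V} {k : ℕ} [NeZero k]

theorem ic15_Ty_indep_aux (tf : ∀ a b c : V, G.Adj a b → G.Adj b c → ¬ G.Adj a c) {x : ZMod k → V}
    (hx : x ∈ Cyc G k) {w : V} {i : ZMod k} (hi : i ∈ Ty G k x w) : i + 1 ∉ Ty G k x w := by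
  intro hi'
  simp only [Ty, mem_filter, mem_univ, true_and] at hi hi'
  have hc : IsCyc G k x := (mem_filter.mp hx).2
  exact tf _ _ _ hi hi'.symm ((hc i (i + 1)).mpr (Or.inl rfl))

theorem ic15_mem_F_rot {x : ZMod k → V} {w : V} {a : ZMod k} {l : ℕ} :
    w ∈ F G k l (fun i => x (i + a)) ↔
      ((∀ i : ℕ, i < l → ((i : ZMod k) + a) ∉ Ty G k x w) ∧ ((l : ZMod k) + a) ∈ Ty G k x w) := by
  simp [F, W, Ty]

/-- the number of steps at which `w` is a candidate, for one rotation -/
theorem ic15_cnt_inner_le (x : ZMod k → V) (w : V) (a : ZMod k) :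
    (∑ l ∈ Finset.Icc 2 (k - 3), if w ∈ F G k l (fun i => x (i + a)) then (1 : ℝ) else 0) ≤
      if a ∉ Ty G k x w ∧ a + 1 ∉ Ty G k x w then (1 : ℝ) else 0 := by
  classical
  by_cases h : ∃ l ∈ Finset.Icc 2 (k - 3), w ∈ F G k l (fun i => x (i + a))
  · obtain ⟨l, hl, hw⟩ := h
    have hl2 : 2 ≤ l := (Finset.mem_Icc.mp hl).1
    have hw' := ic15_mem_F_rot.mp hw
    have h0 : a ∉ Ty G k x w := by
      have := hw'.1 0 (by omega)
      simpa using this
    have h1 : a + 1 ∉ Ty G k x w := by
      have := hw'.1 1 (by omega)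
      rw [add_comm]
      simpa using this
    rw [if_pos ⟨h0, h1⟩]
    rw [Finset.sum_eq_single l]
    · rw [if_pos hw]
    · intro m _ hml
      rw [if_neg]
      intro hm
      have hm' := ic15_mem_F_rot.mp hm
      rcases lt_or_gt_of_ne hml with hlt | hgt
      · exact hw'.1 m hlt hm'.2
      · exact hm'.1 l hgt hw'.2
    · intro hl'
      exact absurd hl hl'
  · push Not at h
    rw [Finset.sum_eq_zero]
    · split_ifs <;> norm_num
    · intro l hl
      rw [if_neg (h l hl)]

theorem ic15_cnt_le_free (x : ZMod k → V) (w : V) :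
    cnt G k x w ≤ ((univ.filter (fun a : ZMod k => a ∉ Ty G k x w ∧ a + 1 ∉ Ty G k x w)).card : ℝ) := by
  unfold cnt
  calc _ ≤ ∑ a : ZMod k, (if a ∉ Ty G k x w ∧ a + 1 ∉ Ty G k x w then (1 : ℝ) else 0) :=
        Finset.sum_le_sum (fun a _ => ic15_cnt_inner_le x w a)
    _ = _ := by
        rw [Finset.sum_boole]

theorem ic15_card_free_pair (S : Finset (ZMod k)) (hS : ∀ i ∈ S, i + 1 ∉ S) :
    (univ.filter (fun a : ZMod k => a ∉ S ∧ a + 1 ∉ S)).card + 2 * S.card = k := by
  classical
  have h1 : (univ.filter (fun a : ZMod k => a ∉ S ∧ a + 1 ∉ S)) =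
      (S ∪ S.image (fun i => i - 1))ᶜ := by
    ext a
    simp only [mem_filter, mem_univ, true_and, mem_compl, mem_union, mem_image, not_or]
    constructor
    · rintro ⟨h, h'⟩
      refine ⟨h, ?_⟩
      rintro ⟨b, hb, hba⟩
      apply h'
      rw [← hba]
      simpa using hb
    · rintro ⟨h, h'⟩
      refine ⟨h, ?_⟩
      intro h2
      exact h' ⟨a + 1, h2, by ring⟩
  have h2 : Disjoint S (S.image (fun i => i - 1)) := by
    rw [Finset.disjoint_left]
    intro a ha ha'
    rw [mem_image] at ha'
    obtain ⟨b, hb, hba⟩ := ha'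
    have : a + 1 = b := by rw [← hba]; ring
    exact hS a ha (this ▸ hb)
  have h3 : (S.image (fun i => i - 1)).card = S.card :=
    Finset.card_image_of_injective _ (fun a b h => by simpa using h)
  rw [h1, Finset.card_compl, Finset.card_union_of_disjoint h2, h3, ZMod.card]
  have h4 : (S ∪ S.image (fun i => i - 1)).card ≤ k := by
    have := Finset.card_le_univ (S ∪ S.image (fun i => i - 1))
    rwa [ZMod.card] at this
  rw [Finset.card_union_of_disjoint h2, h3] at h4
  omega

theorem ic15_cnt_zero {x : ZMod k → V} {w : V} (h : (Ty G k x w).card = 0) : cnt G k x w = 0 := by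
  unfold cnt
  apply Finset.sum_eq_zero
  intro a _
  apply Finset.sum_eq_zero
  intro l _
  rw [if_neg]
  intro hw
  have := (ic15_mem_F_rot.mp hw).2
  rw [Finset.card_eq_zero.mp h] at this
  simp at this

theorem ic15_cnt_one (hk : 20 ≤ k) {x : ZMod k → V} {w : V} (h : (Ty G k x w).card = 1) :
    cnt G k x w ≤ (k : ℝ) - 4 := by
  classical
  obtain ⟨b, hb⟩ := Finset.card_eq_one.mp h
  unfold cnt
  rw [Finset.sum_comm]
  calc _ ≤ ∑ _l ∈ Finset.Icc 2 (k - 3), (1 : ℝ) := by
        apply Finset.sum_le_sum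
        intro l _
        calc _ ≤ ∑ a : ZMod k, (if a = b - (l : ZMod k) then (1 : ℝ) else 0) := by
              apply Finset.sum_le_sum
              intro a _
              split_ifs with h1 h2 h2
              · exact le_refl _
              · exfalso
                apply h2
                have := (ic15_mem_F_rot.mp h1).2
                rw [hb, Finset.mem_singleton] at this
                rw [← this]
                ring
              · norm_num
              · exact le_refl _
          _ = 1 := by simp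
    _ = (k : ℝ) - 4 := by
        rw [Finset.sum_const, Nat.card_Icc, nsmul_eq_mul, mul_one]
        have : k - 3 + 1 - 2 = k - 4 := by omega
        rw [this, Nat.cast_sub (by omega)]
        norm_num

theorem cnt_le (hk : 20 ≤ k) (tf : ∀ a b c : V, G.Adj a b → G.Adj b c → ¬ G.Adj a c)
    {x : ZMod k → V} (hx : x ∈ Cyc G k) (w : V) :
    cnt G k x w ≤ if (Ty G k x w).card = 0 then 0 else if (Ty G k x w).card = 1 then (k : ℝ) - 4
      else (k : ℝ) - 2 * ((Ty G k x w).card : ℝ) := by
  split_ifs with h0 h1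
  · exact (ic15_cnt_zero h0).le
  · exact ic15_cnt_one hk h1
  · refine (ic15_cnt_le_free x w).trans ?_
    have h2 := ic15_card_free_pair (Ty G k x w) (fun i hi => ic15_Ty_indep_aux tf hx hi)
    have h3 : (((univ.filter (fun a : ZMod k => a ∉ Ty G k x w ∧ a + 1 ∉ Ty G k x w)).card : ℝ)) +
        2 * ((Ty G k x w).card : ℝ) = (k : ℝ) := by
      exact_mod_cast h2
    linarith

end Pool.Agent.ICyc
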