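import Pool.Agent.Lib.MP_131fce_co.Defs

set_option autoImplicit false

/-! Induced k-cycles in triangle-free graphs, IC-17: labelled versus unlabelled. -/

namespace Pool.Agent.ICyc

open Finset
open scoped Classical

variable {V : Type} [Fintype V] {G : SimpleGraph V} {k : ℕ} [NeZero k]

/-- the labelled cycle of an isomorphism with the cycle graph -/
noncomputable def cntMap {m : ℕ} (S : Finset V)
    (e : G.induce (S : Set V) ≃g SimpleGraph.cycleGraph (m + 1)) (a : ZMod (m + 1)) (b : Bool)
    (i : ZMod (m + 1)) : V :=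
  (e.symm (show Fin (m + 1) from (if b then a + i else a - i))).1

theorem cntMap_isCyc {m : ℕ} (hm : 4 ≤ m) (S : Finset V)
    (e : G.induce (S : Set V) ≃g SimpleGraph.cycleGraph (m + 1)) (a : ZMod (m + 1)) (b : Bool) :
    IsCyc G (m + 1) (cntMap S e a b) := by
  have key : ∀ u v : Fin (m + 1), G.Adj (e.symm u).1 (e.symm v).1 ↔ (u = v + 1 ∨ v = u + 1) := by
    intro u v
    have h1 : G.Adj (e.symm u).1 (e.symm v).1 ↔ (G.induce (S : Set V)).Adj (e.symm u) (e.symm v) :=
      Iff.rfl
    rw [h1, e.symm.map_adj_iff, SimpleGraph.cycleGraph_adj']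
    have h2 : ∀ w : Fin (m + 1), w.val = 1 ↔ w = 1 := by
      intro w
      rw [Fin.ext_iff]
      have : ((1 : Fin (m + 1)) : ℕ) = 1 := by
        rw [Fin.val_one']
        exact Nat.mod_eq_of_lt (by omega)
      rw [this]
    rw [h2, h2, sub_eq_iff_eq_add, sub_eq_iff_eq_add, add_comm 1 v, add_comm 1 u]
  intro i j
  unfold cntMap
  rw [key]
  cases b
  · show ((a - i : ZMod (m + 1)) = (a - j) + 1 ∨ (a - j : ZMod (m + 1)) = (a - i) + 1) ↔ _
    constructor
    · rintro (h | h)
      · left; linear_combination h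
      · right; linear_combination h
    · rintro (h | h)
      · left; linear_combination h
      · right; linear_combination h
  · show ((a + i : ZMod (m + 1)) = (a + j) + 1 ∨ (a + j : ZMod (m + 1)) = (a + i) + 1) ↔ _
    constructor
    · rintro (h | h)
      · right; linear_combination h
      · left; linear_combination h
    · rintro (h | h)
      · right; linear_combination h
      · left; linear_combination h

theorem cntMap_image {m : ℕ} (S : Finset V)
    (e : G.induce (S : Set V) ≃g SimpleGraph.cycleGraph (m + 1)) (a : ZMod (m + 1)) (b : Bool) :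
    univ.image (cntMap S e a b) = S := by
  ext v
  simp only [mem_image, mem_univ, true_and]
  constructor
  · rintro ⟨i, rfl⟩
    exact (e.symm _).2
  · intro hv
    let w : ZMod (m + 1) := e ⟨v, hv⟩
    have hw : (e.symm (show Fin (m + 1) from w)).1 = v := by
      show (e.symm (e ⟨v, hv⟩)).1 = v
      rw [e.symm_apply_apply]
    cases b
    · refine ⟨a - w, ?_⟩
      simp only [cntMap, Bool.false_eq_true, if_false]
      rw [sub_sub_cancel]
      exact hw
    · refine ⟨w - a, ?_⟩
      simp only [cntMap, if_true]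
      rw [add_sub_cancel]
      exact hw

theorem cntMap_inj {m : ℕ} (hm : 4 ≤ m) (S : Finset V)
    (e : G.induce (S : Set V) ≃g SimpleGraph.cycleGraph (m + 1)) {a a' : ZMod (m + 1)}
    {b b' : Bool} (h : cntMap S e a b = cntMap S e a' b') : a = a' ∧ b = b' := by
  have key : ∀ i : ZMod (m + 1), (if b then a + i else a - i) = (if b' then a' + i else a' - i) := by
    intro i
    have h1 := congrFun h i
    unfold cntMap at h1
    exact e.symm.injective (Subtype.ext h1)
  have h0 : a = a' := by
    have := key 0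
    simpa using this
  refine ⟨h0, ?_⟩
  subst h0
  have h1 := key 1
  have h2 : (1 : ZMod (m + 1)) ≠ -1 := by
    intro h
    have h3 : ((2 : ℕ) : ZMod (m + 1)) = 0 := by
      push_cast
      linear_combination h
    rw [ZMod.natCast_eq_zero_iff] at h3
    have := Nat.le_of_dvd (by norm_num) h3
    omega
  cases b <;> cases b'
  · rfl
  · exfalso
    simp only [Bool.false_eq_true, if_false, if_true] at h1
    apply h2
    linear_combination -h1
  · exfalso
    simp only [Bool.false_eq_true, if_false, if_true] at h1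
    apply h2
    linear_combination h1
  · rfl

theorem ncard_le (hk : 5 ≤ k) :
    (2 * (k : ℝ)) * (({S : Finset V | S.card = k ∧
          Nonempty (G.induce (S : Set V) ≃g SimpleGraph.cycleGraph k)}.ncard : ℝ)) ≤ NN G k := by
  obtain ⟨m, rfl⟩ : ∃ m, k = m + 1 := ⟨k - 1, by omega⟩
  have hm : 4 ≤ m := by omega
  set P : Finset V → Prop := fun S => S.card = m + 1 ∧
    Nonempty (G.induce (S : Set V) ≃g SimpleGraph.cycleGraph (m + 1)) with hP
  have hn : {S : Finset V | P S}.ncard = (univ.filter P).card := by
    rw [← Set.ncard_coe_finset]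
    congr 1
    ext S; simp
  have hch : ∀ S : Finset V, P S →
      Nonempty (G.induce (S : Set V) ≃g SimpleGraph.cycleGraph (m + 1)) := fun S h => h.2
  let E : ∀ S : Finset V, P S → (G.induce (S : Set V) ≃g SimpleGraph.cycleGraph (m + 1)) :=
    fun S h => Classical.choice (hch S h)
  have hcard : Fintype.card ({S : Finset V // P S} × (ZMod (m + 1) × Bool)) ≤
      Fintype.card {x : ZMod (m + 1) → V // x ∈ Cyc G (m + 1)} := by
    refine Fintype.card_le_of_injective
      (fun t => ⟨cntMap t.1.1 (E t.1.1 t.1.2) t.2.1 t.2.2, ?_⟩) ?_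
    · rw [Cyc, mem_filter]
      exact ⟨mem_univ _, cntMap_isCyc hm _ _ _ _⟩
    · rintro ⟨⟨S, hS⟩, a, b⟩ ⟨⟨S', hS'⟩, a', b'⟩ h
      have h1 : cntMap S (E S hS) a b = cntMap S' (E S' hS') a' b' := congrArg Subtype.val h
      have h2 : S = S' := by
        rw [← cntMap_image S (E S hS) a b, h1, cntMap_image]
      subst h2
      obtain ⟨h3, h4⟩ := cntMap_inj hm S (E S hS) h1
      rw [h3, h4]
  rw [Fintype.card_prod, Fintype.card_prod, Fintype.card_bool, ZMod.card, Fintype.card_coe,
    Fintype.card_subtype] at hcard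
  rw [hn, NN]
  have h5 : (((univ.filter P).card * ((m + 1) * 2) : ℕ) : ℝ) ≤ ((Cyc G (m + 1)).card : ℝ) := by
    exact_mod_cast hcard
  refine le_trans (le_of_eq ?_) h5
  push_cast
  ring

end Pool.Agent.ICyc
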